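import Pool.Agent.helper14.NS.Q100a.PN11

/-!
Generated: certificates.
-/

namespace Pool.Agent.helper14.NS.Q100a

open Pool.Agent.helper31.IA (Z)
open Pool.Agent.helper31.IX (Op XOps runX Cov CovD cov_split covD_split)
open Pool.Agent.helper31.IC (TD)
open Pool.Agent.helper63.RG (reloc)
open Pool.Agent.helper63.NF hiding TD
open Pool.Agent.helper4.NS
open Pool.Agent.helper14.CF (xE covD_E)
open Pool.Agent.helper14.NR (share)

mutual
theorem A11_c0_t7 : CovD 1 gA11 [(10003415040, 991952896), (68719476736, 68719476736), (68719476736, 68719476736)] :=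
  covD_E kA11_eq (.n 2 (.l 2) (.n 2 (.l 2) (.n 1 (.n 2 (.l 2) (.n 1 (.n 1 (.l 0) (.l 0)) (.l 0))) (.l 0))))
    [(10003415040, 991952896), (68719476736, 68719476736), (68719476736, 68719476736)] rfl (by decide +kernel)
theorem A11_c0_t8 : CovD 1 gA11 [(10003415040, 991952896), (68719476736, 68719476736), (206158430208, 68719476736)] :=
  covD_E kA11_eq (.n 1 (.n 1 (.n 1 (.n 2 (.n 2 (.l 0) (.l 0)) (.l 0)) (.n 2 (.n 2 (.l 0) (.l 0)) (.l 0))) (.n 1 (.n 2 (.n 1 (.l 0) (.l 0)) (.l 0)) (.n 2 (.l 0) (.l 0)))) (.n 1 (.n 2 (.l 0) (.l 0)) (.n 2 (.l 0) (.l 0))))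
    [(10003415040, 991952896), (68719476736, 68719476736), (206158430208, 68719476736)] rfl (by decide +kernel)
end

mutual
theorem A11_c0_t9 : CovD 1 gA11 [(10003415040, 991952896), (206158430208, 68719476736), (137438953472, 137438953472)] :=
  covD_E kA11_eq (.n 1 (.n 2 (.l 0) (.n 1 (.l 0) (.l 0))) (.n 2 (.l 0) (.l 0)))
    [(10003415040, 991952896), (206158430208, 68719476736), (137438953472, 137438953472)] rfl (by decide +kernel)
theorem A11_c0_t11 : CovD 1 gA11 [(10003415040, 991952896), (68719476736, 68719476736), (412316860416, 137438953472)] :=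
  covD_E kA11_eq (.n 1 (.n 1 (.n 2 (.n 2 (.l 0) (.l 0)) (.l 0)) (.n 2 (.n 2 (.l 0) (.l 0)) (.l 0))) (.n 1 (.n 2 (.n 2 (.l 0) (.l 0)) (.l 0)) (.n 2 (.n 0 (.l 0) (.l 0)) (.l 0))))
    [(10003415040, 991952896), (68719476736, 68719476736), (412316860416, 137438953472)] rfl (by decide +kernel)
end

mutual
theorem A11_c0_t12 : CovD 1 gA11 [(10003415040, 991952896), (206158430208, 68719476736), (412316860416, 137438953472)] :=
  covD_E kA11_eq (.n 1 (.n 0 (.n 2 (.l 0) (.l 0)) (.n 2 (.l 0) (.l 0))) (.n 2 (.l 0) (.l 0)))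
    [(10003415040, 991952896), (206158430208, 68719476736), (412316860416, 137438953472)] rfl (by decide +kernel)
theorem A11_c0_t13 : CovD 1 gA11 [(10003415040, 991952896), (137438953472, 137438953472), (824633720832, 274877906944)] :=
  covD_E kA11_eq (.n 2 (.n 1 (.n 1 (.n 2 (.n 0 (.l 0) (.l 0)) (.l 0)) (.n 2 (.l 0) (.l 0))) (.n 1 (.n 2 (.l 0) (.l 0)) (.n 2 (.l 0) (.l 0)))) (.n 1 (.n 2 (.n 1 (.l 0) (.l 0)) (.l 0)) (.n 0 (.n 2 (.l 0) (.l 0)) (.n 1 (.l 0) (.l 0)))))
    [(10003415040, 991952896), (137438953472, 137438953472), (824633720832, 274877906944)] rfl (by decide +kernel)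
end

mutual
theorem A11_c0_t15 : CovD 1 gA11 [(10003415040, 991952896), (137438953472, 137438953472), (1374389534720, 274877906944)] :=
  covD_E kA11_eq (.n 2 (.n 1 (.n 0 (.l 0) (.l 0)) (.n 1 (.l 0) (.l 0))) (.n 0 (.n 1 (.l 0) (.l 0)) (.n 1 (.l 0) (.l 0))))
    [(10003415040, 991952896), (137438953472, 137438953472), (1374389534720, 274877906944)] rfl (by decide +kernel)
theorem A11_c0_t16 : CovD 1 gA11 [(10003415040, 991952896), (137438953472, 137438953472), (1924145348608, 274877906944)] :=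
  covD_E kA11_eq (.n 2 (.n 0 (.n 1 (.l 0) (.l 0)) (.n 1 (.l 0) (.l 0))) (.n 1 (.n 2 (.l 0) (.l 0)) (.n 0 (.l 0) (.n 1 (.l 0) (.l 0)))))
    [(10003415040, 991952896), (137438953472, 137438953472), (1924145348608, 274877906944)] rfl (by decide +kernel)
end

mutual
theorem A11_c0_t20 : CovD 1 gA11 [(10003415040, 991952896), (137438953472, 137438953472), (2336462209024, 137438953472)] :=
  covD_E kA11_eq (.n 0 (.n 1 (.n 1 (.l 0) (.l 0)) (.n 1 (.l 0) (.l 0))) (.n 1 (.n 2 (.l 0) (.l 0)) (.n 2 (.l 0) (.n 0 (.l 0) (.l 0)))))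
    [(10003415040, 991952896), (137438953472, 137438953472), (2336462209024, 137438953472)] rfl (by decide +kernel)
theorem A11_c0_t22 : CovD 1 gA11 [(9507438592, 495976448), (137438953472, 137438953472), (2611340115968, 137438953472)] :=
  covD_E kA11_eq (.n 1 (.n 2 (.l 0) (.n 1 (.l 0) (.l 0))) (.n 1 (.n 2 (.l 0) (.l 0)) (.n 2 (.l 0) (.l 0))))
    [(9507438592, 495976448), (137438953472, 137438953472), (2611340115968, 137438953472)] rfl (by decide +kernel)
end

mutual
theorem A11_c0_t23 : CovD 1 gA11 [(10499391488, 495976448), (137438953472, 137438953472), (2611340115968, 137438953472)] :=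
  covD_E kA11_eq (.n 1 (.n 2 (.n 1 (.l 0) (.l 0)) (.n 2 (.l 0) (.n 0 (.l 0) (.l 0)))) (.n 1 (.n 2 (.l 0) (.n 0 (.l 0) (.l 0))) (.n 2 (.l 0) (.n 0 (.l 0) (.l 0)))))
    [(10499391488, 495976448), (137438953472, 137438953472), (2611340115968, 137438953472)] rfl (by decide +kernel)
theorem A11_c0_t27 : CovD 1 gA11 [(9507438592, 495976448), (68719476736, 68719476736), (2886218022912, 137438953472)] :=
  covD_E kA11_eq (.n 1 (.n 2 (.n 2 (.l 0) (.l 0)) (.n 2 (.n 0 (.l 0) (.l 0)) (.n 2 (.l 0) (.l 0)))) (.n 2 (.n 2 (.l 0) (.l 0)) (.n 2 (.n 0 (.l 0) (.l 0)) (.n 2 (.l 0) (.l 0)))))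
    [(9507438592, 495976448), (68719476736, 68719476736), (2886218022912, 137438953472)] rfl (by decide +kernel)
end

mutual
theorem A11_c0_t28 : CovD 1 gA11 [(9507438592, 495976448), (206158430208, 68719476736), (2886218022912, 137438953472)] :=
  covD_E kA11_eq (.n 1 (.n 2 (.n 2 (.l 0) (.l 0)) (.n 2 (.n 0 (.l 0) (.l 0)) (.n 2 (.l 0) (.l 0)))) (.n 2 (.n 2 (.l 0) (.l 0)) (.n 2 (.l 0) (.n 0 (.l 0) (.l 0)))))
    [(9507438592, 495976448), (206158430208, 68719476736), (2886218022912, 137438953472)] rfl (by decide +kernel)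
theorem A11_c0_t30 : CovD 1 gA11 [(10499391488, 495976448), (68719476736, 68719476736), (2886218022912, 137438953472)] :=
  covD_E kA11_eq (.n 1 (.n 2 (.n 2 (.l 0) (.l 0)) (.n 0 (.n 2 (.l 0) (.l 0)) (.n 2 (.l 0) (.l 0)))) (.n 2 (.n 2 (.l 0) (.l 0)) (.n 0 (.n 2 (.l 0) (.l 0)) (.n 2 (.l 0) (.l 0)))))
    [(10499391488, 495976448), (68719476736, 68719476736), (2886218022912, 137438953472)] rfl (by decide +kernel)
end

mutual
theorem A11_c0_t31 : CovD 1 gA11 [(10499391488, 495976448), (206158430208, 68719476736), (2886218022912, 137438953472)] :=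
  covD_E kA11_eq (.n 1 (.n 2 (.n 2 (.l 0) (.l 0)) (.n 0 (.n 2 (.l 0) (.l 0)) (.n 2 (.l 0) (.l 0)))) (.n 2 (.n 2 (.l 0) (.l 0)) (.n 0 (.n 2 (.l 0) (.l 0)) (.n 2 (.l 0) (.l 0)))))
    [(10499391488, 495976448), (206158430208, 68719476736), (2886218022912, 137438953472)] rfl (by decide +kernel)
theorem A11_c0_t36 : CovD 1 gA11 [(9507438592, 495976448), (34359738368, 34359738368), (3092376453120, 68719476736)] :=
  covD_E kA11_eq (.n 2 (.n 1 (.n 2 (.l 0) (.l 0)) (.n 2 (.l 0) (.l 0))) (.n 0 (.n 2 (.n 1 (.l 0) (.l 0)) (.n 2 (.l 0) (.n 0 (.l 0) (.l 0)))) (.n 2 (.l 0) (.l 0))))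
    [(9507438592, 495976448), (34359738368, 34359738368), (3092376453120, 68719476736)] rfl (by decide +kernel)
end

mutual
theorem A11_c0_t39 : CovD 1 gA11 [(9259450368, 247988224), (17179869184, 17179869184), (3229815406592, 68719476736)] :=
  covD_E kA11_eq (.n 2 (.n 2 (.n 2 (.l 0) (.l 0)) (.n 2 (.l 0) (.n 0 (.l 0) (.l 0)))) (.n 1 (.n 2 (.n 2 (.l 0) (.l 0)) (.n 2 (.l 0) (.l 0))) (.n 2 (.n 2 (.l 0) (.l 0)) (.n 2 (.l 0) (.l 0)))))
    [(9259450368, 247988224), (17179869184, 17179869184), (3229815406592, 68719476736)] rfl (by decide +kernel)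
theorem A11_c0_t40 : CovD 1 gA11 [(9259450368, 247988224), (51539607552, 17179869184), (3229815406592, 68719476736)] :=
  covD_E kA11_eq (.n 2 (.n 2 (.n 2 (.l 0) (.l 0)) (.n 2 (.l 0) (.l 0))) (.n 2 (.n 2 (.l 0) (.l 0)) (.n 2 (.l 0) (.l 0))))
    [(9259450368, 247988224), (51539607552, 17179869184), (3229815406592, 68719476736)] rfl (by decide +kernel)
end

mutual
theorem A11_c0_t41 : CovD 1 gA11 [(9755426816, 247988224), (34359738368, 34359738368), (3229815406592, 68719476736)] :=
  covD_E kA11_eq (.n 0 (.n 2 (.n 2 (.l 0) (.l 0)) (.n 2 (.l 0) (.l 0))) (.n 2 (.n 2 (.l 0) (.l 0)) (.n 2 (.l 0) (.l 0))))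
    [(9755426816, 247988224), (34359738368, 34359738368), (3229815406592, 68719476736)] rfl (by decide +kernel)
theorem A11_c0_t44 : CovD 1 gA11 [(9259450368, 247988224), (103079215104, 34359738368), (3092376453120, 68719476736)] :=
  covD_E kA11_eq (.n 2 (.n 2 (.l 0) (.l 0)) (.n 2 (.n 1 (.l 0) (.l 0)) (.n 2 (.l 0) (.l 0))))
    [(9259450368, 247988224), (103079215104, 34359738368), (3092376453120, 68719476736)] rfl (by decide +kernel)
end

mutual
theorem A11_c0_t45 : CovD 1 gA11 [(9259450368, 247988224), (103079215104, 34359738368), (3229815406592, 68719476736)] :=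
  covD_E kA11_eq (.n 1 (.n 2 (.n 2 (.n 2 (.l 0) (.l 0)) (.n 2 (.l 0) (.l 0))) (.n 2 (.n 2 (.l 0) (.l 0)) (.n 2 (.l 0) (.l 0)))) (.n 2 (.n 2 (.n 2 (.l 0) (.l 0)) (.n 2 (.l 0) (.l 0))) (.n 2 (.n 2 (.l 0) (.l 0)) (.n 2 (.l 0) (.l 0)))))
    [(9259450368, 247988224), (103079215104, 34359738368), (3229815406592, 68719476736)] rfl (by decide +kernel)
theorem A11_c0_t46 : CovD 1 gA11 [(9755426816, 247988224), (103079215104, 34359738368), (3161095929856, 137438953472)] :=
  covD_E kA11_eq (.n 2 (.n 2 (.n 2 (.l 0) (.l 0)) (.n 2 (.l 0) (.l 0))) (.n 2 (.n 2 (.l 0) (.n 0 (.l 0) (.l 0))) (.n 2 (.l 0) (.l 0))))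
    [(9755426816, 247988224), (103079215104, 34359738368), (3161095929856, 137438953472)] rfl (by decide +kernel)
end

mutual
theorem A11_c0_t49 : CovD 1 gA11 [(9507438592, 495976448), (171798691840, 34359738368), (3092376453120, 68719476736)] :=
  covD_E kA11_eq (.n 2 (.n 2 (.l 0) (.n 0 (.l 0) (.l 0))) (.n 0 (.n 2 (.l 0) (.n 1 (.l 0) (.l 0))) (.n 2 (.l 0) (.l 0))))
    [(9507438592, 495976448), (171798691840, 34359738368), (3092376453120, 68719476736)] rfl (by decide +kernel)
theorem A11_c0_t50 : CovD 1 gA11 [(9507438592, 495976448), (171798691840, 34359738368), (3229815406592, 68719476736)] :=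
  covD_E kA11_eq (.n 0 (.n 2 (.n 2 (.n 2 (.l 0) (.l 0)) (.n 2 (.l 0) (.l 0))) (.n 2 (.n 2 (.l 0) (.l 0)) (.n 2 (.l 0) (.l 0)))) (.n 2 (.n 2 (.l 0) (.l 0)) (.n 2 (.l 0) (.l 0))))
    [(9507438592, 495976448), (171798691840, 34359738368), (3229815406592, 68719476736)] rfl (by decide +kernel)
end

mutual
theorem A11_c0_t51 : CovD 1 gA11 [(9507438592, 495976448), (240518168576, 34359738368), (3161095929856, 137438953472)] :=
  covD_E kA11_eq (.n 2 (.n 2 (.n 2 (.l 0) (.l 0)) (.n 0 (.n 2 (.l 0) (.l 0)) (.n 1 (.l 0) (.l 0)))) (.n 0 (.n 2 (.n 2 (.l 0) (.l 0)) (.n 2 (.l 0) (.l 0))) (.n 2 (.n 2 (.l 0) (.l 0)) (.n 1 (.l 0) (.l 0)))))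
    [(9507438592, 495976448), (240518168576, 34359738368), (3161095929856, 137438953472)] rfl (by decide +kernel)
theorem A11_c0_t54 : CovD 1 gA11 [(10499391488, 495976448), (34359738368, 34359738368), (3161095929856, 137438953472)] :=
  covD_E kA11_eq (.n 2 (.n 2 (.n 2 (.l 0) (.l 0)) (.n 2 (.l 0) (.n 0 (.l 0) (.l 0)))) (.n 2 (.n 0 (.n 2 (.l 0) (.l 0)) (.n 0 (.l 0) (.l 0))) (.n 2 (.l 0) (.l 0))))
    [(10499391488, 495976448), (34359738368, 34359738368), (3161095929856, 137438953472)] rfl (by decide +kernel)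
end

mutual
theorem A11_c0_t55 : CovD 1 gA11 [(10499391488, 495976448), (103079215104, 34359738368), (3161095929856, 137438953472)] :=
  covD_E kA11_eq (.n 2 (.n 2 (.n 2 (.l 0) (.l 0)) (.n 2 (.l 0) (.n 0 (.l 0) (.l 0)))) (.n 2 (.n 2 (.n 0 (.l 0) (.l 0)) (.l 0)) (.n 2 (.l 0) (.l 0))))
    [(10499391488, 495976448), (103079215104, 34359738368), (3161095929856, 137438953472)] rfl (by decide +kernel)
theorem A11_c0_t57 : CovD 1 gA11 [(10499391488, 495976448), (171798691840, 34359738368), (3161095929856, 137438953472)] :=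
  covD_E kA11_eq (.n 2 (.n 2 (.n 2 (.l 0) (.l 0)) (.n 2 (.l 0) (.n 0 (.l 0) (.l 0)))) (.n 2 (.n 2 (.n 0 (.l 0) (.l 0)) (.l 0)) (.n 2 (.l 0) (.l 0))))
    [(10499391488, 495976448), (171798691840, 34359738368), (3161095929856, 137438953472)] rfl (by decide +kernel)
end

mutual
theorem A11_c0_t58 : CovD 1 gA11 [(10499391488, 495976448), (240518168576, 34359738368), (3161095929856, 137438953472)] :=
  covD_E kA11_eq (.n 2 (.n 2 (.n 0 (.l 0) (.l 0)) (.n 2 (.l 0) (.l 0))) (.n 2 (.n 2 (.l 0) (.l 0)) (.n 0 (.l 0) (.l 0))))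
    [(10499391488, 495976448), (240518168576, 34359738368), (3161095929856, 137438953472)] rfl (by decide +kernel)
theorem A11_c0_t67 : CovD 1 gA11 [(9259450368, 247988224), (34359738368, 34359738368), (3332894621696, 34359738368)] :=
  covD_E kA11_eq (.n 1 (.n 2 (.n 2 (.n 2 (.l 0) (.l 0)) (.n 2 (.l 0) (.l 0))) (.n 2 (.n 2 (.l 0) (.l 0)) (.n 2 (.l 0) (.l 0)))) (.n 0 (.n 2 (.n 2 (.l 0) (.l 0)) (.n 2 (.l 0) (.l 0))) (.n 2 (.l 0) (.l 0))))
    [(9259450368, 247988224), (34359738368, 34359738368), (3332894621696, 34359738368)] rfl (by decide +kernel)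
end

mutual
theorem A11_c0_t68 : CovD 1 gA11 [(9259450368, 247988224), (103079215104, 34359738368), (3332894621696, 34359738368)] :=
  covD_E kA11_eq (.n 1 (.n 2 (.n 2 (.l 0) (.l 0)) (.n 2 (.l 0) (.l 0))) (.n 2 (.n 2 (.l 0) (.l 0)) (.n 2 (.l 0) (.l 0))))
    [(9259450368, 247988224), (103079215104, 34359738368), (3332894621696, 34359738368)] rfl (by decide +kernel)
theorem A11_c0_t69 : CovD 1 gA11 [(9259450368, 247988224), (68719476736, 68719476736), (3401614098432, 34359738368)] :=
  covD_E kA11_eq (.n 2 (.n 0 (.n 1 (.n 2 (.n 0 (.n 1 (.l 0) (.l 0)) (.l 0)) (.l 1)) (.n 2 (.n 0 (.l 0) (.l 0)) (.l 1))) (.n 2 (.n 1 (.l 0) (.l 0)) (.n 2 (.n 1 (.l 0) (.l 0)) (.l 1)))) (.l 1))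
    [(9259450368, 247988224), (68719476736, 68719476736), (3401614098432, 34359738368)] rfl (by decide +kernel)
end

mutual
theorem A11_c0_t70 : CovD 1 gA11 [(9755426816, 247988224), (68719476736, 68719476736), (3367254360064, 68719476736)] :=
  covD_E kA11_eq (.n 2 (.n 1 (.n 2 (.n 0 (.l 0) (.l 0)) (.l 0)) (.n 2 (.l 0) (.l 0))) (.n 2 (.n 2 (.n 1 (.l 0) (.l 0)) (.n 0 (.n 2 (.n 0 (.l 0) (.l 0)) (.l 1)) (.n 0 (.n 0 (.l 0) (.l 0)) (.l 0)))) (.n 0 (.l 1) (.l 1))))
    [(9755426816, 247988224), (68719476736, 68719476736), (3367254360064, 68719476736)] rfl (by decide +kernel)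
theorem A11_c0_t71 : CovD 1 gA11 [(9507438592, 495976448), (68719476736, 68719476736), (3504693313536, 68719476736)] :=
  covD_E kA11_eq (.l 1)
    [(9507438592, 495976448), (68719476736, 68719476736), (3504693313536, 68719476736)] rfl (by decide +kernel)
end

mutual
theorem A11_c0_t72 : CovD 1 gA11 [(10499391488, 495976448), (68719476736, 68719476736), (3435973836800, 137438953472)] :=
  covD_E kA11_eq (.n 2 (.n 2 (.n 1 (.n 2 (.l 0) (.l 0)) (.n 2 (.l 0) (.l 0))) (.n 2 (.n 0 (.n 0 (.n 0 (.l 0) (.l 0)) (.l 0)) (.n 0 (.l 0) (.l 0))) (.n 0 (.n 0 (.l 1) (.l 1)) (.n 2 (.n 0 (.l 1) (.n 0 (.l 1) (.l 0))) (.l 1))))) (.l 1))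
    [(10499391488, 495976448), (68719476736, 68719476736), (3435973836800, 137438953472)] rfl (by decide +kernel)
theorem A11_c0_t77 : CovD 1 gA11 [(9259450368, 247988224), (206158430208, 68719476736), (3332894621696, 34359738368)] :=
  covD_E kA11_eq (.n 1 (.n 2 (.n 2 (.l 0) (.l 0)) (.n 2 (.l 0) (.l 0))) (.n 2 (.l 0) (.l 0)))
    [(9259450368, 247988224), (206158430208, 68719476736), (3332894621696, 34359738368)] rfl (by decide +kernel)
end

mutual
theorem A11_c0_t78 : CovD 1 gA11 [(9259450368, 247988224), (206158430208, 68719476736), (3401614098432, 34359738368)] :=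
  covD_E kA11_eq (.n 0 (.n 2 (.n 1 (.n 2 (.l 0) (.l 1)) (.n 2 (.l 0) (.n 1 (.l 1) (.n 0 (.l 1) (.l 1))))) (.l 1)) (.n 2 (.n 1 (.n 2 (.l 0) (.n 0 (.l 1) (.l 1))) (.n 2 (.l 0) (.n 0 (.n 2 (.l 0) (.l 1)) (.n 2 (.l 0) (.l 1))))) (.l 1)))
    [(9259450368, 247988224), (206158430208, 68719476736), (3401614098432, 34359738368)] rfl (by decide +kernel)
theorem A11_c0_t79 : CovD 1 gA11 [(9259450368, 247988224), (206158430208, 68719476736), (3504693313536, 68719476736)] :=
  covD_E kA11_eq (.l 1)
    [(9259450368, 247988224), (206158430208, 68719476736), (3504693313536, 68719476736)] rfl (by decide +kernel)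
end

mutual
theorem A11_c0_t82 : CovD 1 gA11 [(9755426816, 247988224), (171798691840, 34359738368), (3367254360064, 68719476736)] :=
  covD_E kA11_eq (.n 2 (.n 2 (.l 0) (.l 0)) (.n 2 (.n 0 (.n 0 (.n 0 (.l 0) (.l 0)) (.l 0)) (.n 0 (.l 0) (.l 0))) (.l 1)))
    [(9755426816, 247988224), (171798691840, 34359738368), (3367254360064, 68719476736)] rfl (by decide +kernel)
theorem A11_c0_t83 : CovD 1 gA11 [(9755426816, 247988224), (240518168576, 34359738368), (3367254360064, 68719476736)] :=
  covD_E kA11_eq (.n 2 (.l 0) (.n 0 (.n 2 (.n 0 (.n 1 (.l 0) (.n 0 (.l 0) (.l 0))) (.n 1 (.l 0) (.l 0))) (.l 1)) (.n 0 (.n 2 (.n 0 (.l 0) (.l 0)) (.l 1)) (.n 2 (.l 0) (.l 1)))))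
    [(9755426816, 247988224), (240518168576, 34359738368), (3367254360064, 68719476736)] rfl (by decide +kernel)
end

mutual
theorem A11_c0_t84 : CovD 1 gA11 [(9755426816, 247988224), (206158430208, 68719476736), (3504693313536, 68719476736)] :=
  covD_E kA11_eq (.l 1)
    [(9755426816, 247988224), (206158430208, 68719476736), (3504693313536, 68719476736)] rfl (by decide +kernel)
theorem A11_c0_t88 : CovD 1 gA11 [(10251403264, 247988224), (171798691840, 34359738368), (3367254360064, 68719476736)] :=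
  covD_E kA11_eq (.n 2 (.l 0) (.n 0 (.n 2 (.l 0) (.l 1)) (.n 2 (.l 0) (.l 1))))
    [(10251403264, 247988224), (171798691840, 34359738368), (3367254360064, 68719476736)] rfl (by decide +kernel)
end

mutual
theorem A11_c0_t89 : CovD 1 gA11 [(10251403264, 247988224), (240518168576, 34359738368), (3367254360064, 68719476736)] :=
  covD_E kA11_eq (.n 2 (.l 0) (.n 0 (.n 0 (.n 2 (.l 0) (.l 1)) (.n 2 (.l 0) (.n 1 (.l 1) (.l 1)))) (.n 2 (.l 0) (.n 1 (.n 0 (.l 1) (.l 1)) (.n 2 (.n 2 (.l 0) (.l 1)) (.l 1))))))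
    [(10251403264, 247988224), (240518168576, 34359738368), (3367254360064, 68719476736)] rfl (by decide +kernel)
theorem A11_c0_t90 : CovD 1 gA11 [(10251403264, 247988224), (206158430208, 68719476736), (3504693313536, 68719476736)] :=
  covD_E kA11_eq (.l 1)
    [(10251403264, 247988224), (206158430208, 68719476736), (3504693313536, 68719476736)] rfl (by decide +kernel)
end

mutual
theorem A11_c0_t92 : CovD 1 gA11 [(10747379712, 247988224), (171798691840, 34359738368), (3435973836800, 137438953472)] :=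
  covD_E kA11_eq (.n 2 (.n 2 (.l 0) (.n 2 (.l 0) (.n 0 (.n 0 (.l 1) (.l 1)) (.n 2 (.n 0 (.l 0) (.l 0)) (.l 1))))) (.l 1))
    [(10747379712, 247988224), (171798691840, 34359738368), (3435973836800, 137438953472)] rfl (by decide +kernel)
theorem A11_c0_t93 : CovD 1 gA11 [(10747379712, 247988224), (240518168576, 34359738368), (3435973836800, 137438953472)] :=
  covD_E kA11_eq (.n 2 (.n 2 (.l 0) (.n 0 (.n 2 (.l 0) (.n 2 (.n 0 (.n 1 (.l 1) (.l 0)) (.n 1 (.l 0) (.l 0))) (.l 1))) (.n 2 (.l 0) (.n 1 (.n 2 (.n 0 (.l 0) (.l 0)) (.l 1)) (.n 2 (.l 0) (.l 1)))))) (.l 1))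
    [(10747379712, 247988224), (240518168576, 34359738368), (3435973836800, 137438953472)] rfl (by decide +kernel)
end

mutual
theorem A11_c0_t94 : CovD 1 gA11 [(10003415040, 991952896), (137438953472, 137438953472), (3710851743744, 137438953472)] :=
  covD_E kA11_eq (.l 1)
    [(10003415040, 991952896), (137438953472, 137438953472), (3710851743744, 137438953472)] rfl (by decide +kernel)
theorem A11_c0_t95 : CovD 1 gA11 [(10003415040, 991952896), (137438953472, 137438953472), (4123168604160, 274877906944)] :=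
  covD_E kA11_eq (.l 1)
    [(10003415040, 991952896), (137438953472, 137438953472), (4123168604160, 274877906944)] rfl (by decide +kernel)
end

mutual
theorem A11_c0_t96 : CovD 1 gA11 [(10003415040, 991952896), (137438953472, 137438953472), (6597069766656, 2199023255552)] :=
  covD_E kA11_eq (.n 2 (.n 2 (.l 1) (.l 1)) (.n 2 (.l 1) (.l 1)))
    [(10003415040, 991952896), (137438953472, 137438953472), (6597069766656, 2199023255552)] rfl (by decide +kernel)
theorem B11_c0 : CovD 1 gB11 [(10003415040, 991952896), (137438953472, 137438953472), (68719476736, 68719476736)] :=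
  covD_E kB11_eq (.n 2 (.n 2 (.n 2 (.n 0 (.n 2 (.l 1) (.l 1)) (.n 2 (.l 1) (.l 1))) (.n 2 (.n 0 (.l 1) (.l 1)) (.l 1))) (.n 2 (.n 2 (.l 1) (.l 1)) (.n 0 (.l 1) (.l 1)))) (.n 2 (.n 2 (.n 0 (.l 1) (.l 1)) (.l 1)) (.n 2 (.l 1) (.l 1))))
    [(10003415040, 991952896), (137438953472, 137438953472), (68719476736, 68719476736)] rfl (by decide +kernel)
end

mutual
theorem C11_c0_t4 : CovD 1 gC11 [(10003415040, 991952896), (17179869184, 17179869184), (274877906944, 274877906944)] :=
  covD_E kC11_eq (.n 2 (.n 2 (.l 0) (.l 0)) (.n 2 (.l 0) (.l 0)))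
    [(10003415040, 991952896), (17179869184, 17179869184), (274877906944, 274877906944)] rfl (by decide +kernel)
theorem C11_c0_t5 : CovD 1 gC11 [(10003415040, 991952896), (17179869184, 17179869184), (824633720832, 274877906944)] :=
  covD_E kC11_eq (.n 1 (.n 1 (.n 2 (.l 0) (.n 2 (.l 0) (.n 2 (.l 0) (.n 2 (.l 0) (.n 2 (.l 0) (.n 2 (.l 0) (.n 2 (.l 0) (.l 1)))))))) (.n 2 (.l 0) (.l 0))) (.n 2 (.l 0) (.n 0 (.l 0) (.l 0))))
    [(10003415040, 991952896), (17179869184, 17179869184), (824633720832, 274877906944)] rfl (by decide +kernel)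
end

mutual
theorem C11_c0_t6 : CovD 1 gC11 [(10003415040, 991952896), (51539607552, 17179869184), (549755813888, 549755813888)] :=
  covD_E kC11_eq (.n 2 (.n 2 (.l 0) (.l 0)) (.n 2 (.l 0) (.n 0 (.l 0) (.l 0))))
    [(10003415040, 991952896), (51539607552, 17179869184), (549755813888, 549755813888)] rfl (by decide +kernel)
theorem C11_c0_t7 : CovD 1 gC11 [(10003415040, 991952896), (103079215104, 34359738368), (549755813888, 549755813888)] :=
  covD_E kC11_eq (.n 2 (.n 2 (.l 0) (.l 0)) (.n 2 (.l 0) (.l 0)))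
    [(10003415040, 991952896), (103079215104, 34359738368), (549755813888, 549755813888)] rfl (by decide +kernel)
end

mutual
theorem C11_c0_t8 : CovD 1 gC11 [(10003415040, 991952896), (206158430208, 68719476736), (549755813888, 549755813888)] :=
  covD_E kC11_eq (.n 2 (.n 2 (.l 0) (.l 0)) (.n 2 (.l 0) (.l 0)))
    [(10003415040, 991952896), (206158430208, 68719476736), (549755813888, 549755813888)] rfl (by decide +kernel)
theorem D11_c0_t1 : CovD 1 gD11 [(10003415040, 991952896), (137438953472, 137438953472), (431805169664, 431805169664)] :=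
  covD_E kD11_eq (.n 2 (.n 2 (.n 2 (.l 0) (.l 0)) (.n 2 (.l 0) (.l 0))) (.n 2 (.n 2 (.l 0) (.l 0)) (.n 2 (.l 0) (.l 0))))
    [(10003415040, 991952896), (137438953472, 137438953472), (431805169664, 431805169664)] rfl (by decide +kernel)
end

theorem D11_c0_t2 : CovD 1 gD11 [(10003415040, 991952896), (137438953472, 137438953472), (1295415508992, 431805169664)] :=
  covD_E kD11_eq (.n 2 (.n 2 (.n 2 (.l 0) (.l 0)) (.n 2 (.n 0 (.l 0) (.l 0)) (.n 2 (.l 0) (.l 0)))) (.n 2 (.n 2 (.n 2 (.l 0) (.l 0)) (.n 2 (.l 0) (.l 0))) (.n 2 (.n 2 (.l 0) (.l 0)) (.n 2 (.l 0) (.l 0)))))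
    [(10003415040, 991952896), (137438953472, 137438953472), (1295415508992, 431805169664)] rfl (by decide +kernel)

theorem A11_c0_t6 : CovD 1 gA11 [(10003415040, 991952896), (68719476736, 68719476736), (137438953472, 137438953472)] :=
  covD_split 2 (by decide +kernel) A11_c0_t7 A11_c0_t8

theorem A11_c0_t5 : CovD 1 gA11 [(10003415040, 991952896), (137438953472, 137438953472), (137438953472, 137438953472)] :=
  covD_split 1 (by decide +kernel) A11_c0_t6 A11_c0_t9

theorem A11_c0_t10 : CovD 1 gA11 [(10003415040, 991952896), (137438953472, 137438953472), (412316860416, 137438953472)] :=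
  covD_split 1 (by decide +kernel) A11_c0_t11 A11_c0_t12

theorem A11_c0_t4 : CovD 1 gA11 [(10003415040, 991952896), (137438953472, 137438953472), (274877906944, 274877906944)] :=
  covD_split 2 (by decide +kernel) A11_c0_t5 A11_c0_t10

theorem A11_c0_t3 : CovD 1 gA11 [(10003415040, 991952896), (137438953472, 137438953472), (549755813888, 549755813888)] :=
  covD_split 2 (by decide +kernel) A11_c0_t4 A11_c0_t13

theorem A11_c0_t14 : CovD 1 gA11 [(10003415040, 991952896), (137438953472, 137438953472), (1649267441664, 549755813888)] :=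
  covD_split 2 (by decide +kernel) A11_c0_t15 A11_c0_t16

theorem A11_c0_t2 : CovD 1 gA11 [(10003415040, 991952896), (137438953472, 137438953472), (1099511627776, 1099511627776)] :=
  covD_split 2 (by decide +kernel) A11_c0_t3 A11_c0_t14

theorem A11_c0_t21 : CovD 1 gA11 [(10003415040, 991952896), (137438953472, 137438953472), (2611340115968, 137438953472)] :=
  covD_split 0 (by decide +kernel) A11_c0_t22 A11_c0_t23

theorem A11_c0_t19 : CovD 1 gA11 [(10003415040, 991952896), (137438953472, 137438953472), (2473901162496, 274877906944)] :=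
  covD_split 2 (by decide +kernel) A11_c0_t20 A11_c0_t21

theorem A11_c0_t26 : CovD 1 gA11 [(9507438592, 495976448), (137438953472, 137438953472), (2886218022912, 137438953472)] :=
  covD_split 1 (by decide +kernel) A11_c0_t27 A11_c0_t28

theorem A11_c0_t29 : CovD 1 gA11 [(10499391488, 495976448), (137438953472, 137438953472), (2886218022912, 137438953472)] :=
  covD_split 1 (by decide +kernel) A11_c0_t30 A11_c0_t31

theorem A11_c0_t25 : CovD 1 gA11 [(10003415040, 991952896), (137438953472, 137438953472), (2886218022912, 137438953472)] :=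
  covD_split 0 (by decide +kernel) A11_c0_t26 A11_c0_t29

theorem A11_c0_t38 : CovD 1 gA11 [(9259450368, 247988224), (34359738368, 34359738368), (3229815406592, 68719476736)] :=
  covD_split 1 (by decide +kernel) A11_c0_t39 A11_c0_t40

theorem A11_c0_t37 : CovD 1 gA11 [(9507438592, 495976448), (34359738368, 34359738368), (3229815406592, 68719476736)] :=
  covD_split 0 (by decide +kernel) A11_c0_t38 A11_c0_t41

theorem A11_c0_t35 : CovD 1 gA11 [(9507438592, 495976448), (34359738368, 34359738368), (3161095929856, 137438953472)] :=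
  covD_split 2 (by decide +kernel) A11_c0_t36 A11_c0_t37

theorem A11_c0_t43 : CovD 1 gA11 [(9259450368, 247988224), (103079215104, 34359738368), (3161095929856, 137438953472)] :=
  covD_split 2 (by decide +kernel) A11_c0_t44 A11_c0_t45

theorem A11_c0_t42 : CovD 1 gA11 [(9507438592, 495976448), (103079215104, 34359738368), (3161095929856, 137438953472)] :=
  covD_split 0 (by decide +kernel) A11_c0_t43 A11_c0_t46

theorem A11_c0_t34 : CovD 1 gA11 [(9507438592, 495976448), (68719476736, 68719476736), (3161095929856, 137438953472)] :=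
  covD_split 1 (by decide +kernel) A11_c0_t35 A11_c0_t42

theorem A11_c0_t48 : CovD 1 gA11 [(9507438592, 495976448), (171798691840, 34359738368), (3161095929856, 137438953472)] :=
  covD_split 2 (by decide +kernel) A11_c0_t49 A11_c0_t50

theorem A11_c0_t47 : CovD 1 gA11 [(9507438592, 495976448), (206158430208, 68719476736), (3161095929856, 137438953472)] :=
  covD_split 1 (by decide +kernel) A11_c0_t48 A11_c0_t51

theorem A11_c0_t33 : CovD 1 gA11 [(9507438592, 495976448), (137438953472, 137438953472), (3161095929856, 137438953472)] :=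
  covD_split 1 (by decide +kernel) A11_c0_t34 A11_c0_t47

theorem A11_c0_t53 : CovD 1 gA11 [(10499391488, 495976448), (68719476736, 68719476736), (3161095929856, 137438953472)] :=
  covD_split 1 (by decide +kernel) A11_c0_t54 A11_c0_t55

theorem A11_c0_t56 : CovD 1 gA11 [(10499391488, 495976448), (206158430208, 68719476736), (3161095929856, 137438953472)] :=
  covD_split 1 (by decide +kernel) A11_c0_t57 A11_c0_t58

theorem A11_c0_t52 : CovD 1 gA11 [(10499391488, 495976448), (137438953472, 137438953472), (3161095929856, 137438953472)] :=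
  covD_split 1 (by decide +kernel) A11_c0_t53 A11_c0_t56

theorem A11_c0_t32 : CovD 1 gA11 [(10003415040, 991952896), (137438953472, 137438953472), (3161095929856, 137438953472)] :=
  covD_split 0 (by decide +kernel) A11_c0_t33 A11_c0_t52

theorem A11_c0_t24 : CovD 1 gA11 [(10003415040, 991952896), (137438953472, 137438953472), (3023656976384, 274877906944)] :=
  covD_split 2 (by decide +kernel) A11_c0_t25 A11_c0_t32

theorem A11_c0_t18 : CovD 1 gA11 [(10003415040, 991952896), (137438953472, 137438953472), (2748779069440, 549755813888)] :=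
  covD_split 2 (by decide +kernel) A11_c0_t19 A11_c0_t24

theorem A11_c0_t66 : CovD 1 gA11 [(9259450368, 247988224), (68719476736, 68719476736), (3332894621696, 34359738368)] :=
  covD_split 1 (by decide +kernel) A11_c0_t67 A11_c0_t68

theorem A11_c0_t65 : CovD 1 gA11 [(9259450368, 247988224), (68719476736, 68719476736), (3367254360064, 68719476736)] :=
  covD_split 2 (by decide +kernel) A11_c0_t66 A11_c0_t69

theorem A11_c0_t64 : CovD 1 gA11 [(9507438592, 495976448), (68719476736, 68719476736), (3367254360064, 68719476736)] :=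
  covD_split 0 (by decide +kernel) A11_c0_t65 A11_c0_t70

theorem A11_c0_t63 : CovD 1 gA11 [(9507438592, 495976448), (68719476736, 68719476736), (3435973836800, 137438953472)] :=
  covD_split 2 (by decide +kernel) A11_c0_t64 A11_c0_t71

theorem A11_c0_t62 : CovD 1 gA11 [(10003415040, 991952896), (68719476736, 68719476736), (3435973836800, 137438953472)] :=
  covD_split 0 (by decide +kernel) A11_c0_t63 A11_c0_t72

theorem A11_c0_t76 : CovD 1 gA11 [(9259450368, 247988224), (206158430208, 68719476736), (3367254360064, 68719476736)] :=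
  covD_split 2 (by decide +kernel) A11_c0_t77 A11_c0_t78

theorem A11_c0_t75 : CovD 1 gA11 [(9259450368, 247988224), (206158430208, 68719476736), (3435973836800, 137438953472)] :=
  covD_split 2 (by decide +kernel) A11_c0_t76 A11_c0_t79

theorem A11_c0_t81 : CovD 1 gA11 [(9755426816, 247988224), (206158430208, 68719476736), (3367254360064, 68719476736)] :=
  covD_split 1 (by decide +kernel) A11_c0_t82 A11_c0_t83

theorem A11_c0_t80 : CovD 1 gA11 [(9755426816, 247988224), (206158430208, 68719476736), (3435973836800, 137438953472)] :=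
  covD_split 2 (by decide +kernel) A11_c0_t81 A11_c0_t84

theorem A11_c0_t74 : CovD 1 gA11 [(9507438592, 495976448), (206158430208, 68719476736), (3435973836800, 137438953472)] :=
  covD_split 0 (by decide +kernel) A11_c0_t75 A11_c0_t80

theorem A11_c0_t87 : CovD 1 gA11 [(10251403264, 247988224), (206158430208, 68719476736), (3367254360064, 68719476736)] :=
  covD_split 1 (by decide +kernel) A11_c0_t88 A11_c0_t89

theorem A11_c0_t86 : CovD 1 gA11 [(10251403264, 247988224), (206158430208, 68719476736), (3435973836800, 137438953472)] :=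
  covD_split 2 (by decide +kernel) A11_c0_t87 A11_c0_t90

theorem A11_c0_t91 : CovD 1 gA11 [(10747379712, 247988224), (206158430208, 68719476736), (3435973836800, 137438953472)] :=
  covD_split 1 (by decide +kernel) A11_c0_t92 A11_c0_t93

theorem A11_c0_t85 : CovD 1 gA11 [(10499391488, 495976448), (206158430208, 68719476736), (3435973836800, 137438953472)] :=
  covD_split 0 (by decide +kernel) A11_c0_t86 A11_c0_t91

theorem A11_c0_t73 : CovD 1 gA11 [(10003415040, 991952896), (206158430208, 68719476736), (3435973836800, 137438953472)] :=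
  covD_split 0 (by decide +kernel) A11_c0_t74 A11_c0_t85

theorem A11_c0_t61 : CovD 1 gA11 [(10003415040, 991952896), (137438953472, 137438953472), (3435973836800, 137438953472)] :=
  covD_split 1 (by decide +kernel) A11_c0_t62 A11_c0_t73

theorem A11_c0_t60 : CovD 1 gA11 [(10003415040, 991952896), (137438953472, 137438953472), (3573412790272, 274877906944)] :=
  covD_split 2 (by decide +kernel) A11_c0_t61 A11_c0_t94

theorem A11_c0_t59 : CovD 1 gA11 [(10003415040, 991952896), (137438953472, 137438953472), (3848290697216, 549755813888)] :=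
  covD_split 2 (by decide +kernel) A11_c0_t60 A11_c0_t95

theorem A11_c0_t17 : CovD 1 gA11 [(10003415040, 991952896), (137438953472, 137438953472), (3298534883328, 1099511627776)] :=
  covD_split 2 (by decide +kernel) A11_c0_t18 A11_c0_t59

theorem A11_c0_t1 : CovD 1 gA11 [(10003415040, 991952896), (137438953472, 137438953472), (2199023255552, 2199023255552)] :=
  covD_split 2 (by decide +kernel) A11_c0_t2 A11_c0_t17

theorem A11_c0 : CovD 1 gA11 [(10003415040, 991952896), (137438953472, 137438953472), (4398046511104, 4398046511104)] :=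
  covD_split 2 (by decide +kernel) A11_c0_t1 A11_c0_t96

theorem C11_c0_t3 : CovD 1 gC11 [(10003415040, 991952896), (17179869184, 17179869184), (549755813888, 549755813888)] :=
  covD_split 2 (by decide +kernel) C11_c0_t4 C11_c0_t5

theorem C11_c0_t2 : CovD 1 gC11 [(10003415040, 991952896), (34359738368, 34359738368), (549755813888, 549755813888)] :=
  covD_split 1 (by decide +kernel) C11_c0_t3 C11_c0_t6

theorem C11_c0_t1 : CovD 1 gC11 [(10003415040, 991952896), (68719476736, 68719476736), (549755813888, 549755813888)] :=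
  covD_split 1 (by decide +kernel) C11_c0_t2 C11_c0_t7

theorem C11_c0 : CovD 1 gC11 [(10003415040, 991952896), (137438953472, 137438953472), (549755813888, 549755813888)] :=
  covD_split 1 (by decide +kernel) C11_c0_t1 C11_c0_t8

theorem D11_c0 : CovD 1 gD11 [(10003415040, 991952896), (137438953472, 137438953472), (863610339328, 863610339328)] :=
  covD_split 2 (by decide +kernel) D11_c0_t1 D11_c0_t2

end Pool.Agent.helper14.NS.Q100a
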