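import Pool.Agent.helper14.NS.Q100a.PN11

/-!
Generated: certificates.
-/

namespace Pool.Agent.helper14.NS.Q100a

open Pool.Agent.helper31.IA (Z)
open Pool.Agent.helper31.IX (Op XOps runX Cov CovD cov_split covD_split)
open Pool.Agent.helper31.IC (TD)
open Pool.Agent.helper63.RG (reloc)
open Pool.Agent.helper63.NF hiding TD
open Pool.Agent.helper4.NS
open Pool.Agent.helper14.CF (xE covD_E)
open Pool.Agent.helper14.NR (share)

mutual
theorem E11_c0_t3 : CovD 1 gE11 [(10003415040, 991952896), (137438953472, 137438953472), (107951292416, 107951292416)] :=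
  covD_E kE11_eq (.l 1)
    [(10003415040, 991952896), (137438953472, 137438953472), (107951292416, 107951292416)] rfl (by decide +kernel)
theorem E11_c0_t5 : CovD 1 gE11 [(10003415040, 991952896), (137438953472, 137438953472), (269878231040, 53975646208)] :=
  covD_E kE11_eq (.l 1)
    [(10003415040, 991952896), (137438953472, 137438953472), (269878231040, 53975646208)] rfl (by decide +kernel)
end

mutual
theorem E11_c0_t11 : CovD 1 gE11 [(9135456256, 123994112), (68719476736, 68719476736), (350841700352, 26987823104)] :=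
  covD_E kE11_eq (.n 2 (.l 1) (.n 1 (.n 0 (.n 2 (.n 2 (.l 1) (.n 1 (.n 2 (.l 1) (.l 0)) (.l 0))) (.l 0)) (.n 2 (.l 1) (.l 0))) (.n 2 (.n 2 (.l 1) (.n 1 (.l 0) (.l 0))) (.l 0))))
    [(9135456256, 123994112), (68719476736, 68719476736), (350841700352, 26987823104)] rfl (by decide +kernel)
theorem E11_c0_t12 : CovD 1 gE11 [(9383444480, 123994112), (68719476736, 68719476736), (350841700352, 26987823104)] :=
  covD_E kE11_eq (.n 2 (.l 1) (.n 2 (.l 1) (.n 1 (.n 2 (.l 1) (.l 0)) (.l 0))))
    [(9383444480, 123994112), (68719476736, 68719476736), (350841700352, 26987823104)] rfl (by decide +kernel)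
end

mutual
theorem E11_c0_t13 : CovD 1 gE11 [(9755426816, 247988224), (68719476736, 68719476736), (350841700352, 26987823104)] :=
  covD_E kE11_eq (.n 1 (.l 1) (.l 1))
    [(9755426816, 247988224), (68719476736, 68719476736), (350841700352, 26987823104)] rfl (by decide +kernel)
theorem E11_c0_t14 : CovD 1 gE11 [(9507438592, 495976448), (68719476736, 68719476736), (404817346560, 26987823104)] :=
  covD_E kE11_eq (.n 2 (.n 0 (.n 0 (.l 0) (.l 0)) (.n 1 (.l 0) (.l 0))) (.l 0))
    [(9507438592, 495976448), (68719476736, 68719476736), (404817346560, 26987823104)] rfl (by decide +kernel)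
end

mutual
theorem E11_c0_t15 : CovD 1 gE11 [(9507438592, 495976448), (206158430208, 68719476736), (377829523456, 53975646208)] :=
  covD_E kE11_eq (.n 2 (.n 1 (.n 0 (.n 2 (.l 1) (.n 0 (.n 1 (.l 0) (.l 0)) (.n 2 (.l 1) (.l 0)))) (.n 1 (.l 1) (.l 1))) (.n 0 (.n 2 (.l 1) (.l 0)) (.n 1 (.l 1) (.l 1)))) (.n 2 (.n 0 (.l 0) (.l 0)) (.l 0)))
    [(9507438592, 495976448), (206158430208, 68719476736), (377829523456, 53975646208)] rfl (by decide +kernel)
theorem E11_c0_t16 : CovD 1 gE11 [(10499391488, 495976448), (137438953472, 137438953472), (377829523456, 53975646208)] :=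
  covD_E kE11_eq (.n 2 (.l 1) (.n 1 (.n 0 (.n 2 (.n 0 (.n 2 (.l 1) (.l 0)) (.l 1)) (.l 0)) (.n 2 (.l 1) (.l 0))) (.n 2 (.n 0 (.n 1 (.n 0 (.l 0) (.l 1)) (.l 0)) (.l 1)) (.n 1 (.l 0) (.l 0)))))
    [(10499391488, 495976448), (137438953472, 137438953472), (377829523456, 53975646208)] rfl (by decide +kernel)
end

mutual
theorem E11_c0_t18 : CovD 1 gE11 [(10003415040, 991952896), (137438953472, 137438953472), (539756462080, 107951292416)] :=
  covD_E kE11_eq (.n 2 (.n 2 (.n 1 (.n 2 (.n 0 (.l 0) (.l 0)) (.l 0)) (.n 2 (.n 0 (.l 0) (.l 0)) (.l 0))) (.n 0 (.n 2 (.l 0) (.l 0)) (.n 2 (.l 0) (.l 0)))) (.n 2 (.n 2 (.l 0) (.l 0)) (.n 2 (.l 0) (.l 0))))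
    [(10003415040, 991952896), (137438953472, 137438953472), (539756462080, 107951292416)] rfl (by decide +kernel)
theorem E11_c0_t19 : CovD 1 gE11 [(10003415040, 991952896), (137438953472, 137438953472), (755659046912, 107951292416)] :=
  covD_E kE11_eq (.n 2 (.n 2 (.n 2 (.l 0) (.l 0)) (.n 2 (.l 0) (.l 0))) (.n 2 (.n 2 (.l 0) (.l 0)) (.n 0 (.l 0) (.l 0))))
    [(10003415040, 991952896), (137438953472, 137438953472), (755659046912, 107951292416)] rfl (by decide +kernel)
end

mutual
theorem E11_c0_t21 : CovD 1 gE11 [(10003415040, 991952896), (137438953472, 137438953472), (1079512924160, 215902584832)] :=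
  covD_E kE11_eq (.n 2 (.n 2 (.n 2 (.n 0 (.l 0) (.l 0)) (.l 0)) (.n 2 (.l 0) (.l 0))) (.n 2 (.n 2 (.l 0) (.l 0)) (.n 2 (.l 0) (.l 0))))
    [(10003415040, 991952896), (137438953472, 137438953472), (1079512924160, 215902584832)] rfl (by decide +kernel)
theorem E11_c0_t22 : CovD 1 gE11 [(10003415040, 991952896), (137438953472, 137438953472), (1511318093824, 215902584832)] :=
  covD_E kE11_eq (.n 2 (.n 2 (.n 2 (.l 0) (.l 0)) (.n 2 (.l 0) (.l 0))) (.n 2 (.n 2 (.l 0) (.l 0)) (.n 2 (.l 0) (.l 0))))
    [(10003415040, 991952896), (137438953472, 137438953472), (1511318093824, 215902584832)] rfl (by decide +kernel)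
end

theorem E11_c0_t10 : CovD 1 gE11 [(9259450368, 247988224), (68719476736, 68719476736), (350841700352, 26987823104)] :=
  covD_split 0 (by decide +kernel) E11_c0_t11 E11_c0_t12

theorem E11_c0_t9 : CovD 1 gE11 [(9507438592, 495976448), (68719476736, 68719476736), (350841700352, 26987823104)] :=
  covD_split 0 (by decide +kernel) E11_c0_t10 E11_c0_t13

theorem E11_c0_t8 : CovD 1 gE11 [(9507438592, 495976448), (68719476736, 68719476736), (377829523456, 53975646208)] :=
  covD_split 2 (by decide +kernel) E11_c0_t9 E11_c0_t14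

theorem E11_c0_t7 : CovD 1 gE11 [(9507438592, 495976448), (137438953472, 137438953472), (377829523456, 53975646208)] :=
  covD_split 1 (by decide +kernel) E11_c0_t8 E11_c0_t15

theorem E11_c0_t6 : CovD 1 gE11 [(10003415040, 991952896), (137438953472, 137438953472), (377829523456, 53975646208)] :=
  covD_split 0 (by decide +kernel) E11_c0_t7 E11_c0_t16

theorem E11_c0_t4 : CovD 1 gE11 [(10003415040, 991952896), (137438953472, 137438953472), (323853877248, 107951292416)] :=
  covD_split 2 (by decide +kernel) E11_c0_t5 E11_c0_t6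

theorem E11_c0_t2 : CovD 1 gE11 [(10003415040, 991952896), (137438953472, 137438953472), (215902584832, 215902584832)] :=
  covD_split 2 (by decide +kernel) E11_c0_t3 E11_c0_t4

theorem E11_c0_t17 : CovD 1 gE11 [(10003415040, 991952896), (137438953472, 137438953472), (647707754496, 215902584832)] :=
  covD_split 2 (by decide +kernel) E11_c0_t18 E11_c0_t19

theorem E11_c0_t1 : CovD 1 gE11 [(10003415040, 991952896), (137438953472, 137438953472), (431805169664, 431805169664)] :=
  covD_split 2 (by decide +kernel) E11_c0_t2 E11_c0_t17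

theorem E11_c0_t20 : CovD 1 gE11 [(10003415040, 991952896), (137438953472, 137438953472), (1295415508992, 431805169664)] :=
  covD_split 2 (by decide +kernel) E11_c0_t21 E11_c0_t22

theorem E11_c0 : CovD 1 gE11 [(10003415040, 991952896), (137438953472, 137438953472), (863610339328, 863610339328)] :=
  covD_split 2 (by decide +kernel) E11_c0_t1 E11_c0_t20

end Pool.Agent.helper14.NS.Q100a
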