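import Pool.Agent.helper14.NS.Q100a.PZ

/-!
Generated: certificates.
-/

namespace Pool.Agent.helper14.NS.Q100a

open Pool.Agent.helper31.IA (Z)
open Pool.Agent.helper31.IX (Op XOps runX Cov CovD cov_split covD_split)
open Pool.Agent.helper31.IC (TD)
open Pool.Agent.helper63.RG (reloc)
open Pool.Agent.helper63.NF hiding TD
open Pool.Agent.helper4.NS
open Pool.Agent.helper14.CF (xE covD_E)
open Pool.Agent.helper14.NR (share)

mutual
theorem Z_c0_t4 : CovD 1 gZ [(10003415040, 991952896), (34359738368, 34359738368), (168361984000, 113387241472)] :=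
  covD_E kZ_eq (.n 2 (.n 2 (.n 1 (.n 2 (.n 2 (.l 0) (.l 0)) (.l 0)) (.n 2 (.n 0 (.l 0) (.l 0)) (.l 0))) (.n 2 (.n 0 (.l 0) (.l 0)) (.l 0))) (.n 1 (.n 2 (.l 0) (.l 0)) (.n 2 (.l 0) (.l 0))))
    [(10003415040, 991952896), (34359738368, 34359738368), (168361984000, 113387241472)] rfl (by decide +kernel)
theorem Z_c0_t5 : CovD 1 gZ [(10003415040, 991952896), (34359738368, 34359738368), (395136466944, 113387241472)] :=
  covD_E kZ_eq (.n 2 (.n 2 (.n 1 (.l 0) (.l 0)) (.n 2 (.l 0) (.l 0))) (.n 1 (.n 2 (.n 2 (.l 0) (.l 0)) (.n 2 (.l 0) (.n 0 (.l 0) (.l 0)))) (.n 2 (.n 2 (.l 0) (.l 0)) (.n 2 (.l 0) (.l 0)))))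
    [(10003415040, 991952896), (34359738368, 34359738368), (395136466944, 113387241472)] rfl (by decide +kernel)
end

mutual
theorem Z_c0_t8 : CovD 1 gZ [(10003415040, 991952896), (17179869184, 17179869184), (621910949888, 113387241472)] :=
  covD_E kZ_eq (.n 2 (.n 0 (.n 2 (.n 2 (.l 0) (.l 0)) (.n 2 (.l 0) (.l 0))) (.n 2 (.n 2 (.l 0) (.l 0)) (.n 2 (.l 0) (.l 0)))) (.n 2 (.n 0 (.n 2 (.l 0) (.l 0)) (.n 2 (.l 0) (.l 0))) (.n 2 (.n 2 (.l 0) (.l 0)) (.n 2 (.l 0) (.l 0)))))
    [(10003415040, 991952896), (17179869184, 17179869184), (621910949888, 113387241472)] rfl (by decide +kernel)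
theorem Z_c0_t9 : CovD 1 gZ [(10003415040, 991952896), (51539607552, 17179869184), (621910949888, 113387241472)] :=
  covD_E kZ_eq (.n 2 (.n 2 (.n 2 (.l 0) (.l 0)) (.n 2 (.l 0) (.l 0))) (.n 2 (.n 2 (.l 0) (.l 0)) (.n 2 (.l 0) (.l 0))))
    [(10003415040, 991952896), (51539607552, 17179869184), (621910949888, 113387241472)] rfl (by decide +kernel)
end

mutual
theorem Z_c0_t11 : CovD 1 gZ [(10003415040, 991952896), (34359738368, 34359738368), (791991812096, 56693620736)] :=
  covD_E kZ_eq (.n 0 (.n 1 (.n 2 (.n 2 (.l 0) (.l 0)) (.n 2 (.l 0) (.l 0))) (.n 2 (.n 2 (.l 0) (.l 0)) (.n 2 (.l 0) (.l 0)))) (.n 2 (.n 2 (.l 0) (.l 0)) (.n 2 (.l 0) (.l 0))))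
    [(10003415040, 991952896), (34359738368, 34359738368), (791991812096, 56693620736)] rfl (by decide +kernel)
theorem Z_c0_t12 : CovD 1 gZ [(10003415040, 991952896), (34359738368, 34359738368), (905379053568, 56693620736)] :=
  covD_E kZ_eq (.n 2 (.n 0 (.n 0 (.n 2 (.l 0) (.l 0)) (.n 2 (.l 0) (.l 0))) (.n 2 (.l 0) (.l 0))) (.n 2 (.n 0 (.l 0) (.l 0)) (.n 1 (.n 0 (.l 0) (.l 0)) (.l 0))))
    [(10003415040, 991952896), (34359738368, 34359738368), (905379053568, 56693620736)] rfl (by decide +kernel)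
end

mutual
theorem Z_c0_t15 : CovD 1 gZ [(10003415040, 991952896), (103079215104, 34359738368), (168361984000, 113387241472)] :=
  covD_E kZ_eq (.n 1 (.n 2 (.n 2 (.n 2 (.l 0) (.l 0)) (.l 0)) (.n 2 (.l 0) (.l 0))) (.n 2 (.n 2 (.n 1 (.l 0) (.l 0)) (.l 0)) (.n 2 (.l 0) (.l 0))))
    [(10003415040, 991952896), (103079215104, 34359738368), (168361984000, 113387241472)] rfl (by decide +kernel)
theorem Z_c0_t16 : CovD 1 gZ [(10003415040, 991952896), (103079215104, 34359738368), (395136466944, 113387241472)] :=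
  covD_E kZ_eq (.n 2 (.n 2 (.n 1 (.l 0) (.l 0)) (.n 2 (.l 0) (.l 0))) (.n 2 (.n 2 (.l 0) (.n 0 (.l 0) (.l 0))) (.n 0 (.n 2 (.l 0) (.l 0)) (.n 2 (.l 0) (.l 0)))))
    [(10003415040, 991952896), (103079215104, 34359738368), (395136466944, 113387241472)] rfl (by decide +kernel)
end

mutual
theorem Z_c0_t18 : CovD 1 gZ [(10003415040, 991952896), (103079215104, 34359738368), (621910949888, 113387241472)] :=
  covD_E kZ_eq (.n 0 (.n 2 (.n 2 (.n 2 (.l 0) (.l 0)) (.n 2 (.l 0) (.l 0))) (.n 2 (.n 2 (.l 0) (.l 0)) (.n 2 (.l 0) (.l 0)))) (.n 2 (.n 2 (.n 2 (.l 0) (.l 0)) (.n 2 (.l 0) (.l 0))) (.n 2 (.n 2 (.l 0) (.l 0)) (.n 2 (.l 0) (.l 0)))))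
    [(10003415040, 991952896), (103079215104, 34359738368), (621910949888, 113387241472)] rfl (by decide +kernel)
theorem Z_c0_t19 : CovD 1 gZ [(10003415040, 991952896), (103079215104, 34359738368), (848685432832, 113387241472)] :=
  covD_E kZ_eq (.n 2 (.n 2 (.n 2 (.n 0 (.l 0) (.l 0)) (.l 0)) (.n 2 (.l 0) (.n 0 (.l 0) (.l 0)))) (.n 0 (.n 2 (.n 2 (.l 0) (.l 0)) (.n 2 (.l 0) (.l 0))) (.n 2 (.n 2 (.l 0) (.l 0)) (.n 2 (.l 0) (.l 0)))))
    [(10003415040, 991952896), (103079215104, 34359738368), (848685432832, 113387241472)] rfl (by decide +kernel)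
end

mutual
theorem Z_c0_t23 : CovD 1 gZ [(10003415040, 991952896), (171798691840, 34359738368), (168361984000, 113387241472)] :=
  covD_E kZ_eq (.n 1 (.n 2 (.n 2 (.n 1 (.l 0) (.l 0)) (.l 0)) (.n 2 (.l 0) (.l 0))) (.n 2 (.n 2 (.n 1 (.l 0) (.l 0)) (.l 0)) (.n 2 (.l 0) (.l 0))))
    [(10003415040, 991952896), (171798691840, 34359738368), (168361984000, 113387241472)] rfl (by decide +kernel)
theorem Z_c0_t24 : CovD 1 gZ [(10003415040, 991952896), (171798691840, 34359738368), (395136466944, 113387241472)] :=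
  covD_E kZ_eq (.n 2 (.n 2 (.n 2 (.l 0) (.l 0)) (.n 2 (.l 0) (.n 0 (.l 0) (.l 0)))) (.n 0 (.n 2 (.n 2 (.l 0) (.l 0)) (.n 2 (.l 0) (.l 0))) (.n 2 (.n 2 (.l 0) (.l 0)) (.n 2 (.l 0) (.l 0)))))
    [(10003415040, 991952896), (171798691840, 34359738368), (395136466944, 113387241472)] rfl (by decide +kernel)
end

mutual
theorem Z_c0_t26 : CovD 1 gZ [(10003415040, 991952896), (171798691840, 34359738368), (621910949888, 113387241472)] :=
  covD_E kZ_eq (.n 0 (.n 2 (.n 2 (.n 2 (.l 0) (.l 0)) (.n 2 (.l 0) (.l 0))) (.n 2 (.n 2 (.l 0) (.l 0)) (.n 2 (.l 0) (.l 0)))) (.n 2 (.n 2 (.n 2 (.l 0) (.l 0)) (.n 1 (.l 0) (.l 0))) (.n 1 (.n 2 (.l 0) (.l 0)) (.n 2 (.l 0) (.l 0)))))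
    [(10003415040, 991952896), (171798691840, 34359738368), (621910949888, 113387241472)] rfl (by decide +kernel)
theorem Z_c0_t27 : CovD 1 gZ [(10003415040, 991952896), (171798691840, 34359738368), (848685432832, 113387241472)] :=
  covD_E kZ_eq (.n 2 (.n 2 (.n 2 (.l 0) (.l 0)) (.n 2 (.l 0) (.l 0))) (.n 0 (.n 2 (.n 2 (.l 0) (.l 0)) (.n 2 (.l 0) (.l 0))) (.n 2 (.n 2 (.l 0) (.l 0)) (.n 2 (.l 0) (.l 0)))))
    [(10003415040, 991952896), (171798691840, 34359738368), (848685432832, 113387241472)] rfl (by decide +kernel)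
end

mutual
theorem Z_c0_t30 : CovD 1 gZ [(10003415040, 991952896), (240518168576, 34359738368), (168361984000, 113387241472)] :=
  covD_E kZ_eq (.n 1 (.n 2 (.n 2 (.n 1 (.l 0) (.l 0)) (.l 0)) (.n 2 (.l 0) (.l 0))) (.n 2 (.n 2 (.n 1 (.l 0) (.l 0)) (.l 0)) (.n 2 (.l 0) (.l 0))))
    [(10003415040, 991952896), (240518168576, 34359738368), (168361984000, 113387241472)] rfl (by decide +kernel)
theorem Z_c0_t31 : CovD 1 gZ [(10003415040, 991952896), (240518168576, 34359738368), (395136466944, 113387241472)] :=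
  covD_E kZ_eq (.n 2 (.n 2 (.n 1 (.l 0) (.l 0)) (.n 2 (.l 0) (.l 0))) (.n 2 (.n 2 (.l 0) (.l 0)) (.n 2 (.l 0) (.l 0))))
    [(10003415040, 991952896), (240518168576, 34359738368), (395136466944, 113387241472)] rfl (by decide +kernel)
end

mutual
theorem Z_c0_t33 : CovD 1 gZ [(10003415040, 991952896), (240518168576, 34359738368), (621910949888, 113387241472)] :=
  covD_E kZ_eq (.n 2 (.n 2 (.n 2 (.l 0) (.l 0)) (.n 2 (.l 0) (.l 0))) (.n 2 (.n 2 (.l 0) (.l 0)) (.n 2 (.l 0) (.l 0))))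
    [(10003415040, 991952896), (240518168576, 34359738368), (621910949888, 113387241472)] rfl (by decide +kernel)
theorem Z_c0_t34 : CovD 1 gZ [(10003415040, 991952896), (240518168576, 34359738368), (848685432832, 113387241472)] :=
  covD_E kZ_eq (.n 2 (.n 2 (.n 2 (.l 0) (.l 0)) (.n 2 (.l 0) (.l 0))) (.n 2 (.n 2 (.l 0) (.n 0 (.l 0) (.l 0))) (.n 0 (.n 2 (.l 0) (.l 0)) (.n 2 (.l 0) (.l 0)))))
    [(10003415040, 991952896), (240518168576, 34359738368), (848685432832, 113387241472)] rfl (by decide +kernel)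
end

mutual
theorem T_c0 : CovD 1 gT [(10003415040, 991952896), (137438953472, 137438953472)] :=
  covD_E kT_eq (.n 1 (.l 0) (.n 1 (.l 0) (.l 0)))
    [(10003415040, 991952896), (137438953472, 137438953472)] rfl (by decide +kernel)
theorem S_c0 : CovD 0 gS [(10003415040, 991952896), (137438953472, 137438953472)] :=
  covD_E kS_eq (.n 1 (.l 0) (.n 1 (.l 0) (.l 0)))
    [(10003415040, 991952896), (137438953472, 137438953472)] rfl (by decide +kernel)
end

theorem Z_c0_t3 : CovD 1 gZ [(10003415040, 991952896), (34359738368, 34359738368), (281749225472, 226774482944)] :=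
  covD_split 2 (by decide +kernel) Z_c0_t4 Z_c0_t5

theorem Z_c0_t7 : CovD 1 gZ [(10003415040, 991952896), (34359738368, 34359738368), (621910949888, 113387241472)] :=
  covD_split 1 (by decide +kernel) Z_c0_t8 Z_c0_t9

theorem Z_c0_t10 : CovD 1 gZ [(10003415040, 991952896), (34359738368, 34359738368), (848685432832, 113387241472)] :=
  covD_split 2 (by decide +kernel) Z_c0_t11 Z_c0_t12

theorem Z_c0_t6 : CovD 1 gZ [(10003415040, 991952896), (34359738368, 34359738368), (735298191360, 226774482944)] :=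
  covD_split 2 (by decide +kernel) Z_c0_t7 Z_c0_t10

theorem Z_c0_t2 : CovD 1 gZ [(10003415040, 991952896), (34359738368, 34359738368), (508523708416, 453548965888)] :=
  covD_split 2 (by decide +kernel) Z_c0_t3 Z_c0_t6

theorem Z_c0_t14 : CovD 1 gZ [(10003415040, 991952896), (103079215104, 34359738368), (281749225472, 226774482944)] :=
  covD_split 2 (by decide +kernel) Z_c0_t15 Z_c0_t16

theorem Z_c0_t17 : CovD 1 gZ [(10003415040, 991952896), (103079215104, 34359738368), (735298191360, 226774482944)] :=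
  covD_split 2 (by decide +kernel) Z_c0_t18 Z_c0_t19

theorem Z_c0_t13 : CovD 1 gZ [(10003415040, 991952896), (103079215104, 34359738368), (508523708416, 453548965888)] :=
  covD_split 2 (by decide +kernel) Z_c0_t14 Z_c0_t17

theorem Z_c0_t1 : CovD 1 gZ [(10003415040, 991952896), (68719476736, 68719476736), (508523708416, 453548965888)] :=
  covD_split 1 (by decide +kernel) Z_c0_t2 Z_c0_t13

theorem Z_c0_t22 : CovD 1 gZ [(10003415040, 991952896), (171798691840, 34359738368), (281749225472, 226774482944)] :=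
  covD_split 2 (by decide +kernel) Z_c0_t23 Z_c0_t24

theorem Z_c0_t25 : CovD 1 gZ [(10003415040, 991952896), (171798691840, 34359738368), (735298191360, 226774482944)] :=
  covD_split 2 (by decide +kernel) Z_c0_t26 Z_c0_t27

theorem Z_c0_t21 : CovD 1 gZ [(10003415040, 991952896), (171798691840, 34359738368), (508523708416, 453548965888)] :=
  covD_split 2 (by decide +kernel) Z_c0_t22 Z_c0_t25

theorem Z_c0_t29 : CovD 1 gZ [(10003415040, 991952896), (240518168576, 34359738368), (281749225472, 226774482944)] :=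
  covD_split 2 (by decide +kernel) Z_c0_t30 Z_c0_t31

theorem Z_c0_t32 : CovD 1 gZ [(10003415040, 991952896), (240518168576, 34359738368), (735298191360, 226774482944)] :=
  covD_split 2 (by decide +kernel) Z_c0_t33 Z_c0_t34

theorem Z_c0_t28 : CovD 1 gZ [(10003415040, 991952896), (240518168576, 34359738368), (508523708416, 453548965888)] :=
  covD_split 2 (by decide +kernel) Z_c0_t29 Z_c0_t32

theorem Z_c0_t20 : CovD 1 gZ [(10003415040, 991952896), (206158430208, 68719476736), (508523708416, 453548965888)] :=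
  covD_split 1 (by decide +kernel) Z_c0_t21 Z_c0_t28

theorem Z_c0 : CovD 1 gZ [(10003415040, 991952896), (137438953472, 137438953472), (508523708416, 453548965888)] :=
  covD_split 1 (by decide +kernel) Z_c0_t1 Z_c0_t20

end Pool.Agent.helper14.NS.Q100a
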