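import Pool.Agent.helper14.NS.Q100a.Tab
import Pool.Agent.helper14.NR.Share

/-!
Generated: programs and compiled forms.
-/

namespace Pool.Agent.helper14.NS.Q100a

open Pool.Agent.helper31.IA (Z)
open Pool.Agent.helper31.IX (Op XOps runX Cov CovD cov_split covD_split)
open Pool.Agent.helper31.IC (TD)
open Pool.Agent.helper63.RG (reloc)
open Pool.Agent.helper63.NF hiding TD
open Pool.Agent.helper4.NS
open Pool.Agent.helper14.CF (xE covD_E)
open Pool.Agent.helper14.NR (share)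

def p2_1 : List Op := [
  .const ⟨1099511627776, 0, 0, 0⟩,
  .mul 1 2,
  .scale ⟨2199023255552, 0, 0, 0⟩ 0,
  .exp 1,
  .neg 2,
  .exp 0,
  .mul 2 2,
  .mul 1 1,
  .mul 0 0,
  .add 2 1,
  .scale ⟨549755813888, 0, 0, 0⟩ 0,
  .scale ⟨2199023255552, 0, 0, 0⟩ 12,
  .mul 10 10,
  .lt 0 68719476736,
  .scale ⟨9162596898, 0, 0, 0⟩ 0,
  .const ⟨183251937962, 0, 0, 0⟩,
  .add 1 0,
  .mul 0 3,
  .const ⟨1099511627776, 0, 0, 0⟩,
  .add 1 0,
  .const ⟨65536, 0, 0, 0⟩,
  .rball 1 0,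
  .mul 9 0,
  .add 18 16,
  .scale ⟨549755813888, 0, 0, 0⟩ 0,
  .mul 2 0,
  .mul 3 3,
  .mul 26 0,
  .mul 2 2,
  .mul 28 0,
  .neg 17,
  .exp 0,
  .add 0 30,
  .pos 0,
  .log 0,
  .const ⟨9999220736, 0, 0, 0⟩,
  .sub 34 0,
  .mul 36 36,
  .mul 0 37,
  .mul 2 38,
  .mul 3 3,
  .scale ⟨0, 5453288960, 0, 0⟩ 40,
  .scale ⟨23746943488, 0, 0, 0⟩ 4,
  .add 1 0,
  .scale ⟨0, 35097650240, 0, 0⟩ 5,
  .add 1 0,
  .scale ⟨0, 1104418333888, 0, 0⟩ 9,
  .add 1 0,
  .scale ⟨0, 153407063616, 0, 0⟩ 8,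
  .add 1 0,
  .scale ⟨51486161619328, 0, 0, 0⟩ 9,
  .add 1 0,
  .const ⟨546885323392, 0, 0, 0⟩,
  .add 1 0,
  .scale ⟨243981568, 0, 0, 0⟩ 53,
  .scale ⟨0, 476635072, 0, 0⟩ 17,
  .add 1 0,
  .scale ⟨0, 143339214080, 0, 0⟩ 20,
  .add 1 0,
  .scale ⟨0, 359866960256, 0, 0⟩ 19,
  .add 1 0,
  .const ⟨0, 261787584, 0, 0⟩,
  .add 1 0,
  .scale ⟨0, 354055424, 0, 0⟩ 62,
  .scale ⟨780366016, 0, 0, 0⟩ 26,
  .add 1 0,
  .scale ⟨40707091648, 0, 0, 0⟩ 29,
  .add 1 0,
  .const ⟨0, 135675328, 0, 0⟩,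
  .add 1 0,
  .scale ⟨20811456, 0, 0, 0⟩ 69,
  .scale ⟨0, 9857520448, 0, 0⟩ 34,
  .add 1 0,
  .const ⟨67049280, 0, 0, 0⟩,
  .add 1 0,
  .scale ⟨0, 8563904, 0, 0⟩ 74,
  .const ⟨0, 7790016, 0, 0⟩,
  .add 1 0,
  .mul 76 78,
  .add 0 66,
  .pos 0,
  .inv 0,
  .mul 71 0,
  .sub 82 55,
  .add 73 2,
  .mul 1 0,
  .mul 3 0,
  .mul 76 59,
  .scale ⟨2199023255552, 0, 0, 0⟩ 0,
  .add 2 0,
  .scale ⟨0, 40973988003840, 0, 0⟩ 52,
  .const ⟨0, 745445261312, 0, 0⟩,
  .add 1 0,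
  .sub 3 0,
  .pos 0,
  .inv 0,
  .scale ⟨31362867265536, 0, 0, 0⟩ 0,
  .add 2 0,
  .pos 0,
  .inv 0,
  .scale ⟨0, 16252709120, 0, 0⟩ 96,
  .scale ⟨7120625037824, 0, 0, 0⟩ 61,
  .add 1 0,
  .const ⟨47951400192, 0, 0, 0⟩,
  .add 1 0,
  .scale ⟨157377140352, 0, 0, 0⟩ 101,
  .scale ⟨26838333179776, 0, 0, 0⟩ 66,
  .add 1 0,
  .const ⟨56195246528, 0, 0, 0⟩,
  .add 1 0,
  .mul 13 0,
  .add 6 0,
  .mul 0 12,
  .scale ⟨0, 7040, 0, 0⟩ 21,
  .const ⟨858624, 0, 0, 0⟩,
  .add 1 0,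
  .mul 24 0,
  .add 0 36,
  .mul 26 0,
  .add 0 41,
  .mul 28 0,
  .add 0 48,
  .mul 30 0,
  .add 0 57,
  .mul 32 0,
  .add 12 68,
  .add 1 0,
  .mul 38 0,
  .add 0 111,
  .neg 0,
  .exp 0,
  .add 0 125,
  .pos 0,
  .log 0,
  .add 130 103,
  .scale ⟨145726570496, 0, 0, 0⟩ 130,
  .scale ⟨98520203264, 0, 0, 0⟩ 94,
  .add 1 0,
  .scale ⟨412677636096, 0, 0, 0⟩ 95,
  .add 1 0,
  .scale ⟨10650790330368, 0, 0, 0⟩ 99,
  .add 1 0,
  .scale ⟨0, 49230900232192, 0, 0⟩ 98,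
  .add 1 0,
  .const ⟨115257966592, 0, 0, 0⟩,
  .add 1 0,
  .scale ⟨1099511627776, 0, 0, 0⟩ 142,
  .add 0 140,
  .pos 0,
  .inv 0,
  .scale ⟨2199023255552, 0, 0, 0⟩ 3,
  .mul 15 0,
  .mul 0 2,
  .mul 0 149,
  .sub 146 0,
  .pos 0,
  .log 0,
  .mul 23 2,
  .add 0 149,
  .pos 0,
  .log 0,
  .sub 0 3,
  .add 29 0,
  .sub 26 121,
  .scale ⟨2199023255552, 0, 0, 0⟩ 0,
  .add 33 0,
  .add 8 5,
  .sub 1 0,
  .mul 159 5,
  .scale ⟨549755813888, 0, 0, 0⟩ 0,
  .mul 0 0,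
  .lt 0 68719476736,
  .scale ⟨9162596898, 0, 0, 0⟩ 0,
  .const ⟨183251937962, 0, 0, 0⟩,
  .add 1 0,
  .mul 0 3,
  .const ⟨1099511627776, 0, 0, 0⟩,
  .add 1 0,
  .const ⟨65536, 0, 0, 0⟩,
  .rball 1 0,
  .exp 9,
  .mul 0 1,
  .mul 18 0,
  .pos 173,
  .inv 173,
  .mul 174 15,
  .exp 0,
  .const ⟨1099511627776, 0, 0, 0⟩,
  .sub 1 0,
  .mul 0 4,
  .mul 168 181,
  .add 0 151,
  .mul 102 0,
  .mul 182 0,
  .add 0 172,
  .pos 0,
  .inv 0,
  .add 98 158,
  .mul 13 0,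
  .mul 5 5,
  .scale ⟨2199023255552, 0, 0, 0⟩ 0,
  .sub 2 0,
  .mul 163 163,
  .scale ⟨549755813888, 0, 0, 0⟩ 0,
  .sub 2 0,
  .mul 193 20,
  .const ⟨2199023255552, 0, 0, 0⟩,
  .add 1 0,
  .mul 17 0,
  .mul 170 0,
  .add 5 0,
  .mul 199 14,
  .mul 0 0,
  .mul 0 2,
  .add 0 201,
  .pos 0,
  .log 0,
  .scale ⟨549755813888, 0, 0, 0⟩ 0,
  .exp 0,
  .add 0 205,
  .pos 0,
  .mul 8 22,
  .inv 1,
  .mul 1 0,
  .mul 210 0,
  .add 29 0,
  .pos 83,
  .inv 83,
  .mul 205 135,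
  .mul 1 0,
  .mul 0 5,
  .mul 216 0,
  .add 0 216,
  .pos 0,
  .mul 34 210,
  .pos 0,
  .log 0,
  .scale ⟨549755813888, 0, 0, 0⟩ 16,
  .add 1 0,
  .mul 0 48,
  .scale ⟨0, 192759398400, 0, 0⟩ 224,
  .scale ⟨4094299930624, 0, 0, 0⟩ 188,
  .add 1 0,
  .scale ⟨0, 11110171475968, 0, 0⟩ 189,
  .add 1 0,
  .scale ⟨111283404537856, 0, 0, 0⟩ 193,
  .add 1 0,
  .scale ⟨0, 430796890439680, 0, 0⟩ 192,
  .add 1 0,
  .const ⟨1297573478400, 0, 0, 0⟩,
  .add 1 0,
  .scale ⟨2199023255552, 0, 0, 0⟩ 231,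
  .exp 0,
  .pos 2,
  .mul 20 0,
  .scale ⟨2199023255552, 0, 0, 0⟩ 0,
  .inv 20,
  .mul 24 0,
  .inv 6,
  .mul 5 0,
  .mul 2 0,
  .mul 5 0,
  .lt 0 1099510579200,
  .const ⟨8494371569664, 0, 0, 0⟩,
  .add 217 0,
  .pos 0,
  .mul 34 34,
  .sub 0 219,
  .inv 2,
  .mul 1 0,
  .lt 0 1099510579200,
  .scale ⟨52166656, 0, 0, 0⟩ 163,
  .const ⟨0, 358481920, 0, 0⟩,
  .add 1 0,
  .mul 166 0,
  .scale ⟨0, 48889856, 0, 0⟩ 255,
  .scale ⟨497630838784, 0, 0, 0⟩ 220,
  .add 1 0,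
  .const ⟨6498942976, 0, 0, 0⟩,
  .add 1 0,
  .add 5 0,
  .mul 173 0,
  .scale ⟨0, 982843392, 0, 0⟩ 262,
  .scale ⟨5247467520, 0, 0, 0⟩ 226,
  .add 1 0,
  .scale ⟨401779392512, 0, 0, 0⟩ 229,
  .add 1 0,
  .const ⟨1096553136128, 0, 0, 0⟩,
  .add 1 0,
  .add 7 0,
  .scale ⟨1099511627776, 0, 0, 0⟩ 129,
  .pos 0,
  .inv 0,
  .mul 129 58,
  .mul 0 1,
  .scale ⟨549755813888, 0, 0, 0⟩ 0,
  .mul 274 62,
  .add 0 264,
  .pos 0,
  .inv 0,
  .mul 269 0,
  .sub 66 253,
  .add 271 2,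
  .mul 1 0,
  .mul 3 0,
  .mul 274 257,
  .scale ⟨2199023255552, 0, 0, 0⟩ 0,
  .add 2 0,
  .scale ⟨0, 40973988003840, 0, 0⟩ 250,
  .const ⟨0, 745445261312, 0, 0⟩,
  .add 1 0,
  .sub 3 0,
  .pos 0,
  .inv 0,
  .scale ⟨31362867265536, 0, 0, 0⟩ 0,
  .add 2 0,
  .pos 0,
  .inv 0,
  .scale ⟨0, 16252709120, 0, 0⟩ 294,
  .scale ⟨7120625037824, 0, 0, 0⟩ 259,
  .add 1 0,
  .const ⟨47951400192, 0, 0, 0⟩,
  .add 1 0,
  .scale ⟨157377140352, 0, 0, 0⟩ 299,
  .scale ⟨26838333179776, 0, 0, 0⟩ 264,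
  .add 1 0,
  .const ⟨56195246528, 0, 0, 0⟩,
  .add 1 0,
  .mul 13 0,
  .add 6 0,
  .mul 0 12,
  .scale ⟨0, 7040, 0, 0⟩ 21,
  .const ⟨858624, 0, 0, 0⟩,
  .add 1 0,
  .mul 24 0,
  .add 0 234,
  .mul 26 0,
  .add 0 239,
  .mul 28 0,
  .add 0 246,
  .mul 30 0,
  .add 0 255,
  .mul 32 0,
  .add 12 266,
  .add 1 0,
  .mul 38 0,
  .add 0 309,
  .neg 0,
  .exp 0,
  .add 0 323,
  .pos 0,
  .log 0,
  .scale ⟨879662989312, 0, 0, 0⟩ 114,
  .add 0 326,
  .pos 0,
  .inv 0,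
  .scale ⟨88282169344, 0, 0, 0⟩ 330,
  .scale ⟨225362903040, 0, 0, 0⟩ 294,
  .add 1 0,
  .scale ⟨0, 216191139840, 0, 0⟩ 295,
  .add 1 0,
  .scale ⟨7164126232576, 0, 0, 0⟩ 299,
  .add 1 0,
  .scale ⟨0, 38680265555968, 0, 0⟩ 298,
  .add 1 0,
  .const ⟨95629475840, 0, 0, 0⟩,
  .add 1 0,
  .scale ⟨1099511627776, 0, 0, 0⟩ 0,
  .mul 0 70,
  .mul 335 263,
  .mul 0 125,
  .mul 2 0,
  .mul 203 16,
  .mul 1 0,
  .add 224 219,
  .sub 0 22,
  .sub 0 126,
  .exp 0,
  .const ⟨0, 0, 0, 0⟩,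
  .mul 83 1,
  .mul 0 29,
  .mul 0 7,
  .rball 3 0,
  .sub 355 87,
  .mul 360 0,
  .sub 357 7,
  .scale ⟨1099511627776, 0, 0, 0⟩ 0,
  .mul 0 86,
  .mul 92 0,
  .add 4 0,
  .add 0 7,
  .lt 0 1099510579200]

set_option maxRecDepth 1000000 in
noncomputable def c2_1 {α : Type} (cst : Z → α) (add sub mul : α → α → α) (scale : Z → α → α)
    (neg inv exp log : α → α) (ok : α → Bool) (isPos : Nat → α → Bool) (isLt : α → Nat → Bool)
    (ball : Nat → α → α) (rball : α → α → α) : List α → Bool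
  | [x0, x1, x2, x3] =>
  let v0 := cst ⟨1099511627776, 0, 0, 0⟩; ok v0 && (
  let v1 := mul x0 x1; ok v1 && (
  let v2 := scale ⟨2199023255552, 0, 0, 0⟩ v1; ok v2 && (
  let v3 := exp v1; ok v3 && (
  let v4 := neg v1; ok v4 && (
  let v5 := exp v4; ok v5 && (
  let v6 := mul v3 v3; ok v6 && (
  let v7 := mul v5 v5; ok v7 && (
  let v8 := mul v7 v7; ok v8 && (
  let v9 := add v6 v7; ok v9 && (
  let v10 := scale ⟨549755813888, 0, 0, 0⟩ v9; ok v10 && (
  let v11 := scale ⟨2199023255552, 0, 0, 0⟩ x1; ok v11 && (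
  let v12 := mul v1 v1; ok v12 && (
  isLt v12 68719476736 && (
  let v13 := scale ⟨9162596898, 0, 0, 0⟩ v12; ok v13 && (
  let v14 := cst ⟨183251937962, 0, 0, 0⟩; ok v14 && (
  let v15 := add v13 v14; ok v15 && (
  let v16 := mul v15 v12; ok v16 && (
  let v17 := cst ⟨1099511627776, 0, 0, 0⟩; ok v17 && (
  let v18 := add v16 v17; ok v18 && (
  let v19 := cst ⟨65536, 0, 0, 0⟩; ok v19 && (
  let v20 := rball v18 v19; ok v20 && (
  let v21 := mul v11 v20; ok v21 && (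
  let v22 := add v3 v5; ok v22 && (
  let v23 := scale ⟨549755813888, 0, 0, 0⟩ v22; ok v23 && (
  let v24 := mul v21 v23; ok v24 && (
  let v25 := mul v21 v21; ok v25 && (
  let v26 := mul x0 v25; ok v26 && (
  let v27 := mul v24 v24; ok v27 && (
  let v28 := mul x0 v27; ok v28 && (
  let v29 := neg v11; ok v29 && (
  let v30 := exp v29; ok v30 && (
  let v31 := add v30 v0; ok v31 && (
  isPos 3 v31 && (
  let v32 := log v31; ok v32 && (
  let v33 := cst ⟨9999220736, 0, 0, 0⟩; ok v33 && (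
  let v34 := sub x0 v33; ok v34 && (
  let v35 := mul x1 x1; ok v35 && (
  let v36 := mul v35 x1; ok v36 && (
  let v37 := mul v34 x1; ok v37 && (
  let v38 := mul v34 v34; ok v38 && (
  let v39 := scale ⟨0, 5453288960, 0, 0⟩ x1; ok v39 && (
  let v40 := scale ⟨23746943488, 0, 0, 0⟩ v35; ok v40 && (
  let v41 := add v39 v40; ok v41 && (
  let v42 := scale ⟨0, 35097650240, 0, 0⟩ v36; ok v42 && (
  let v43 := add v41 v42; ok v43 && (
  let v44 := scale ⟨0, 1104418333888, 0, 0⟩ v34; ok v44 && (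
  let v45 := add v43 v44; ok v45 && (
  let v46 := scale ⟨0, 153407063616, 0, 0⟩ v37; ok v46 && (
  let v47 := add v45 v46; ok v47 && (
  let v48 := scale ⟨51486161619328, 0, 0, 0⟩ v38; ok v48 && (
  let v49 := add v47 v48; ok v49 && (
  let v50 := cst ⟨546885323392, 0, 0, 0⟩; ok v50 && (
  let v51 := add v49 v50; ok v51 && (
  let v52 := scale ⟨243981568, 0, 0, 0⟩ x1; ok v52 && (
  let v53 := scale ⟨0, 476635072, 0, 0⟩ v35; ok v53 && (
  let v54 := add v52 v53; ok v54 && (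
  let v55 := scale ⟨0, 143339214080, 0, 0⟩ v34; ok v55 && (
  let v56 := add v54 v55; ok v56 && (
  let v57 := scale ⟨0, 359866960256, 0, 0⟩ v37; ok v57 && (
  let v58 := add v56 v57; ok v58 && (
  let v59 := cst ⟨0, 261787584, 0, 0⟩; ok v59 && (
  let v60 := add v58 v59; ok v60 && (
  let v61 := scale ⟨0, 354055424, 0, 0⟩ x1; ok v61 && (
  let v62 := scale ⟨780366016, 0, 0, 0⟩ v35; ok v62 && (
  let v63 := add v61 v62; ok v63 && (
  let v64 := scale ⟨40707091648, 0, 0, 0⟩ v34; ok v64 && (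
  let v65 := add v63 v64; ok v65 && (
  let v66 := cst ⟨0, 135675328, 0, 0⟩; ok v66 && (
  let v67 := add v65 v66; ok v67 && (
  let v68 := scale ⟨20811456, 0, 0, 0⟩ x1; ok v68 && (
  let v69 := scale ⟨0, 9857520448, 0, 0⟩ v34; ok v69 && (
  let v70 := add v68 v69; ok v70 && (
  let v71 := cst ⟨67049280, 0, 0, 0⟩; ok v71 && (
  let v72 := add v70 v71; ok v72 && (
  let v73 := scale ⟨0, 8563904, 0, 0⟩ x1; ok v73 && (
  let v74 := cst ⟨0, 7790016, 0, 0⟩; ok v74 && (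
  let v75 := add v73 v74; ok v75 && (
  let v76 := mul x0 x2; ok v76 && (
  let v77 := add v76 v10; ok v77 && (
  isPos 3 v77 && (
  let v78 := inv v77; ok v78 && (
  let v79 := mul v7 v78; ok v79 && (
  let v80 := sub x2 v24; ok v80 && (
  let v81 := add v7 v78; ok v81 && (
  let v82 := mul v80 v81; ok v82 && (
  let v83 := mul v79 v82; ok v83 && (
  let v84 := mul v7 v24; ok v84 && (
  let v85 := scale ⟨2199023255552, 0, 0, 0⟩ v84; ok v85 && (
  let v86 := add v83 v85; ok v86 && (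
  let v87 := scale ⟨0, 40973988003840, 0, 0⟩ v34; ok v87 && (
  let v88 := cst ⟨0, 745445261312, 0, 0⟩; ok v88 && (
  let v89 := add v87 v88; ok v89 && (
  let v90 := sub v86 v89; ok v90 && (
  isPos 3 v90 && (
  let v91 := inv v90; ok v91 && (
  let v92 := scale ⟨31362867265536, 0, 0, 0⟩ v91; ok v92 && (
  let v93 := add v90 v92; ok v93 && (
  isPos 3 v93 && (
  let v94 := inv v93; ok v94 && (
  let v95 := scale ⟨0, 16252709120, 0, 0⟩ x1; ok v95 && (
  let v96 := scale ⟨7120625037824, 0, 0, 0⟩ v34; ok v96 && (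
  let v97 := add v95 v96; ok v97 && (
  let v98 := cst ⟨47951400192, 0, 0, 0⟩; ok v98 && (
  let v99 := add v97 v98; ok v99 && (
  let v100 := scale ⟨157377140352, 0, 0, 0⟩ x1; ok v100 && (
  let v101 := scale ⟨26838333179776, 0, 0, 0⟩ v34; ok v101 && (
  let v102 := add v100 v101; ok v102 && (
  let v103 := cst ⟨56195246528, 0, 0, 0⟩; ok v103 && (
  let v104 := add v102 v103; ok v104 && (
  let v105 := mul v91 v104; ok v105 && (
  let v106 := add v99 v105; ok v106 && (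
  let v107 := mul v106 v94; ok v107 && (
  let v108 := scale ⟨0, 7040, 0, 0⟩ v86; ok v108 && (
  let v109 := cst ⟨858624, 0, 0, 0⟩; ok v109 && (
  let v110 := add v108 v109; ok v110 && (
  let v111 := mul v86 v110; ok v111 && (
  let v112 := add v111 v75; ok v112 && (
  let v113 := mul v86 v112; ok v113 && (
  let v114 := add v113 v72; ok v114 && (
  let v115 := mul v86 v114; ok v115 && (
  let v116 := add v115 v67; ok v116 && (
  let v117 := mul v86 v116; ok v117 && (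
  let v118 := add v117 v60; ok v118 && (
  let v119 := mul v86 v118; ok v119 && (
  let v120 := add v107 v51; ok v120 && (
  let v121 := add v119 v120; ok v121 && (
  let v122 := mul v83 v121; ok v122 && (
  let v123 := add v122 v11; ok v123 && (
  let v124 := neg v123; ok v124 && (
  let v125 := exp v124; ok v125 && (
  let v126 := add v125 v0; ok v126 && (
  isPos 3 v126 && (
  let v127 := log v126; ok v127 && (
  let v128 := add x2 v24; ok v128 && (
  let v129 := scale ⟨145726570496, 0, 0, 0⟩ x1; ok v129 && (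
  let v130 := scale ⟨98520203264, 0, 0, 0⟩ v35; ok v130 && (
  let v131 := add v129 v130; ok v131 && (
  let v132 := scale ⟨412677636096, 0, 0, 0⟩ v36; ok v132 && (
  let v133 := add v131 v132; ok v133 && (
  let v134 := scale ⟨10650790330368, 0, 0, 0⟩ v34; ok v134 && (
  let v135 := add v133 v134; ok v135 && (
  let v136 := scale ⟨0, 49230900232192, 0, 0⟩ v37; ok v136 && (
  let v137 := add v135 v136; ok v137 && (
  let v138 := cst ⟨115257966592, 0, 0, 0⟩; ok v138 && (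
  let v139 := add v137 v138; ok v139 && (
  let v140 := scale ⟨1099511627776, 0, 0, 0⟩ x2; ok v140 && (
  let v141 := add v140 v0; ok v141 && (
  isPos 3 v141 && (
  let v142 := inv v141; ok v142 && (
  let v143 := scale ⟨2199023255552, 0, 0, 0⟩ v139; ok v143 && (
  let v144 := mul v128 v143; ok v144 && (
  let v145 := mul v144 v142; ok v145 && (
  let v146 := mul v145 x3; ok v146 && (
  let v147 := sub v0 v146; ok v147 && (
  isPos 3 v147 && (
  let v148 := log v147; ok v148 && (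
  let v149 := mul v125 v146; ok v149 && (
  let v150 := add v149 v0; ok v150 && (
  isPos 3 v150 && (
  let v151 := log v150; ok v151 && (
  let v152 := sub v151 v148; ok v152 && (
  let v153 := add v123 v152; ok v153 && (
  let v154 := sub v127 v32; ok v154 && (
  let v155 := scale ⟨2199023255552, 0, 0, 0⟩ v154; ok v155 && (
  let v156 := add v122 v155; ok v156 && (
  let v157 := add v148 v151; ok v157 && (
  let v158 := sub v156 v157; ok v158 && (
  let v159 := mul x0 v153; ok v159 && (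
  let v160 := scale ⟨549755813888, 0, 0, 0⟩ v159; ok v160 && (
  let v161 := mul v160 v160; ok v161 && (
  isLt v161 68719476736 && (
  let v162 := scale ⟨9162596898, 0, 0, 0⟩ v161; ok v162 && (
  let v163 := cst ⟨183251937962, 0, 0, 0⟩; ok v163 && (
  let v164 := add v162 v163; ok v164 && (
  let v165 := mul v164 v161; ok v165 && (
  let v166 := cst ⟨1099511627776, 0, 0, 0⟩; ok v166 && (
  let v167 := add v165 v166; ok v167 && (
  let v168 := cst ⟨65536, 0, 0, 0⟩; ok v168 && (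
  let v169 := rball v167 v168; ok v169 && (
  let v170 := exp v160; ok v170 && (
  let v171 := mul v170 v169; ok v171 && (
  let v172 := mul v153 v171; ok v172 && (
  isPos 3 x0 && (
  let v173 := inv x0; ok v173 && (
  let v174 := mul x0 v158; ok v174 && (
  let v175 := exp v174; ok v175 && (
  let v176 := cst ⟨1099511627776, 0, 0, 0⟩; ok v176 && (
  let v177 := sub v175 v176; ok v177 && (
  let v178 := mul v177 v173; ok v178 && (
  let v179 := mul v10 x2; ok v179 && (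
  let v180 := add v179 v28; ok v180 && (
  let v181 := mul v78 v180; ok v181 && (
  let v182 := mul x0 v181; ok v182 && (
  let v183 := add v182 v10; ok v183 && (
  isPos 3 v183 && (
  let v184 := inv v183; ok v184 && (
  let v185 := add v86 v26; ok v185 && (
  let v186 := mul v172 v185; ok v186 && (
  let v187 := mul v181 v181; ok v187 && (
  let v188 := scale ⟨2199023255552, 0, 0, 0⟩ v187; ok v188 && (
  let v189 := sub v186 v188; ok v189 && (
  let v190 := mul v26 v26; ok v190 && (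
  let v191 := scale ⟨549755813888, 0, 0, 0⟩ v190; ok v191 && (
  let v192 := sub v189 v191; ok v192 && (
  let v193 := mul x0 v172; ok v193 && (
  let v194 := cst ⟨2199023255552, 0, 0, 0⟩; ok v194 && (
  let v195 := add v193 v194; ok v195 && (
  let v196 := mul v178 v195; ok v196 && (
  let v197 := mul v26 v196; ok v197 && (
  let v198 := add v192 v197; ok v198 && (
  let v199 := mul x0 v184; ok v199 && (
  let v200 := mul v199 v199; ok v200 && (
  let v201 := mul v200 v198; ok v201 && (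
  let v202 := add v201 v0; ok v202 && (
  isPos 3 v202 && (
  let v203 := log v202; ok v203 && (
  let v204 := scale ⟨549755813888, 0, 0, 0⟩ v203; ok v204 && (
  let v205 := exp v204; ok v205 && (
  let v206 := add v205 v0; ok v206 && (
  isPos 3 v206 && (
  let v207 := mul v198 v184; ok v207 && (
  let v208 := inv v206; ok v208 && (
  let v209 := mul v207 v208; ok v209 && (
  let v210 := mul x0 v209; ok v210 && (
  let v211 := add v181 v210; ok v211 && (
  isPos 3 v128 && (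
  let v212 := inv v128; ok v212 && (
  let v213 := mul v7 v77; ok v213 && (
  let v214 := mul v212 v213; ok v214 && (
  let v215 := mul v214 v209; ok v215 && (
  let v216 := mul x0 v215; ok v216 && (
  let v217 := add v216 v0; ok v217 && (
  isPos 3 v217 && (
  let v218 := mul v183 v7; ok v218 && (
  isPos 3 v218 && (
  let v219 := log v218; ok v219 && (
  let v220 := scale ⟨549755813888, 0, 0, 0⟩ v203; ok v220 && (
  let v221 := add v219 v220; ok v221 && (
  let v222 := mul v221 v173; ok v222 && (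
  let v223 := scale ⟨0, 192759398400, 0, 0⟩ x1; ok v223 && (
  let v224 := scale ⟨4094299930624, 0, 0, 0⟩ v35; ok v224 && (
  let v225 := add v223 v224; ok v225 && (
  let v226 := scale ⟨0, 11110171475968, 0, 0⟩ v36; ok v226 && (
  let v227 := add v225 v226; ok v227 && (
  let v228 := scale ⟨111283404537856, 0, 0, 0⟩ v34; ok v228 && (
  let v229 := add v227 v228; ok v229 && (
  let v230 := scale ⟨0, 430796890439680, 0, 0⟩ v37; ok v230 && (
  let v231 := add v229 v230; ok v231 && (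
  let v232 := cst ⟨1297573478400, 0, 0, 0⟩; ok v232 && (
  let v233 := add v231 v232; ok v233 && (
  let v234 := scale ⟨2199023255552, 0, 0, 0⟩ v2; ok v234 && (
  let v235 := exp v234; ok v235 && (
  isPos 3 v233 && (
  let v236 := mul v215 v235; ok v236 && (
  let v237 := scale ⟨2199023255552, 0, 0, 0⟩ v236; ok v237 && (
  let v238 := inv v217; ok v238 && (
  let v239 := mul v214 v238; ok v239 && (
  let v240 := inv v233; ok v240 && (
  let v241 := mul v235 v240; ok v241 && (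
  let v242 := mul v239 v241; ok v242 && (
  let v243 := mul v237 v242; ok v243 && (
  isLt v243 1099510579200 && (
  let v244 := cst ⟨8494371569664, 0, 0, 0⟩; ok v244 && (
  let v245 := add v27 v244; ok v245 && (
  isPos 3 v245 && (
  let v246 := mul v211 v211; ok v246 && (
  let v247 := sub v246 v27; ok v247 && (
  let v248 := inv v245; ok v248 && (
  let v249 := mul v247 v248; ok v249 && (
  isLt v249 1099510579200 && (
  let v250 := scale ⟨52166656, 0, 0, 0⟩ v86; ok v250 && (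
  let v251 := cst ⟨0, 358481920, 0, 0⟩; ok v251 && (
  let v252 := add v250 v251; ok v252 && (
  let v253 := mul v86 v252; ok v253 && (
  let v254 := scale ⟨0, 48889856, 0, 0⟩ x1; ok v254 && (
  let v255 := scale ⟨497630838784, 0, 0, 0⟩ v34; ok v255 && (
  let v256 := add v254 v255; ok v256 && (
  let v257 := cst ⟨6498942976, 0, 0, 0⟩; ok v257 && (
  let v258 := add v256 v257; ok v258 && (
  let v259 := add v253 v258; ok v259 && (
  let v260 := mul v86 v259; ok v260 && (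
  let v261 := scale ⟨0, 982843392, 0, 0⟩ x1; ok v261 && (
  let v262 := scale ⟨5247467520, 0, 0, 0⟩ v35; ok v262 && (
  let v263 := add v261 v262; ok v263 && (
  let v264 := scale ⟨401779392512, 0, 0, 0⟩ v34; ok v264 && (
  let v265 := add v263 v264; ok v265 && (
  let v266 := cst ⟨1096553136128, 0, 0, 0⟩; ok v266 && (
  let v267 := add v265 v266; ok v267 && (
  let v268 := add v260 v267; ok v268 && (
  let v269 := scale ⟨1099511627776, 0, 0, 0⟩ v139; ok v269 && (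
  isPos 3 v269 && (
  let v270 := inv v269; ok v270 && (
  let v271 := mul v141 v212; ok v271 && (
  let v272 := mul v271 v270; ok v272 && (
  let v273 := scale ⟨549755813888, 0, 0, 0⟩ v272; ok v273 && (
  let v274 := mul x0 v211; ok v274 && (
  let v275 := add v274 v10; ok v275 && (
  isPos 3 v275 && (
  let v276 := inv v275; ok v276 && (
  let v277 := mul v7 v276; ok v277 && (
  let v278 := sub v211 v24; ok v278 && (
  let v279 := add v7 v276; ok v279 && (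
  let v280 := mul v278 v279; ok v280 && (
  let v281 := mul v277 v280; ok v281 && (
  let v282 := mul v7 v24; ok v282 && (
  let v283 := scale ⟨2199023255552, 0, 0, 0⟩ v282; ok v283 && (
  let v284 := add v281 v283; ok v284 && (
  let v285 := scale ⟨0, 40973988003840, 0, 0⟩ v34; ok v285 && (
  let v286 := cst ⟨0, 745445261312, 0, 0⟩; ok v286 && (
  let v287 := add v285 v286; ok v287 && (
  let v288 := sub v284 v287; ok v288 && (
  isPos 3 v288 && (
  let v289 := inv v288; ok v289 && (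
  let v290 := scale ⟨31362867265536, 0, 0, 0⟩ v289; ok v290 && (
  let v291 := add v288 v290; ok v291 && (
  isPos 3 v291 && (
  let v292 := inv v291; ok v292 && (
  let v293 := scale ⟨0, 16252709120, 0, 0⟩ x1; ok v293 && (
  let v294 := scale ⟨7120625037824, 0, 0, 0⟩ v34; ok v294 && (
  let v295 := add v293 v294; ok v295 && (
  let v296 := cst ⟨47951400192, 0, 0, 0⟩; ok v296 && (
  let v297 := add v295 v296; ok v297 && (
  let v298 := scale ⟨157377140352, 0, 0, 0⟩ x1; ok v298 && (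
  let v299 := scale ⟨26838333179776, 0, 0, 0⟩ v34; ok v299 && (
  let v300 := add v298 v299; ok v300 && (
  let v301 := cst ⟨56195246528, 0, 0, 0⟩; ok v301 && (
  let v302 := add v300 v301; ok v302 && (
  let v303 := mul v289 v302; ok v303 && (
  let v304 := add v297 v303; ok v304 && (
  let v305 := mul v304 v292; ok v305 && (
  let v306 := scale ⟨0, 7040, 0, 0⟩ v284; ok v306 && (
  let v307 := cst ⟨858624, 0, 0, 0⟩; ok v307 && (
  let v308 := add v306 v307; ok v308 && (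
  let v309 := mul v284 v308; ok v309 && (
  let v310 := add v309 v75; ok v310 && (
  let v311 := mul v284 v310; ok v311 && (
  let v312 := add v311 v72; ok v312 && (
  let v313 := mul v284 v312; ok v313 && (
  let v314 := add v313 v67; ok v314 && (
  let v315 := mul v284 v314; ok v315 && (
  let v316 := add v315 v60; ok v316 && (
  let v317 := mul v284 v316; ok v317 && (
  let v318 := add v305 v51; ok v318 && (
  let v319 := add v317 v318; ok v319 && (
  let v320 := mul v281 v319; ok v320 && (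
  let v321 := add v320 v11; ok v321 && (
  let v322 := neg v321; ok v322 && (
  let v323 := exp v322; ok v323 && (
  let v324 := add v323 v0; ok v324 && (
  isPos 3 v324 && (
  let v325 := log v324; ok v325 && (
  let v326 := scale ⟨879662989312, 0, 0, 0⟩ v211; ok v326 && (
  let v327 := add v326 v0; ok v327 && (
  isPos 3 v327 && (
  let v328 := inv v327; ok v328 && (
  let v329 := scale ⟨88282169344, 0, 0, 0⟩ x1; ok v329 && (
  let v330 := scale ⟨225362903040, 0, 0, 0⟩ v35; ok v330 && (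
  let v331 := add v329 v330; ok v331 && (
  let v332 := scale ⟨0, 216191139840, 0, 0⟩ v36; ok v332 && (
  let v333 := add v331 v332; ok v333 && (
  let v334 := scale ⟨7164126232576, 0, 0, 0⟩ v34; ok v334 && (
  let v335 := add v333 v334; ok v335 && (
  let v336 := scale ⟨0, 38680265555968, 0, 0⟩ v37; ok v336 && (
  let v337 := add v335 v336; ok v337 && (
  let v338 := cst ⟨95629475840, 0, 0, 0⟩; ok v338 && (
  let v339 := add v337 v338; ok v339 && (
  let v340 := scale ⟨1099511627776, 0, 0, 0⟩ v339; ok v340 && (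
  let v341 := mul v340 v270; ok v341 && (
  let v342 := mul v6 v78; ok v342 && (
  let v343 := mul v342 v217; ok v343 && (
  let v344 := mul v341 v343; ok v344 && (
  let v345 := mul v141 v328; ok v345 && (
  let v346 := mul v344 v345; ok v346 && (
  let v347 := add v122 v127; ok v347 && (
  let v348 := sub v347 v325; ok v348 && (
  let v349 := sub v348 v222; ok v349 && (
  let v350 := exp v349; ok v350 && (
  let v351 := cst ⟨0, 0, 0, 0⟩; ok v351 && (
  let v352 := mul v268 v350; ok v352 && (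
  let v353 := mul v352 v323; ok v353 && (
  let v354 := mul v353 v346; ok v354 && (
  let v355 := rball v351 v354; ok v355 && (
  let v356 := sub v0 v268; ok v356 && (
  let v357 := mul x3 v356; ok v357 && (
  let v358 := sub v0 v350; ok v358 && (
  let v359 := scale ⟨1099511627776, 0, 0, 0⟩ v358; ok v359 && (
  let v360 := mul v359 v273; ok v360 && (
  let v361 := mul v268 v360; ok v361 && (
  let v362 := add v357 v361; ok v362 && (
  let v363 := add v362 v355; ok v363 && (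
  isLt v363 1099510579200 && (
  true))))))))))))))))))))))))))))))))))))))))))))))))))))))))))))))))))))))))))))))))))))))))))))))))))))))))))))))))))))))))))))))))))))))))))))))))))))))))))))))))))))))))))))))))))))))))))))))))))))))))))))))))))))))))))))))))))))))))))))))))))))))))))))))))))))))))))))))))))))))))))))))))))))))))))))))))))))))))))))))))))))))))))))))))))))))))))))))))))))))))))))))))))))))))))))))))))))))))
  | _ => false

set_option maxRecDepth 1000000 in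
theorem c2_1_eq (X : XOps) (m : List X.O.α)
    (h : c2_1 X.O.cst X.O.add X.O.sub X.O.mul X.O.scale X.O.neg X.O.inv X.O.exp X.O.log X.O.ok
      X.O.isPos X.O.isLt X.ball X.rball m = true) :
    runX X 3 p2_1 m = true := by
  match m, h with
  | [x0, x1, x2, x3], h => exact h

def p1_A1 : List Op := [
  .const ⟨1099511627776, 0, 0, 0⟩,
  .mul 1 2,
  .exp 0,
  .neg 1,
  .exp 0,
  .mul 3 3,
  .lt 0 68719476736,
  .scale ⟨9162596898, 0, 0, 0⟩ 0,
  .const ⟨183251937962, 0, 0, 0⟩,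
  .add 1 0,
  .mul 0 3,
  .const ⟨1099511627776, 0, 0, 0⟩,
  .add 1 0,
  .const ⟨65536, 0, 0, 0⟩,
  .rball 1 0,
  .scale ⟨2199023255552, 0, 0, 0⟩ 15,
  .mul 0 1,
  .add 13 11,
  .scale ⟨549755813888, 0, 0, 0⟩ 0,
  .mul 2 0,
  .mul 0 0,
  .const ⟨9999220736, 0, 0, 0⟩,
  .sub 21 0,
  .mul 23 23,
  .mul 0 24,
  .mul 2 25,
  .mul 20 20,
  .mul 0 0,
  .scale ⟨4398046511104, 0, 0, 0⟩ 25,
  .neg 0,
  .exp 0,
  .scale ⟨1515795578880, 0, 0, 0⟩ 31,
  .scale ⟨0, 380250554368, 0, 0⟩ 8,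
  .add 1 0,
  .scale ⟨0, 7044112449536, 0, 0⟩ 9,
  .add 1 0,
  .scale ⟨0, 352536100864, 0, 0⟩ 13,
  .add 1 0,
  .scale ⟨85960894578688, 0, 0, 0⟩ 12,
  .add 1 0,
  .const ⟨1679998844928, 0, 0, 0⟩,
  .add 1 0,
  .mul 41 22,
  .mul 0 1,
  .add 0 42,
  .mul 14 0,
  .scale ⟨2199023255552, 0, 0, 0⟩ 19,
  .mul 5 16,
  .sub 1 0,
  .mul 48 0,
  .add 4 48,
  .mul 1 30,
  .mul 1 53,
  .scale ⟨0, 0, 1099511627776, 0⟩ 0,
  .add 2 0,
  .mul 5 56,
  .scale ⟨0, 0, 1099511627776, 0⟩ 0,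
  .add 6 0,
  .inv 0,
  .mul 4 0]

set_option maxRecDepth 1000000 in
noncomputable def c_A1_0 {α : Type} (cst : Z → α) (add sub mul : α → α → α) (scale : Z → α → α)
    (neg inv exp log : α → α) (ok : α → Bool) (isPos : Nat → α → Bool) (isLt : α → Nat → Bool)
    (ball : Nat → α → α) (rball : α → α → α) : List α → Bool
  | [x0, x1, x2, x3] =>
  let v0 := cst ⟨1099511627776, 0, 0, 0⟩; ok v0 && (
  let v1 := mul x0 x1; ok v1 && (
  let v2 := exp v1; ok v2 && (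
  let v3 := neg v1; ok v3 && (
  let v4 := exp v3; ok v4 && (
  let v5 := mul v1 v1; ok v5 && (
  isLt v5 68719476736 && (
  let v6 := scale ⟨9162596898, 0, 0, 0⟩ v5; ok v6 && (
  let v7 := cst ⟨183251937962, 0, 0, 0⟩; ok v7 && (
  let v8 := add v6 v7; ok v8 && (
  let v9 := mul v8 v5; ok v9 && (
  let v10 := cst ⟨1099511627776, 0, 0, 0⟩; ok v10 && (
  let v11 := add v9 v10; ok v11 && (
  let v12 := cst ⟨65536, 0, 0, 0⟩; ok v12 && (
  let v13 := rball v11 v12; ok v13 && (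
  let v14 := scale ⟨2199023255552, 0, 0, 0⟩ x1; ok v14 && (
  let v15 := mul v14 v13; ok v15 && (
  let v16 := add v2 v4; ok v16 && (
  let v17 := scale ⟨549755813888, 0, 0, 0⟩ v16; ok v17 && (
  let v18 := mul v15 v17; ok v18 && (
  let v19 := mul v18 v18; ok v19 && (
  let v20 := cst ⟨9999220736, 0, 0, 0⟩; ok v20 && (
  let v21 := sub x0 v20; ok v21 && (
  let v22 := mul x1 x1; ok v22 && (
  let v23 := mul v22 x1; ok v23 && (
  let v24 := mul v21 x1; ok v24 && (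
  let v25 := mul v4 v4; ok v25 && (
  let v26 := mul v25 v25; ok v26 && (
  let v27 := scale ⟨4398046511104, 0, 0, 0⟩ v1; ok v27 && (
  let v28 := neg v27; ok v28 && (
  let v29 := exp v28; ok v29 && (
  let v30 := scale ⟨1515795578880, 0, 0, 0⟩ x1; ok v30 && (
  let v31 := scale ⟨0, 380250554368, 0, 0⟩ v22; ok v31 && (
  let v32 := add v30 v31; ok v32 && (
  let v33 := scale ⟨0, 7044112449536, 0, 0⟩ v23; ok v33 && (
  let v34 := add v32 v33; ok v34 && (
  let v35 := scale ⟨0, 352536100864, 0, 0⟩ v21; ok v35 && (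
  let v36 := add v34 v35; ok v36 && (
  let v37 := scale ⟨85960894578688, 0, 0, 0⟩ v24; ok v37 && (
  let v38 := add v36 v37; ok v38 && (
  let v39 := cst ⟨1679998844928, 0, 0, 0⟩; ok v39 && (
  let v40 := add v38 v39; ok v40 && (
  let v41 := mul x0 v18; ok v41 && (
  let v42 := mul v41 v40; ok v42 && (
  let v43 := add v42 v0; ok v43 && (
  let v44 := mul v29 v43; ok v44 && (
  let v45 := scale ⟨2199023255552, 0, 0, 0⟩ v25; ok v45 && (
  let v46 := mul v40 v29; ok v46 && (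
  let v47 := sub v45 v46; ok v47 && (
  let v48 := mul x0 v47; ok v48 && (
  let v49 := add v44 v0; ok v49 && (
  let v50 := mul v48 v19; ok v50 && (
  let v51 := mul v49 x2; ok v51 && (
  let v52 := scale ⟨0, 0, 1099511627776, 0⟩ v51; ok v52 && (
  let v53 := add v50 v52; ok v53 && (
  let v54 := mul v48 x2; ok v54 && (
  let v55 := scale ⟨0, 0, 1099511627776, 0⟩ v54; ok v55 && (
  let v56 := add v49 v55; ok v56 && (
  let v57 := inv v56; ok v57 && (
  let v58 := mul v53 v57; ok v58 && (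
  c2_1 cst add sub mul scale neg inv exp log ok isPos isLt ball rball [x0, x1, v58, x3]))))))))))))))))))))))))))))))))))))))))))))))))))))))))))))
  | _ => false

set_option maxRecDepth 1000000 in
theorem c_A1_0_eq (X : XOps) (m : List X.O.α)
    (h : c_A1_0 X.O.cst X.O.add X.O.sub X.O.mul X.O.scale X.O.neg X.O.inv X.O.exp X.O.log X.O.ok
      X.O.isPos X.O.isLt X.ball X.rball m = true) :
    runX X 3 (p1_A1 ++ reloc [59, 60, 0, 62] 63 0 p2_1) m = true := by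
  match m, h with
  | [x0, x1, x2, x3], h => exact share (c2_1_eq X) [x0, x1, x2, x3] (Nat.le_of_ble_eq_true rfl) h

def p_A1_1 : List Op := [
  .const ⟨1099511627776, 0, 0, 0⟩,
  .mul 1 2,
  .exp 0,
  .neg 1,
  .exp 0,
  .mul 3 3,
  .lt 0 68719476736,
  .scale ⟨9162596898, 0, 0, 0⟩ 0,
  .const ⟨183251937962, 0, 0, 0⟩,
  .add 1 0,
  .mul 0 3,
  .const ⟨1099511627776, 0, 0, 0⟩,
  .add 1 0,
  .const ⟨65536, 0, 0, 0⟩,
  .rball 1 0,
  .scale ⟨2199023255552, 0, 0, 0⟩ 15,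
  .mul 0 1,
  .add 13 11,
  .scale ⟨549755813888, 0, 0, 0⟩ 0,
  .mul 2 0,
  .mul 0 0,
  .const ⟨9999220736, 0, 0, 0⟩,
  .sub 21 0,
  .mul 23 23,
  .mul 0 24,
  .mul 2 25,
  .mul 20 20,
  .mul 0 0,
  .scale ⟨4398046511104, 0, 0, 0⟩ 25,
  .neg 0,
  .exp 0,
  .scale ⟨1515795578880, 0, 0, 0⟩ 31,
  .scale ⟨0, 380250554368, 0, 0⟩ 8,
  .add 1 0,
  .scale ⟨0, 7044112449536, 0, 0⟩ 9,
  .add 1 0,
  .scale ⟨0, 352536100864, 0, 0⟩ 13,
  .add 1 0,
  .scale ⟨85960894578688, 0, 0, 0⟩ 12,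
  .add 1 0,
  .const ⟨1679998844928, 0, 0, 0⟩,
  .add 1 0,
  .mul 41 22,
  .mul 0 1,
  .add 0 42,
  .mul 14 0,
  .scale ⟨2199023255552, 0, 0, 0⟩ 19,
  .mul 5 16,
  .sub 1 0,
  .mul 48 0,
  .add 4 48,
  .mul 1 30,
  .mul 1 53,
  .scale ⟨0, 0, 1099511627776, 0⟩ 0,
  .add 2 0,
  .mul 5 56,
  .scale ⟨0, 0, 1099511627776, 0⟩ 0,
  .add 6 0,
  .inv 0,
  .mul 4 0,
  .const ⟨8293581848576, 0, 0, 0⟩,
  .add 40 0,
  .mul 61 0,
  .mul 62 3,
  .mul 0 4,
  .mul 64 44,
  .sub 1 0,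
  .inv 0,
  .mul 5 0,
  .lt 0 1099511627520]

set_option maxRecDepth 1000000 in
noncomputable def c_A1_1 {α : Type} (cst : Z → α) (add sub mul : α → α → α) (scale : Z → α → α)
    (neg inv exp log : α → α) (ok : α → Bool) (isPos : Nat → α → Bool) (isLt : α → Nat → Bool)
    (ball : Nat → α → α) (rball : α → α → α) : List α → Bool
  | [x0, x1, x2, x3] =>
  let v0 := cst ⟨1099511627776, 0, 0, 0⟩; ok v0 && (
  let v1 := mul x0 x1; ok v1 && (
  let v2 := exp v1; ok v2 && (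
  let v3 := neg v1; ok v3 && (
  let v4 := exp v3; ok v4 && (
  let v5 := mul v1 v1; ok v5 && (
  isLt v5 68719476736 && (
  let v6 := scale ⟨9162596898, 0, 0, 0⟩ v5; ok v6 && (
  let v7 := cst ⟨183251937962, 0, 0, 0⟩; ok v7 && (
  let v8 := add v6 v7; ok v8 && (
  let v9 := mul v8 v5; ok v9 && (
  let v10 := cst ⟨1099511627776, 0, 0, 0⟩; ok v10 && (
  let v11 := add v9 v10; ok v11 && (
  let v12 := cst ⟨65536, 0, 0, 0⟩; ok v12 && (
  let v13 := rball v11 v12; ok v13 && (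
  let v14 := scale ⟨2199023255552, 0, 0, 0⟩ x1; ok v14 && (
  let v15 := mul v14 v13; ok v15 && (
  let v16 := add v2 v4; ok v16 && (
  let v17 := scale ⟨549755813888, 0, 0, 0⟩ v16; ok v17 && (
  let v18 := mul v15 v17; ok v18 && (
  let v19 := mul v18 v18; ok v19 && (
  let v20 := cst ⟨9999220736, 0, 0, 0⟩; ok v20 && (
  let v21 := sub x0 v20; ok v21 && (
  let v22 := mul x1 x1; ok v22 && (
  let v23 := mul v22 x1; ok v23 && (
  let v24 := mul v21 x1; ok v24 && (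
  let v25 := mul v4 v4; ok v25 && (
  let v26 := mul v25 v25; ok v26 && (
  let v27 := scale ⟨4398046511104, 0, 0, 0⟩ v1; ok v27 && (
  let v28 := neg v27; ok v28 && (
  let v29 := exp v28; ok v29 && (
  let v30 := scale ⟨1515795578880, 0, 0, 0⟩ x1; ok v30 && (
  let v31 := scale ⟨0, 380250554368, 0, 0⟩ v22; ok v31 && (
  let v32 := add v30 v31; ok v32 && (
  let v33 := scale ⟨0, 7044112449536, 0, 0⟩ v23; ok v33 && (
  let v34 := add v32 v33; ok v34 && (
  let v35 := scale ⟨0, 352536100864, 0, 0⟩ v21; ok v35 && (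
  let v36 := add v34 v35; ok v36 && (
  let v37 := scale ⟨85960894578688, 0, 0, 0⟩ v24; ok v37 && (
  let v38 := add v36 v37; ok v38 && (
  let v39 := cst ⟨1679998844928, 0, 0, 0⟩; ok v39 && (
  let v40 := add v38 v39; ok v40 && (
  let v41 := mul x0 v18; ok v41 && (
  let v42 := mul v41 v40; ok v42 && (
  let v43 := add v42 v0; ok v43 && (
  let v44 := mul v29 v43; ok v44 && (
  let v45 := scale ⟨2199023255552, 0, 0, 0⟩ v25; ok v45 && (
  let v46 := mul v40 v29; ok v46 && (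
  let v47 := sub v45 v46; ok v47 && (
  let v48 := mul x0 v47; ok v48 && (
  let v49 := add v44 v0; ok v49 && (
  let v50 := mul v48 v19; ok v50 && (
  let v51 := mul v49 x2; ok v51 && (
  let v52 := scale ⟨0, 0, 1099511627776, 0⟩ v51; ok v52 && (
  let v53 := add v50 v52; ok v53 && (
  let v54 := mul v48 x2; ok v54 && (
  let v55 := scale ⟨0, 0, 1099511627776, 0⟩ v54; ok v55 && (
  let v56 := add v49 v55; ok v56 && (
  let v57 := inv v56; ok v57 && (
  let v58 := mul v53 v57; ok v58 && (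
  let v59 := cst ⟨8293581848576, 0, 0, 0⟩; ok v59 && (
  let v60 := add v19 v59; ok v60 && (
  let v61 := mul x0 v60; ok v61 && (
  let v62 := mul x0 v58; ok v62 && (
  let v63 := mul v62 v58; ok v63 && (
  let v64 := mul x0 v19; ok v64 && (
  let v65 := sub v63 v64; ok v65 && (
  let v66 := inv v65; ok v66 && (
  let v67 := mul v61 v66; ok v67 && (
  isLt v67 1099511627520 && (
  true))))))))))))))))))))))))))))))))))))))))))))))))))))))))))))))))))))))
  | _ => false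

set_option maxRecDepth 1000000 in
theorem c_A1_1_eq (X : XOps) (m : List X.O.α)
    (h : c_A1_1 X.O.cst X.O.add X.O.sub X.O.mul X.O.scale X.O.neg X.O.inv X.O.exp X.O.log X.O.ok
      X.O.isPos X.O.isLt X.ball X.rball m = true) :
    runX X 3 p_A1_1 m = true := by
  match m, h with
  | [x0, x1, x2, x3], h => exact h

def p_A1_2 : List Op := [
  .const ⟨1099511627776, 0, 0, 0⟩,
  .mul 1 2,
  .exp 0,
  .neg 1,
  .exp 0,
  .mul 3 3,
  .lt 0 68719476736,
  .scale ⟨9162596898, 0, 0, 0⟩ 0,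
  .const ⟨183251937962, 0, 0, 0⟩,
  .add 1 0,
  .mul 0 3,
  .const ⟨1099511627776, 0, 0, 0⟩,
  .add 1 0,
  .const ⟨65536, 0, 0, 0⟩,
  .rball 1 0,
  .scale ⟨2199023255552, 0, 0, 0⟩ 15,
  .mul 0 1,
  .add 13 11,
  .scale ⟨549755813888, 0, 0, 0⟩ 0,
  .mul 2 0,
  .mul 0 0,
  .const ⟨9999220736, 0, 0, 0⟩,
  .sub 21 0,
  .mul 23 23,
  .mul 0 24,
  .mul 2 25,
  .mul 20 20,
  .mul 0 0,
  .scale ⟨4398046511104, 0, 0, 0⟩ 25,
  .neg 0,
  .exp 0,
  .scale ⟨1515795578880, 0, 0, 0⟩ 31,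
  .scale ⟨0, 380250554368, 0, 0⟩ 8,
  .add 1 0,
  .scale ⟨0, 7044112449536, 0, 0⟩ 9,
  .add 1 0,
  .scale ⟨0, 352536100864, 0, 0⟩ 13,
  .add 1 0,
  .scale ⟨85960894578688, 0, 0, 0⟩ 12,
  .add 1 0,
  .const ⟨1679998844928, 0, 0, 0⟩,
  .add 1 0,
  .mul 41 22,
  .mul 0 1,
  .add 0 42,
  .mul 14 0,
  .scale ⟨2199023255552, 0, 0, 0⟩ 19,
  .mul 5 16,
  .sub 1 0,
  .mul 48 0,
  .add 4 48,
  .mul 1 30,
  .mul 1 53,
  .scale ⟨0, 0, 1099511627776, 0⟩ 0,
  .add 2 0,
  .mul 5 56,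
  .scale ⟨0, 0, 1099511627776, 0⟩ 0,
  .add 6 0,
  .inv 0,
  .mul 4 0,
  .scale ⟨8796093022208, 0, 0, 0⟩ 0,
  .lt 0 1099511627520]

set_option maxRecDepth 1000000 in
noncomputable def c_A1_2 {α : Type} (cst : Z → α) (add sub mul : α → α → α) (scale : Z → α → α)
    (neg inv exp log : α → α) (ok : α → Bool) (isPos : Nat → α → Bool) (isLt : α → Nat → Bool)
    (ball : Nat → α → α) (rball : α → α → α) : List α → Bool
  | [x0, x1, x2, x3] =>
  let v0 := cst ⟨1099511627776, 0, 0, 0⟩; ok v0 && (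
  let v1 := mul x0 x1; ok v1 && (
  let v2 := exp v1; ok v2 && (
  let v3 := neg v1; ok v3 && (
  let v4 := exp v3; ok v4 && (
  let v5 := mul v1 v1; ok v5 && (
  isLt v5 68719476736 && (
  let v6 := scale ⟨9162596898, 0, 0, 0⟩ v5; ok v6 && (
  let v7 := cst ⟨183251937962, 0, 0, 0⟩; ok v7 && (
  let v8 := add v6 v7; ok v8 && (
  let v9 := mul v8 v5; ok v9 && (
  let v10 := cst ⟨1099511627776, 0, 0, 0⟩; ok v10 && (
  let v11 := add v9 v10; ok v11 && (
  let v12 := cst ⟨65536, 0, 0, 0⟩; ok v12 && (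
  let v13 := rball v11 v12; ok v13 && (
  let v14 := scale ⟨2199023255552, 0, 0, 0⟩ x1; ok v14 && (
  let v15 := mul v14 v13; ok v15 && (
  let v16 := add v2 v4; ok v16 && (
  let v17 := scale ⟨549755813888, 0, 0, 0⟩ v16; ok v17 && (
  let v18 := mul v15 v17; ok v18 && (
  let v19 := mul v18 v18; ok v19 && (
  let v20 := cst ⟨9999220736, 0, 0, 0⟩; ok v20 && (
  let v21 := sub x0 v20; ok v21 && (
  let v22 := mul x1 x1; ok v22 && (
  let v23 := mul v22 x1; ok v23 && (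
  let v24 := mul v21 x1; ok v24 && (
  let v25 := mul v4 v4; ok v25 && (
  let v26 := mul v25 v25; ok v26 && (
  let v27 := scale ⟨4398046511104, 0, 0, 0⟩ v1; ok v27 && (
  let v28 := neg v27; ok v28 && (
  let v29 := exp v28; ok v29 && (
  let v30 := scale ⟨1515795578880, 0, 0, 0⟩ x1; ok v30 && (
  let v31 := scale ⟨0, 380250554368, 0, 0⟩ v22; ok v31 && (
  let v32 := add v30 v31; ok v32 && (
  let v33 := scale ⟨0, 7044112449536, 0, 0⟩ v23; ok v33 && (
  let v34 := add v32 v33; ok v34 && (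
  let v35 := scale ⟨0, 352536100864, 0, 0⟩ v21; ok v35 && (
  let v36 := add v34 v35; ok v36 && (
  let v37 := scale ⟨85960894578688, 0, 0, 0⟩ v24; ok v37 && (
  let v38 := add v36 v37; ok v38 && (
  let v39 := cst ⟨1679998844928, 0, 0, 0⟩; ok v39 && (
  let v40 := add v38 v39; ok v40 && (
  let v41 := mul x0 v18; ok v41 && (
  let v42 := mul v41 v40; ok v42 && (
  let v43 := add v42 v0; ok v43 && (
  let v44 := mul v29 v43; ok v44 && (
  let v45 := scale ⟨2199023255552, 0, 0, 0⟩ v25; ok v45 && (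
  let v46 := mul v40 v29; ok v46 && (
  let v47 := sub v45 v46; ok v47 && (
  let v48 := mul x0 v47; ok v48 && (
  let v49 := add v44 v0; ok v49 && (
  let v50 := mul v48 v19; ok v50 && (
  let v51 := mul v49 x2; ok v51 && (
  let v52 := scale ⟨0, 0, 1099511627776, 0⟩ v51; ok v52 && (
  let v53 := add v50 v52; ok v53 && (
  let v54 := mul v48 x2; ok v54 && (
  let v55 := scale ⟨0, 0, 1099511627776, 0⟩ v54; ok v55 && (
  let v56 := add v49 v55; ok v56 && (
  let v57 := inv v56; ok v57 && (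
  let v58 := mul v53 v57; ok v58 && (
  let v59 := scale ⟨8796093022208, 0, 0, 0⟩ v58; ok v59 && (
  isLt v59 1099511627520 && (
  true))))))))))))))))))))))))))))))))))))))))))))))))))))))))))))))
  | _ => false

set_option maxRecDepth 1000000 in
theorem c_A1_2_eq (X : XOps) (m : List X.O.α)
    (h : c_A1_2 X.O.cst X.O.add X.O.sub X.O.mul X.O.scale X.O.neg X.O.inv X.O.exp X.O.log X.O.ok
      X.O.isPos X.O.isLt X.ball X.rball m = true) :
    runX X 3 p_A1_2 m = true := by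
  match m, h with
  | [x0, x1, x2, x3], h => exact h

abbrev gA1 : List (List Op) := [(p1_A1 ++ reloc [59, 60, 0, 62] 63 0 p2_1), p_A1_1, p_A1_2]

noncomputable abbrev kA1 : List (List xE.O.α → Bool) := [c_A1_0 xE.O.cst xE.O.add xE.O.sub xE.O.mul xE.O.scale xE.O.neg xE.O.inv xE.O.exp xE.O.log xE.O.ok
      xE.O.isPos xE.O.isLt xE.ball xE.rball, c_A1_1 xE.O.cst xE.O.add xE.O.sub xE.O.mul xE.O.scale xE.O.neg xE.O.inv xE.O.exp xE.O.log xE.O.ok
      xE.O.isPos xE.O.isLt xE.ball xE.rball, c_A1_2 xE.O.cst xE.O.add xE.O.sub xE.O.mul xE.O.scale xE.O.neg xE.O.inv xE.O.exp xE.O.log xE.O.ok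
      xE.O.isPos xE.O.isLt xE.ball xE.rball]

theorem kA1_eq : List.Forall₂ (fun (ops : List Op) (chk : List xE.O.α → Bool) =>
    ∀ m, chk m = true → runX xE 3 ops m = true) gA1 kA1 :=
  List.Forall₂.cons (c_A1_0_eq xE) (List.Forall₂.cons (c_A1_1_eq xE) (List.Forall₂.cons (c_A1_2_eq xE) List.Forall₂.nil))

theorem gA1_eq : gA1 = [circ (cA tab 1) (PSm tab 1), altP (cA tab 1) (oCut tab 1), altP (cA tab 1) (oIn tab)] := by decide +kernel

def p1_B1 : List Op := [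
  .const ⟨1099511627776, 0, 0, 0⟩,
  .mul 1 2,
  .exp 0,
  .neg 1,
  .exp 0,
  .mul 3 3,
  .lt 0 68719476736,
  .scale ⟨9162596898, 0, 0, 0⟩ 0,
  .const ⟨183251937962, 0, 0, 0⟩,
  .add 1 0,
  .mul 0 3,
  .const ⟨1099511627776, 0, 0, 0⟩,
  .add 1 0,
  .const ⟨65536, 0, 0, 0⟩,
  .rball 1 0,
  .scale ⟨2199023255552, 0, 0, 0⟩ 15,
  .mul 0 1,
  .add 13 11,
  .scale ⟨549755813888, 0, 0, 0⟩ 0,
  .mul 2 0,
  .mul 0 0,
  .const ⟨9999220736, 0, 0, 0⟩,
  .sub 21 0,
  .mul 23 23,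
  .mul 0 24,
  .mul 2 25,
  .mul 20 20,
  .mul 0 0,
  .scale ⟨4398046511104, 0, 0, 0⟩ 25,
  .neg 0,
  .exp 0,
  .scale ⟨1515795578880, 0, 0, 0⟩ 31,
  .scale ⟨0, 380250554368, 0, 0⟩ 8,
  .add 1 0,
  .scale ⟨0, 7044112449536, 0, 0⟩ 9,
  .add 1 0,
  .scale ⟨0, 352536100864, 0, 0⟩ 13,
  .add 1 0,
  .scale ⟨85960894578688, 0, 0, 0⟩ 12,
  .add 1 0,
  .const ⟨1679998844928, 0, 0, 0⟩,
  .add 1 0,
  .mul 41 22,
  .mul 0 1,
  .add 0 42,
  .mul 14 0,
  .scale ⟨2199023255552, 0, 0, 0⟩ 19,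
  .mul 5 16,
  .sub 1 0,
  .mul 48 0,
  .add 4 48,
  .mul 1 30,
  .mul 0 53,
  .scale ⟨0, 0, 1099511627776, 0⟩ 2,
  .add 1 0,
  .mul 4 56,
  .scale ⟨0, 0, 1099511627776, 0⟩ 6,
  .add 1 0,
  .inv 0,
  .mul 4 0]

set_option maxRecDepth 1000000 in
noncomputable def c_B1_0 {α : Type} (cst : Z → α) (add sub mul : α → α → α) (scale : Z → α → α)
    (neg inv exp log : α → α) (ok : α → Bool) (isPos : Nat → α → Bool) (isLt : α → Nat → Bool)
    (ball : Nat → α → α) (rball : α → α → α) : List α → Bool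
  | [x0, x1, x2, x3] =>
  let v0 := cst ⟨1099511627776, 0, 0, 0⟩; ok v0 && (
  let v1 := mul x0 x1; ok v1 && (
  let v2 := exp v1; ok v2 && (
  let v3 := neg v1; ok v3 && (
  let v4 := exp v3; ok v4 && (
  let v5 := mul v1 v1; ok v5 && (
  isLt v5 68719476736 && (
  let v6 := scale ⟨9162596898, 0, 0, 0⟩ v5; ok v6 && (
  let v7 := cst ⟨183251937962, 0, 0, 0⟩; ok v7 && (
  let v8 := add v6 v7; ok v8 && (
  let v9 := mul v8 v5; ok v9 && (
  let v10 := cst ⟨1099511627776, 0, 0, 0⟩; ok v10 && (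
  let v11 := add v9 v10; ok v11 && (
  let v12 := cst ⟨65536, 0, 0, 0⟩; ok v12 && (
  let v13 := rball v11 v12; ok v13 && (
  let v14 := scale ⟨2199023255552, 0, 0, 0⟩ x1; ok v14 && (
  let v15 := mul v14 v13; ok v15 && (
  let v16 := add v2 v4; ok v16 && (
  let v17 := scale ⟨549755813888, 0, 0, 0⟩ v16; ok v17 && (
  let v18 := mul v15 v17; ok v18 && (
  let v19 := mul v18 v18; ok v19 && (
  let v20 := cst ⟨9999220736, 0, 0, 0⟩; ok v20 && (
  let v21 := sub x0 v20; ok v21 && (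
  let v22 := mul x1 x1; ok v22 && (
  let v23 := mul v22 x1; ok v23 && (
  let v24 := mul v21 x1; ok v24 && (
  let v25 := mul v4 v4; ok v25 && (
  let v26 := mul v25 v25; ok v26 && (
  let v27 := scale ⟨4398046511104, 0, 0, 0⟩ v1; ok v27 && (
  let v28 := neg v27; ok v28 && (
  let v29 := exp v28; ok v29 && (
  let v30 := scale ⟨1515795578880, 0, 0, 0⟩ x1; ok v30 && (
  let v31 := scale ⟨0, 380250554368, 0, 0⟩ v22; ok v31 && (
  let v32 := add v30 v31; ok v32 && (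
  let v33 := scale ⟨0, 7044112449536, 0, 0⟩ v23; ok v33 && (
  let v34 := add v32 v33; ok v34 && (
  let v35 := scale ⟨0, 352536100864, 0, 0⟩ v21; ok v35 && (
  let v36 := add v34 v35; ok v36 && (
  let v37 := scale ⟨85960894578688, 0, 0, 0⟩ v24; ok v37 && (
  let v38 := add v36 v37; ok v38 && (
  let v39 := cst ⟨1679998844928, 0, 0, 0⟩; ok v39 && (
  let v40 := add v38 v39; ok v40 && (
  let v41 := mul x0 v18; ok v41 && (
  let v42 := mul v41 v40; ok v42 && (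
  let v43 := add v42 v0; ok v43 && (
  let v44 := mul v29 v43; ok v44 && (
  let v45 := scale ⟨2199023255552, 0, 0, 0⟩ v25; ok v45 && (
  let v46 := mul v40 v29; ok v46 && (
  let v47 := sub v45 v46; ok v47 && (
  let v48 := mul x0 v47; ok v48 && (
  let v49 := add v44 v0; ok v49 && (
  let v50 := mul v48 v19; ok v50 && (
  let v51 := mul v50 x2; ok v51 && (
  let v52 := scale ⟨0, 0, 1099511627776, 0⟩ v49; ok v52 && (
  let v53 := add v51 v52; ok v53 && (
  let v54 := mul v49 x2; ok v54 && (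
  let v55 := scale ⟨0, 0, 1099511627776, 0⟩ v48; ok v55 && (
  let v56 := add v54 v55; ok v56 && (
  let v57 := inv v56; ok v57 && (
  let v58 := mul v53 v57; ok v58 && (
  c2_1 cst add sub mul scale neg inv exp log ok isPos isLt ball rball [x0, x1, v58, x3]))))))))))))))))))))))))))))))))))))))))))))))))))))))))))))
  | _ => false

set_option maxRecDepth 1000000 in
theorem c_B1_0_eq (X : XOps) (m : List X.O.α)
    (h : c_B1_0 X.O.cst X.O.add X.O.sub X.O.mul X.O.scale X.O.neg X.O.inv X.O.exp X.O.log X.O.ok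
      X.O.isPos X.O.isLt X.ball X.rball m = true) :
    runX X 3 (p1_B1 ++ reloc [59, 60, 0, 62] 63 0 p2_1) m = true := by
  match m, h with
  | [x0, x1, x2, x3], h => exact share (c2_1_eq X) [x0, x1, x2, x3] (Nat.le_of_ble_eq_true rfl) h

def p_B1_1 : List Op := [
  .const ⟨1099511627776, 0, 0, 0⟩,
  .mul 1 2,
  .exp 0,
  .neg 1,
  .exp 0,
  .mul 3 3,
  .lt 0 68719476736,
  .scale ⟨9162596898, 0, 0, 0⟩ 0,
  .const ⟨183251937962, 0, 0, 0⟩,
  .add 1 0,
  .mul 0 3,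
  .const ⟨1099511627776, 0, 0, 0⟩,
  .add 1 0,
  .const ⟨65536, 0, 0, 0⟩,
  .rball 1 0,
  .scale ⟨2199023255552, 0, 0, 0⟩ 15,
  .mul 0 1,
  .add 13 11,
  .scale ⟨549755813888, 0, 0, 0⟩ 0,
  .mul 2 0,
  .mul 0 0,
  .const ⟨9999220736, 0, 0, 0⟩,
  .sub 21 0,
  .mul 23 23,
  .mul 0 24,
  .mul 2 25,
  .mul 20 20,
  .mul 0 0,
  .scale ⟨4398046511104, 0, 0, 0⟩ 25,
  .neg 0,
  .exp 0,
  .scale ⟨1515795578880, 0, 0, 0⟩ 31,
  .scale ⟨0, 380250554368, 0, 0⟩ 8,
  .add 1 0,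
  .scale ⟨0, 7044112449536, 0, 0⟩ 9,
  .add 1 0,
  .scale ⟨0, 352536100864, 0, 0⟩ 13,
  .add 1 0,
  .scale ⟨85960894578688, 0, 0, 0⟩ 12,
  .add 1 0,
  .const ⟨1679998844928, 0, 0, 0⟩,
  .add 1 0,
  .mul 41 22,
  .mul 0 1,
  .add 0 42,
  .mul 14 0,
  .scale ⟨2199023255552, 0, 0, 0⟩ 19,
  .mul 5 16,
  .sub 1 0,
  .mul 48 0,
  .add 4 48,
  .mul 1 30,
  .mul 0 53,
  .scale ⟨0, 0, 1099511627776, 0⟩ 2,
  .add 1 0,
  .mul 4 56,
  .scale ⟨0, 0, 1099511627776, 0⟩ 6,
  .add 1 0,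
  .inv 0,
  .mul 4 0,
  .const ⟨8293581848576, 0, 0, 0⟩,
  .add 40 0,
  .mul 61 0,
  .mul 62 3,
  .mul 0 4,
  .mul 64 44,
  .sub 1 0,
  .inv 0,
  .mul 5 0,
  .lt 0 1099511627520]

set_option maxRecDepth 1000000 in
noncomputable def c_B1_1 {α : Type} (cst : Z → α) (add sub mul : α → α → α) (scale : Z → α → α)
    (neg inv exp log : α → α) (ok : α → Bool) (isPos : Nat → α → Bool) (isLt : α → Nat → Bool)
    (ball : Nat → α → α) (rball : α → α → α) : List α → Bool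
  | [x0, x1, x2, x3] =>
  let v0 := cst ⟨1099511627776, 0, 0, 0⟩; ok v0 && (
  let v1 := mul x0 x1; ok v1 && (
  let v2 := exp v1; ok v2 && (
  let v3 := neg v1; ok v3 && (
  let v4 := exp v3; ok v4 && (
  let v5 := mul v1 v1; ok v5 && (
  isLt v5 68719476736 && (
  let v6 := scale ⟨9162596898, 0, 0, 0⟩ v5; ok v6 && (
  let v7 := cst ⟨183251937962, 0, 0, 0⟩; ok v7 && (
  let v8 := add v6 v7; ok v8 && (
  let v9 := mul v8 v5; ok v9 && (
  let v10 := cst ⟨1099511627776, 0, 0, 0⟩; ok v10 && (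
  let v11 := add v9 v10; ok v11 && (
  let v12 := cst ⟨65536, 0, 0, 0⟩; ok v12 && (
  let v13 := rball v11 v12; ok v13 && (
  let v14 := scale ⟨2199023255552, 0, 0, 0⟩ x1; ok v14 && (
  let v15 := mul v14 v13; ok v15 && (
  let v16 := add v2 v4; ok v16 && (
  let v17 := scale ⟨549755813888, 0, 0, 0⟩ v16; ok v17 && (
  let v18 := mul v15 v17; ok v18 && (
  let v19 := mul v18 v18; ok v19 && (
  let v20 := cst ⟨9999220736, 0, 0, 0⟩; ok v20 && (
  let v21 := sub x0 v20; ok v21 && (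
  let v22 := mul x1 x1; ok v22 && (
  let v23 := mul v22 x1; ok v23 && (
  let v24 := mul v21 x1; ok v24 && (
  let v25 := mul v4 v4; ok v25 && (
  let v26 := mul v25 v25; ok v26 && (
  let v27 := scale ⟨4398046511104, 0, 0, 0⟩ v1; ok v27 && (
  let v28 := neg v27; ok v28 && (
  let v29 := exp v28; ok v29 && (
  let v30 := scale ⟨1515795578880, 0, 0, 0⟩ x1; ok v30 && (
  let v31 := scale ⟨0, 380250554368, 0, 0⟩ v22; ok v31 && (
  let v32 := add v30 v31; ok v32 && (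
  let v33 := scale ⟨0, 7044112449536, 0, 0⟩ v23; ok v33 && (
  let v34 := add v32 v33; ok v34 && (
  let v35 := scale ⟨0, 352536100864, 0, 0⟩ v21; ok v35 && (
  let v36 := add v34 v35; ok v36 && (
  let v37 := scale ⟨85960894578688, 0, 0, 0⟩ v24; ok v37 && (
  let v38 := add v36 v37; ok v38 && (
  let v39 := cst ⟨1679998844928, 0, 0, 0⟩; ok v39 && (
  let v40 := add v38 v39; ok v40 && (
  let v41 := mul x0 v18; ok v41 && (
  let v42 := mul v41 v40; ok v42 && (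
  let v43 := add v42 v0; ok v43 && (
  let v44 := mul v29 v43; ok v44 && (
  let v45 := scale ⟨2199023255552, 0, 0, 0⟩ v25; ok v45 && (
  let v46 := mul v40 v29; ok v46 && (
  let v47 := sub v45 v46; ok v47 && (
  let v48 := mul x0 v47; ok v48 && (
  let v49 := add v44 v0; ok v49 && (
  let v50 := mul v48 v19; ok v50 && (
  let v51 := mul v50 x2; ok v51 && (
  let v52 := scale ⟨0, 0, 1099511627776, 0⟩ v49; ok v52 && (
  let v53 := add v51 v52; ok v53 && (
  let v54 := mul v49 x2; ok v54 && (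
  let v55 := scale ⟨0, 0, 1099511627776, 0⟩ v48; ok v55 && (
  let v56 := add v54 v55; ok v56 && (
  let v57 := inv v56; ok v57 && (
  let v58 := mul v53 v57; ok v58 && (
  let v59 := cst ⟨8293581848576, 0, 0, 0⟩; ok v59 && (
  let v60 := add v19 v59; ok v60 && (
  let v61 := mul x0 v60; ok v61 && (
  let v62 := mul x0 v58; ok v62 && (
  let v63 := mul v62 v58; ok v63 && (
  let v64 := mul x0 v19; ok v64 && (
  let v65 := sub v63 v64; ok v65 && (
  let v66 := inv v65; ok v66 && (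
  let v67 := mul v61 v66; ok v67 && (
  isLt v67 1099511627520 && (
  true))))))))))))))))))))))))))))))))))))))))))))))))))))))))))))))))))))))
  | _ => false

set_option maxRecDepth 1000000 in
theorem c_B1_1_eq (X : XOps) (m : List X.O.α)
    (h : c_B1_1 X.O.cst X.O.add X.O.sub X.O.mul X.O.scale X.O.neg X.O.inv X.O.exp X.O.log X.O.ok
      X.O.isPos X.O.isLt X.ball X.rball m = true) :
    runX X 3 p_B1_1 m = true := by
  match m, h with
  | [x0, x1, x2, x3], h => exact h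

abbrev gB1 : List (List Op) := [(p1_B1 ++ reloc [59, 60, 0, 62] 63 0 p2_1), p_B1_1]

noncomputable abbrev kB1 : List (List xE.O.α → Bool) := [c_B1_0 xE.O.cst xE.O.add xE.O.sub xE.O.mul xE.O.scale xE.O.neg xE.O.inv xE.O.exp xE.O.log xE.O.ok
      xE.O.isPos xE.O.isLt xE.ball xE.rball, c_B1_1 xE.O.cst xE.O.add xE.O.sub xE.O.mul xE.O.scale xE.O.neg xE.O.inv xE.O.exp xE.O.log xE.O.ok
      xE.O.isPos xE.O.isLt xE.ball xE.rball]

theorem kB1_eq : List.Forall₂ (fun (ops : List Op) (chk : List xE.O.α → Bool) =>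
    ∀ m, chk m = true → runX xE 3 ops m = true) gB1 kB1 :=
  List.Forall₂.cons (c_B1_0_eq xE) (List.Forall₂.cons (c_B1_1_eq xE) List.Forall₂.nil)

theorem gB1_eq : gB1 = [circ (cB tab 1) (PSm tab 1), altP (cB tab 1) (oCut tab 1)] := by decide +kernel

def p1_C1 : List Op := [
  .const ⟨1099511627776, 0, 0, 0⟩,
  .mul 1 2,
  .exp 0,
  .neg 1,
  .exp 0,
  .mul 3 3,
  .lt 0 68719476736,
  .scale ⟨9162596898, 0, 0, 0⟩ 0,
  .const ⟨183251937962, 0, 0, 0⟩,
  .add 1 0,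
  .mul 0 3,
  .const ⟨1099511627776, 0, 0, 0⟩,
  .add 1 0,
  .const ⟨65536, 0, 0, 0⟩,
  .rball 1 0,
  .scale ⟨2199023255552, 0, 0, 0⟩ 15,
  .mul 0 1,
  .add 13 11,
  .scale ⟨549755813888, 0, 0, 0⟩ 0,
  .mul 2 0,
  .mul 0 0,
  .scale ⟨0, 0, 1099511627776, 0⟩ 22,
  .add 0 20,
  .sub 21 1,
  .inv 0,
  .mul 2 0,
  .scale ⟨137438953472, 0, 0, 0⟩ 0]

set_option maxRecDepth 1000000 in
noncomputable def c_C1_0 {α : Type} (cst : Z → α) (add sub mul : α → α → α) (scale : Z → α → α)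
    (neg inv exp log : α → α) (ok : α → Bool) (isPos : Nat → α → Bool) (isLt : α → Nat → Bool)
    (ball : Nat → α → α) (rball : α → α → α) : List α → Bool
  | [x0, x1, x2, x3] =>
  let v0 := cst ⟨1099511627776, 0, 0, 0⟩; ok v0 && (
  let v1 := mul x0 x1; ok v1 && (
  let v2 := exp v1; ok v2 && (
  let v3 := neg v1; ok v3 && (
  let v4 := exp v3; ok v4 && (
  let v5 := mul v1 v1; ok v5 && (
  isLt v5 68719476736 && (
  let v6 := scale ⟨9162596898, 0, 0, 0⟩ v5; ok v6 && (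
  let v7 := cst ⟨183251937962, 0, 0, 0⟩; ok v7 && (
  let v8 := add v6 v7; ok v8 && (
  let v9 := mul v8 v5; ok v9 && (
  let v10 := cst ⟨1099511627776, 0, 0, 0⟩; ok v10 && (
  let v11 := add v9 v10; ok v11 && (
  let v12 := cst ⟨65536, 0, 0, 0⟩; ok v12 && (
  let v13 := rball v11 v12; ok v13 && (
  let v14 := scale ⟨2199023255552, 0, 0, 0⟩ x1; ok v14 && (
  let v15 := mul v14 v13; ok v15 && (
  let v16 := add v2 v4; ok v16 && (
  let v17 := scale ⟨549755813888, 0, 0, 0⟩ v16; ok v17 && (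
  let v18 := mul v15 v17; ok v18 && (
  let v19 := mul v18 v18; ok v19 && (
  let v20 := scale ⟨0, 0, 1099511627776, 0⟩ x2; ok v20 && (
  let v21 := add v20 v0; ok v21 && (
  let v22 := sub v0 v20; ok v22 && (
  let v23 := inv v22; ok v23 && (
  let v24 := mul v21 v23; ok v24 && (
  let v25 := scale ⟨137438953472, 0, 0, 0⟩ v24; ok v25 && (
  c2_1 cst add sub mul scale neg inv exp log ok isPos isLt ball rball [x0, x1, v25, x3])))))))))))))))))))))))))))
  | _ => false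

set_option maxRecDepth 1000000 in
theorem c_C1_0_eq (X : XOps) (m : List X.O.α)
    (h : c_C1_0 X.O.cst X.O.add X.O.sub X.O.mul X.O.scale X.O.neg X.O.inv X.O.exp X.O.log X.O.ok
      X.O.isPos X.O.isLt X.ball X.rball m = true) :
    runX X 3 (p1_C1 ++ reloc [26, 27, 0, 29] 30 0 p2_1) m = true := by
  match m, h with
  | [x0, x1, x2, x3], h => exact share (c2_1_eq X) [x0, x1, x2, x3] (Nat.le_of_ble_eq_true rfl) h

def p_C1_1 : List Op := [
  .const ⟨1099511627776, 0, 0, 0⟩,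
  .mul 1 2,
  .exp 0,
  .neg 1,
  .exp 0,
  .mul 3 3,
  .lt 0 68719476736,
  .scale ⟨9162596898, 0, 0, 0⟩ 0,
  .const ⟨183251937962, 0, 0, 0⟩,
  .add 1 0,
  .mul 0 3,
  .const ⟨1099511627776, 0, 0, 0⟩,
  .add 1 0,
  .const ⟨65536, 0, 0, 0⟩,
  .rball 1 0,
  .scale ⟨2199023255552, 0, 0, 0⟩ 15,
  .mul 0 1,
  .add 13 11,
  .scale ⟨549755813888, 0, 0, 0⟩ 0,
  .mul 2 0,
  .mul 0 0,
  .const ⟨9999220736, 0, 0, 0⟩,
  .sub 21 0,
  .mul 23 23,
  .mul 0 24,
  .mul 2 25,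
  .mul 20 20,
  .mul 0 0,
  .scale ⟨4398046511104, 0, 0, 0⟩ 25,
  .neg 0,
  .exp 0,
  .scale ⟨1515795578880, 0, 0, 0⟩ 31,
  .scale ⟨0, 380250554368, 0, 0⟩ 8,
  .add 1 0,
  .scale ⟨0, 7044112449536, 0, 0⟩ 9,
  .add 1 0,
  .scale ⟨0, 352536100864, 0, 0⟩ 13,
  .add 1 0,
  .scale ⟨85960894578688, 0, 0, 0⟩ 12,
  .add 1 0,
  .const ⟨1679998844928, 0, 0, 0⟩,
  .add 1 0,
  .mul 41 22,
  .mul 0 1,
  .add 0 42,
  .mul 14 0,
  .scale ⟨2199023255552, 0, 0, 0⟩ 19,
  .mul 5 16,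
  .sub 1 0,
  .mul 50 50,
  .mul 49 1,
  .add 5 49,
  .mul 1 0,
  .const ⟨17179869184, 0, 0, 0⟩,
  .add 33 0,
  .add 5 53,
  .mul 1 0,
  .mul 4 0,
  .mul 12 12,
  .add 0 57,
  .sub 58 10,
  .scale ⟨274877906944, 0, 0, 0⟩ 0,
  .mul 2 0,
  .sub 5 0,
  .pos 0]

set_option maxRecDepth 1000000 in
noncomputable def c_C1_1 {α : Type} (cst : Z → α) (add sub mul : α → α → α) (scale : Z → α → α)
    (neg inv exp log : α → α) (ok : α → Bool) (isPos : Nat → α → Bool) (isLt : α → Nat → Bool)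
    (ball : Nat → α → α) (rball : α → α → α) : List α → Bool
  | [x0, x1, x2, x3] =>
  let v0 := cst ⟨1099511627776, 0, 0, 0⟩; ok v0 && (
  let v1 := mul x0 x1; ok v1 && (
  let v2 := exp v1; ok v2 && (
  let v3 := neg v1; ok v3 && (
  let v4 := exp v3; ok v4 && (
  let v5 := mul v1 v1; ok v5 && (
  isLt v5 68719476736 && (
  let v6 := scale ⟨9162596898, 0, 0, 0⟩ v5; ok v6 && (
  let v7 := cst ⟨183251937962, 0, 0, 0⟩; ok v7 && (
  let v8 := add v6 v7; ok v8 && (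
  let v9 := mul v8 v5; ok v9 && (
  let v10 := cst ⟨1099511627776, 0, 0, 0⟩; ok v10 && (
  let v11 := add v9 v10; ok v11 && (
  let v12 := cst ⟨65536, 0, 0, 0⟩; ok v12 && (
  let v13 := rball v11 v12; ok v13 && (
  let v14 := scale ⟨2199023255552, 0, 0, 0⟩ x1; ok v14 && (
  let v15 := mul v14 v13; ok v15 && (
  let v16 := add v2 v4; ok v16 && (
  let v17 := scale ⟨549755813888, 0, 0, 0⟩ v16; ok v17 && (
  let v18 := mul v15 v17; ok v18 && (
  let v19 := mul v18 v18; ok v19 && (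
  let v20 := cst ⟨9999220736, 0, 0, 0⟩; ok v20 && (
  let v21 := sub x0 v20; ok v21 && (
  let v22 := mul x1 x1; ok v22 && (
  let v23 := mul v22 x1; ok v23 && (
  let v24 := mul v21 x1; ok v24 && (
  let v25 := mul v4 v4; ok v25 && (
  let v26 := mul v25 v25; ok v26 && (
  let v27 := scale ⟨4398046511104, 0, 0, 0⟩ v1; ok v27 && (
  let v28 := neg v27; ok v28 && (
  let v29 := exp v28; ok v29 && (
  let v30 := scale ⟨1515795578880, 0, 0, 0⟩ x1; ok v30 && (
  let v31 := scale ⟨0, 380250554368, 0, 0⟩ v22; ok v31 && (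
  let v32 := add v30 v31; ok v32 && (
  let v33 := scale ⟨0, 7044112449536, 0, 0⟩ v23; ok v33 && (
  let v34 := add v32 v33; ok v34 && (
  let v35 := scale ⟨0, 352536100864, 0, 0⟩ v21; ok v35 && (
  let v36 := add v34 v35; ok v36 && (
  let v37 := scale ⟨85960894578688, 0, 0, 0⟩ v24; ok v37 && (
  let v38 := add v36 v37; ok v38 && (
  let v39 := cst ⟨1679998844928, 0, 0, 0⟩; ok v39 && (
  let v40 := add v38 v39; ok v40 && (
  let v41 := mul x0 v18; ok v41 && (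
  let v42 := mul v41 v40; ok v42 && (
  let v43 := add v42 v0; ok v43 && (
  let v44 := mul v29 v43; ok v44 && (
  let v45 := scale ⟨2199023255552, 0, 0, 0⟩ v25; ok v45 && (
  let v46 := mul v40 v29; ok v46 && (
  let v47 := sub v45 v46; ok v47 && (
  let v48 := mul x2 x2; ok v48 && (
  let v49 := mul x0 v47; ok v49 && (
  let v50 := add v44 v0; ok v50 && (
  let v51 := mul v49 v50; ok v51 && (
  let v52 := cst ⟨17179869184, 0, 0, 0⟩; ok v52 && (
  let v53 := add v19 v52; ok v53 && (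
  let v54 := add v48 v0; ok v54 && (
  let v55 := mul v53 v54; ok v55 && (
  let v56 := mul v51 v55; ok v56 && (
  let v57 := mul v44 v44; ok v57 && (
  let v58 := add v57 v0; ok v58 && (
  let v59 := sub v0 v48; ok v59 && (
  let v60 := scale ⟨274877906944, 0, 0, 0⟩ v59; ok v60 && (
  let v61 := mul v58 v60; ok v61 && (
  let v62 := sub v56 v61; ok v62 && (
  isPos 3 v62 && (
  true)))))))))))))))))))))))))))))))))))))))))))))))))))))))))))))))))
  | _ => false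

set_option maxRecDepth 1000000 in
theorem c_C1_1_eq (X : XOps) (m : List X.O.α)
    (h : c_C1_1 X.O.cst X.O.add X.O.sub X.O.mul X.O.scale X.O.neg X.O.inv X.O.exp X.O.log X.O.ok
      X.O.isPos X.O.isLt X.ball X.rball m = true) :
    runX X 3 p_C1_1 m = true := by
  match m, h with
  | [x0, x1, x2, x3], h => exact h

abbrev gC1 : List (List Op) := [(p1_C1 ++ reloc [26, 27, 0, 29] 30 0 p2_1), p_C1_1]

noncomputable abbrev kC1 : List (List xE.O.α → Bool) := [c_C1_0 xE.O.cst xE.O.add xE.O.sub xE.O.mul xE.O.scale xE.O.neg xE.O.inv xE.O.exp xE.O.log xE.O.ok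
      xE.O.isPos xE.O.isLt xE.ball xE.rball, c_C1_1 xE.O.cst xE.O.add xE.O.sub xE.O.mul xE.O.scale xE.O.neg xE.O.inv xE.O.exp xE.O.log xE.O.ok
      xE.O.isPos xE.O.isLt xE.ball xE.rball]

theorem kC1_eq : List.Forall₂ (fun (ops : List Op) (chk : List xE.O.α → Bool) =>
    ∀ m, chk m = true → runX xE 3 ops m = true) gC1 kC1 :=
  List.Forall₂.cons (c_C1_0_eq xE) (List.Forall₂.cons (c_C1_1_eq xE) List.Forall₂.nil)

theorem gC1_eq : gC1 = [circ (cC tab) (PSm tab 1), comp (oC tab 1) ρ4 4] := by decide +kernel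

def p1_D1 : List Op := [
  .const ⟨1099511627776, 0, 0, 0⟩,
  .mul 1 2,
  .exp 0,
  .neg 1,
  .exp 0,
  .mul 3 3,
  .lt 0 68719476736,
  .scale ⟨9162596898, 0, 0, 0⟩ 0,
  .const ⟨183251937962, 0, 0, 0⟩,
  .add 1 0,
  .mul 0 3,
  .const ⟨1099511627776, 0, 0, 0⟩,
  .add 1 0,
  .const ⟨65536, 0, 0, 0⟩,
  .rball 1 0,
  .scale ⟨2199023255552, 0, 0, 0⟩ 15,
  .mul 0 1,
  .add 13 11,
  .scale ⟨549755813888, 0, 0, 0⟩ 0,
  .mul 2 0,
  .mul 0 0,
  .const ⟨8293581848576, 0, 0, 0⟩,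
  .add 1 0,
  .scale ⟨0, 0, 1099511627776, 0⟩ 24,
  .exp 0,
  .mul 2 0,
  .add 5 0,
  .log 0,
  .scale ⟨549755813888, 0, 0, 0⟩ 0,
  .exp 0]

set_option maxRecDepth 1000000 in
noncomputable def c_D1_0 {α : Type} (cst : Z → α) (add sub mul : α → α → α) (scale : Z → α → α)
    (neg inv exp log : α → α) (ok : α → Bool) (isPos : Nat → α → Bool) (isLt : α → Nat → Bool)
    (ball : Nat → α → α) (rball : α → α → α) : List α → Bool
  | [x0, x1, x2, x3] =>
  let v0 := cst ⟨1099511627776, 0, 0, 0⟩; ok v0 && (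
  let v1 := mul x0 x1; ok v1 && (
  let v2 := exp v1; ok v2 && (
  let v3 := neg v1; ok v3 && (
  let v4 := exp v3; ok v4 && (
  let v5 := mul v1 v1; ok v5 && (
  isLt v5 68719476736 && (
  let v6 := scale ⟨9162596898, 0, 0, 0⟩ v5; ok v6 && (
  let v7 := cst ⟨183251937962, 0, 0, 0⟩; ok v7 && (
  let v8 := add v6 v7; ok v8 && (
  let v9 := mul v8 v5; ok v9 && (
  let v10 := cst ⟨1099511627776, 0, 0, 0⟩; ok v10 && (
  let v11 := add v9 v10; ok v11 && (
  let v12 := cst ⟨65536, 0, 0, 0⟩; ok v12 && (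
  let v13 := rball v11 v12; ok v13 && (
  let v14 := scale ⟨2199023255552, 0, 0, 0⟩ x1; ok v14 && (
  let v15 := mul v14 v13; ok v15 && (
  let v16 := add v2 v4; ok v16 && (
  let v17 := scale ⟨549755813888, 0, 0, 0⟩ v16; ok v17 && (
  let v18 := mul v15 v17; ok v18 && (
  let v19 := mul v18 v18; ok v19 && (
  let v20 := cst ⟨8293581848576, 0, 0, 0⟩; ok v20 && (
  let v21 := add v19 v20; ok v21 && (
  let v22 := scale ⟨0, 0, 1099511627776, 0⟩ x2; ok v22 && (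
  let v23 := exp v22; ok v23 && (
  let v24 := mul v21 v23; ok v24 && (
  let v25 := add v19 v24; ok v25 && (
  let v26 := log v25; ok v26 && (
  let v27 := scale ⟨549755813888, 0, 0, 0⟩ v26; ok v27 && (
  let v28 := exp v27; ok v28 && (
  c2_1 cst add sub mul scale neg inv exp log ok isPos isLt ball rball [x0, x1, v28, x3]))))))))))))))))))))))))))))))
  | _ => false

set_option maxRecDepth 1000000 in
theorem c_D1_0_eq (X : XOps) (m : List X.O.α)
    (h : c_D1_0 X.O.cst X.O.add X.O.sub X.O.mul X.O.scale X.O.neg X.O.inv X.O.exp X.O.log X.O.ok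
      X.O.isPos X.O.isLt X.ball X.rball m = true) :
    runX X 3 (p1_D1 ++ reloc [29, 30, 0, 32] 33 0 p2_1) m = true := by
  match m, h with
  | [x0, x1, x2, x3], h => exact share (c2_1_eq X) [x0, x1, x2, x3] (Nat.le_of_ble_eq_true rfl) h

def p_D1_1 : List Op := [
  .const ⟨1099511627776, 0, 0, 0⟩,
  .mul 1 2,
  .exp 0,
  .neg 1,
  .exp 0,
  .mul 3 3,
  .lt 0 68719476736,
  .scale ⟨9162596898, 0, 0, 0⟩ 0,
  .const ⟨183251937962, 0, 0, 0⟩,
  .add 1 0,
  .mul 0 3,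
  .const ⟨1099511627776, 0, 0, 0⟩,
  .add 1 0,
  .const ⟨65536, 0, 0, 0⟩,
  .rball 1 0,
  .scale ⟨2199023255552, 0, 0, 0⟩ 15,
  .mul 0 1,
  .add 13 11,
  .scale ⟨549755813888, 0, 0, 0⟩ 0,
  .mul 2 0,
  .mul 0 0,
  .const ⟨9999220736, 0, 0, 0⟩,
  .sub 21 0,
  .mul 23 23,
  .mul 0 24,
  .mul 2 25,
  .mul 20 20,
  .mul 0 0,
  .scale ⟨4398046511104, 0, 0, 0⟩ 25,
  .neg 0,
  .exp 0,
  .scale ⟨1515795578880, 0, 0, 0⟩ 31,
  .scale ⟨0, 380250554368, 0, 0⟩ 8,
  .add 1 0,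
  .scale ⟨0, 7044112449536, 0, 0⟩ 9,
  .add 1 0,
  .scale ⟨0, 352536100864, 0, 0⟩ 13,
  .add 1 0,
  .scale ⟨85960894578688, 0, 0, 0⟩ 12,
  .add 1 0,
  .const ⟨1679998844928, 0, 0, 0⟩,
  .add 1 0,
  .mul 41 22,
  .mul 0 1,
  .add 0 42,
  .mul 14 0,
  .scale ⟨2199023255552, 0, 0, 0⟩ 19,
  .mul 5 16,
  .sub 1 0,
  .const ⟨8293581848576, 0, 0, 0⟩,
  .add 29 0,
  .scale ⟨0, 0, 1099511627776, 0⟩ 52,
  .exp 0,
  .mul 2 0,
  .add 33 0,
  .log 0,
  .scale ⟨549755813888, 0, 0, 0⟩ 0,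
  .exp 0,
  .scale ⟨0, 0, 0, 1099511627776⟩ 59,
  .exp 0,
  .mul 9 0,
  .add 40 0,
  .log 0,
  .scale ⟨549755813888, 0, 0, 0⟩ 0,
  .exp 0,
  .mul 64 16,
  .add 20 64,
  .mul 1 0,
  .mul 10 3,
  .add 48 0,
  .mul 2 0,
  .mul 25 25,
  .add 0 70,
  .add 15 8,
  .mul 1 0,
  .sub 4 0,
  .pos 0]

set_option maxRecDepth 1000000 in
noncomputable def c_D1_1 {α : Type} (cst : Z → α) (add sub mul : α → α → α) (scale : Z → α → α)
    (neg inv exp log : α → α) (ok : α → Bool) (isPos : Nat → α → Bool) (isLt : α → Nat → Bool)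
    (ball : Nat → α → α) (rball : α → α → α) : List α → Bool
  | [x0, x1, x2, x3] =>
  let v0 := cst ⟨1099511627776, 0, 0, 0⟩; ok v0 && (
  let v1 := mul x0 x1; ok v1 && (
  let v2 := exp v1; ok v2 && (
  let v3 := neg v1; ok v3 && (
  let v4 := exp v3; ok v4 && (
  let v5 := mul v1 v1; ok v5 && (
  isLt v5 68719476736 && (
  let v6 := scale ⟨9162596898, 0, 0, 0⟩ v5; ok v6 && (
  let v7 := cst ⟨183251937962, 0, 0, 0⟩; ok v7 && (
  let v8 := add v6 v7; ok v8 && (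
  let v9 := mul v8 v5; ok v9 && (
  let v10 := cst ⟨1099511627776, 0, 0, 0⟩; ok v10 && (
  let v11 := add v9 v10; ok v11 && (
  let v12 := cst ⟨65536, 0, 0, 0⟩; ok v12 && (
  let v13 := rball v11 v12; ok v13 && (
  let v14 := scale ⟨2199023255552, 0, 0, 0⟩ x1; ok v14 && (
  let v15 := mul v14 v13; ok v15 && (
  let v16 := add v2 v4; ok v16 && (
  let v17 := scale ⟨549755813888, 0, 0, 0⟩ v16; ok v17 && (
  let v18 := mul v15 v17; ok v18 && (
  let v19 := mul v18 v18; ok v19 && (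
  let v20 := cst ⟨9999220736, 0, 0, 0⟩; ok v20 && (
  let v21 := sub x0 v20; ok v21 && (
  let v22 := mul x1 x1; ok v22 && (
  let v23 := mul v22 x1; ok v23 && (
  let v24 := mul v21 x1; ok v24 && (
  let v25 := mul v4 v4; ok v25 && (
  let v26 := mul v25 v25; ok v26 && (
  let v27 := scale ⟨4398046511104, 0, 0, 0⟩ v1; ok v27 && (
  let v28 := neg v27; ok v28 && (
  let v29 := exp v28; ok v29 && (
  let v30 := scale ⟨1515795578880, 0, 0, 0⟩ x1; ok v30 && (
  let v31 := scale ⟨0, 380250554368, 0, 0⟩ v22; ok v31 && (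
  let v32 := add v30 v31; ok v32 && (
  let v33 := scale ⟨0, 7044112449536, 0, 0⟩ v23; ok v33 && (
  let v34 := add v32 v33; ok v34 && (
  let v35 := scale ⟨0, 352536100864, 0, 0⟩ v21; ok v35 && (
  let v36 := add v34 v35; ok v36 && (
  let v37 := scale ⟨85960894578688, 0, 0, 0⟩ v24; ok v37 && (
  let v38 := add v36 v37; ok v38 && (
  let v39 := cst ⟨1679998844928, 0, 0, 0⟩; ok v39 && (
  let v40 := add v38 v39; ok v40 && (
  let v41 := mul x0 v18; ok v41 && (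
  let v42 := mul v41 v40; ok v42 && (
  let v43 := add v42 v0; ok v43 && (
  let v44 := mul v29 v43; ok v44 && (
  let v45 := scale ⟨2199023255552, 0, 0, 0⟩ v25; ok v45 && (
  let v46 := mul v40 v29; ok v46 && (
  let v47 := sub v45 v46; ok v47 && (
  let v48 := cst ⟨8293581848576, 0, 0, 0⟩; ok v48 && (
  let v49 := add v19 v48; ok v49 && (
  let v50 := scale ⟨0, 0, 1099511627776, 0⟩ x2; ok v50 && (
  let v51 := exp v50; ok v51 && (
  let v52 := mul v49 v51; ok v52 && (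
  let v53 := add v19 v52; ok v53 && (
  let v54 := log v53; ok v54 && (
  let v55 := scale ⟨549755813888, 0, 0, 0⟩ v54; ok v55 && (
  let v56 := exp v55; ok v56 && (
  let v57 := scale ⟨0, 0, 0, 1099511627776⟩ x2; ok v57 && (
  let v58 := exp v57; ok v58 && (
  let v59 := mul v49 v58; ok v59 && (
  let v60 := add v19 v59; ok v60 && (
  let v61 := log v60; ok v61 && (
  let v62 := scale ⟨549755813888, 0, 0, 0⟩ v61; ok v62 && (
  let v63 := exp v62; ok v63 && (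
  let v64 := mul x0 v47; ok v64 && (
  let v65 := add v44 v0; ok v65 && (
  let v66 := mul v64 v65; ok v66 && (
  let v67 := mul v56 v63; ok v67 && (
  let v68 := add v19 v67; ok v68 && (
  let v69 := mul v66 v68; ok v69 && (
  let v70 := mul v44 v44; ok v70 && (
  let v71 := add v70 v0; ok v71 && (
  let v72 := add v56 v63; ok v72 && (
  let v73 := mul v71 v72; ok v73 && (
  let v74 := sub v69 v73; ok v74 && (
  isPos 3 v74 && (
  true)))))))))))))))))))))))))))))))))))))))))))))))))))))))))))))))))))))))))))))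
  | _ => false

set_option maxRecDepth 1000000 in
theorem c_D1_1_eq (X : XOps) (m : List X.O.α)
    (h : c_D1_1 X.O.cst X.O.add X.O.sub X.O.mul X.O.scale X.O.neg X.O.inv X.O.exp X.O.log X.O.ok
      X.O.isPos X.O.isLt X.ball X.rball m = true) :
    runX X 3 p_D1_1 m = true := by
  match m, h with
  | [x0, x1, x2, x3], h => exact h

abbrev gD1 : List (List Op) := [(p1_D1 ++ reloc [29, 30, 0, 32] 33 0 p2_1), p_D1_1]

noncomputable abbrev kD1 : List (List xE.O.α → Bool) := [c_D1_0 xE.O.cst xE.O.add xE.O.sub xE.O.mul xE.O.scale xE.O.neg xE.O.inv xE.O.exp xE.O.log xE.O.ok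
      xE.O.isPos xE.O.isLt xE.ball xE.rball, c_D1_1 xE.O.cst xE.O.add xE.O.sub xE.O.mul xE.O.scale xE.O.neg xE.O.inv xE.O.exp xE.O.log xE.O.ok
      xE.O.isPos xE.O.isLt xE.ball xE.rball]

theorem kD1_eq : List.Forall₂ (fun (ops : List Op) (chk : List xE.O.α → Bool) =>
    ∀ m, chk m = true → runX xE 3 ops m = true) gD1 kD1 :=
  List.Forall₂.cons (c_D1_0_eq xE) (List.Forall₂.cons (c_D1_1_eq xE) List.Forall₂.nil)

theorem gD1_eq : gD1 = [circ (cD tab 1) (PSm tab 1), comp (oD tab 1) ρ4 4] := by decide +kernel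

def p1_E1 : List Op := [
  .const ⟨1099511627776, 0, 0, 0⟩,
  .mul 1 2,
  .exp 0,
  .neg 1,
  .exp 0,
  .mul 3 3,
  .lt 0 68719476736,
  .scale ⟨9162596898, 0, 0, 0⟩ 0,
  .const ⟨183251937962, 0, 0, 0⟩,
  .add 1 0,
  .mul 0 3,
  .const ⟨1099511627776, 0, 0, 0⟩,
  .add 1 0,
  .const ⟨65536, 0, 0, 0⟩,
  .rball 1 0,
  .scale ⟨2199023255552, 0, 0, 0⟩ 15,
  .mul 0 1,
  .add 13 11,
  .scale ⟨549755813888, 0, 0, 0⟩ 0,
  .mul 2 0,
  .mul 0 0,
  .const ⟨8293581848576, 0, 0, 0⟩,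
  .add 1 0,
  .scale ⟨0, 0, 0, 1099511627776⟩ 24,
  .exp 0,
  .mul 2 0,
  .sub 0 5,
  .log 0,
  .scale ⟨549755813888, 0, 0, 0⟩ 0,
  .exp 0,
  .scale ⟨0, 0, 1099511627776, 0⟩ 0]

set_option maxRecDepth 1000000 in
noncomputable def c_E1_0 {α : Type} (cst : Z → α) (add sub mul : α → α → α) (scale : Z → α → α)
    (neg inv exp log : α → α) (ok : α → Bool) (isPos : Nat → α → Bool) (isLt : α → Nat → Bool)
    (ball : Nat → α → α) (rball : α → α → α) : List α → Bool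
  | [x0, x1, x2, x3] =>
  let v0 := cst ⟨1099511627776, 0, 0, 0⟩; ok v0 && (
  let v1 := mul x0 x1; ok v1 && (
  let v2 := exp v1; ok v2 && (
  let v3 := neg v1; ok v3 && (
  let v4 := exp v3; ok v4 && (
  let v5 := mul v1 v1; ok v5 && (
  isLt v5 68719476736 && (
  let v6 := scale ⟨9162596898, 0, 0, 0⟩ v5; ok v6 && (
  let v7 := cst ⟨183251937962, 0, 0, 0⟩; ok v7 && (
  let v8 := add v6 v7; ok v8 && (
  let v9 := mul v8 v5; ok v9 && (
  let v10 := cst ⟨1099511627776, 0, 0, 0⟩; ok v10 && (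
  let v11 := add v9 v10; ok v11 && (
  let v12 := cst ⟨65536, 0, 0, 0⟩; ok v12 && (
  let v13 := rball v11 v12; ok v13 && (
  let v14 := scale ⟨2199023255552, 0, 0, 0⟩ x1; ok v14 && (
  let v15 := mul v14 v13; ok v15 && (
  let v16 := add v2 v4; ok v16 && (
  let v17 := scale ⟨549755813888, 0, 0, 0⟩ v16; ok v17 && (
  let v18 := mul v15 v17; ok v18 && (
  let v19 := mul v18 v18; ok v19 && (
  let v20 := cst ⟨8293581848576, 0, 0, 0⟩; ok v20 && (
  let v21 := add v19 v20; ok v21 && (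
  let v22 := scale ⟨0, 0, 0, 1099511627776⟩ x2; ok v22 && (
  let v23 := exp v22; ok v23 && (
  let v24 := mul v21 v23; ok v24 && (
  let v25 := sub v24 v19; ok v25 && (
  let v26 := log v25; ok v26 && (
  let v27 := scale ⟨549755813888, 0, 0, 0⟩ v26; ok v27 && (
  let v28 := exp v27; ok v28 && (
  let v29 := scale ⟨0, 0, 1099511627776, 0⟩ v28; ok v29 && (
  c2_1 cst add sub mul scale neg inv exp log ok isPos isLt ball rball [x0, x1, v29, x3])))))))))))))))))))))))))))))))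
  | _ => false

set_option maxRecDepth 1000000 in
theorem c_E1_0_eq (X : XOps) (m : List X.O.α)
    (h : c_E1_0 X.O.cst X.O.add X.O.sub X.O.mul X.O.scale X.O.neg X.O.inv X.O.exp X.O.log X.O.ok
      X.O.isPos X.O.isLt X.ball X.rball m = true) :
    runX X 3 (p1_E1 ++ reloc [30, 31, 0, 33] 34 0 p2_1) m = true := by
  match m, h with
  | [x0, x1, x2, x3], h => exact share (c2_1_eq X) [x0, x1, x2, x3] (Nat.le_of_ble_eq_true rfl) h

def p_E1_1 : List Op := [
  .const ⟨1099511627776, 0, 0, 0⟩,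
  .mul 1 2,
  .exp 0,
  .neg 1,
  .exp 0,
  .mul 3 3,
  .lt 0 68719476736,
  .scale ⟨9162596898, 0, 0, 0⟩ 0,
  .const ⟨183251937962, 0, 0, 0⟩,
  .add 1 0,
  .mul 0 3,
  .const ⟨1099511627776, 0, 0, 0⟩,
  .add 1 0,
  .const ⟨65536, 0, 0, 0⟩,
  .rball 1 0,
  .scale ⟨2199023255552, 0, 0, 0⟩ 15,
  .mul 0 1,
  .add 13 11,
  .scale ⟨549755813888, 0, 0, 0⟩ 0,
  .mul 2 0,
  .mul 0 0,
  .const ⟨9999220736, 0, 0, 0⟩,
  .sub 21 0,
  .mul 23 23,
  .mul 0 24,
  .mul 2 25,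
  .mul 20 20,
  .mul 0 0,
  .scale ⟨4398046511104, 0, 0, 0⟩ 25,
  .neg 0,
  .exp 0,
  .scale ⟨1515795578880, 0, 0, 0⟩ 31,
  .scale ⟨0, 380250554368, 0, 0⟩ 8,
  .add 1 0,
  .scale ⟨0, 7044112449536, 0, 0⟩ 9,
  .add 1 0,
  .scale ⟨0, 352536100864, 0, 0⟩ 13,
  .add 1 0,
  .scale ⟨85960894578688, 0, 0, 0⟩ 12,
  .add 1 0,
  .const ⟨1679998844928, 0, 0, 0⟩,
  .add 1 0,
  .mul 41 22,
  .mul 0 1,
  .add 0 42,
  .mul 14 0,
  .scale ⟨2199023255552, 0, 0, 0⟩ 19,
  .mul 5 16,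
  .sub 1 0,
  .const ⟨8293581848576, 0, 0, 0⟩,
  .add 29 0,
  .scale ⟨0, 0, 0, 1099511627776⟩ 52,
  .exp 0,
  .mul 2 0,
  .sub 0 33,
  .log 0,
  .scale ⟨549755813888, 0, 0, 0⟩ 0,
  .exp 0,
  .scale ⟨0, 0, 1099511627776, 0⟩ 0,
  .scale ⟨0, 0, 1099511627776, 0⟩ 60,
  .exp 0,
  .mul 10 0,
  .sub 0 41,
  .log 0,
  .scale ⟨549755813888, 0, 0, 0⟩ 0,
  .exp 0,
  .scale ⟨0, 0, 0, 1099511627776⟩ 0,
  .mul 66 18,
  .add 22 66,
  .mul 1 0,
  .mul 11 3,
  .add 50 0,
  .mul 2 0,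
  .mul 27 27,
  .add 0 72,
  .add 16 8,
  .mul 1 0,
  .sub 4 0,
  .pos 0]

set_option maxRecDepth 1000000 in
noncomputable def c_E1_1 {α : Type} (cst : Z → α) (add sub mul : α → α → α) (scale : Z → α → α)
    (neg inv exp log : α → α) (ok : α → Bool) (isPos : Nat → α → Bool) (isLt : α → Nat → Bool)
    (ball : Nat → α → α) (rball : α → α → α) : List α → Bool
  | [x0, x1, x2, x3] =>
  let v0 := cst ⟨1099511627776, 0, 0, 0⟩; ok v0 && (
  let v1 := mul x0 x1; ok v1 && (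
  let v2 := exp v1; ok v2 && (
  let v3 := neg v1; ok v3 && (
  let v4 := exp v3; ok v4 && (
  let v5 := mul v1 v1; ok v5 && (
  isLt v5 68719476736 && (
  let v6 := scale ⟨9162596898, 0, 0, 0⟩ v5; ok v6 && (
  let v7 := cst ⟨183251937962, 0, 0, 0⟩; ok v7 && (
  let v8 := add v6 v7; ok v8 && (
  let v9 := mul v8 v5; ok v9 && (
  let v10 := cst ⟨1099511627776, 0, 0, 0⟩; ok v10 && (
  let v11 := add v9 v10; ok v11 && (
  let v12 := cst ⟨65536, 0, 0, 0⟩; ok v12 && (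
  let v13 := rball v11 v12; ok v13 && (
  let v14 := scale ⟨2199023255552, 0, 0, 0⟩ x1; ok v14 && (
  let v15 := mul v14 v13; ok v15 && (
  let v16 := add v2 v4; ok v16 && (
  let v17 := scale ⟨549755813888, 0, 0, 0⟩ v16; ok v17 && (
  let v18 := mul v15 v17; ok v18 && (
  let v19 := mul v18 v18; ok v19 && (
  let v20 := cst ⟨9999220736, 0, 0, 0⟩; ok v20 && (
  let v21 := sub x0 v20; ok v21 && (
  let v22 := mul x1 x1; ok v22 && (
  let v23 := mul v22 x1; ok v23 && (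
  let v24 := mul v21 x1; ok v24 && (
  let v25 := mul v4 v4; ok v25 && (
  let v26 := mul v25 v25; ok v26 && (
  let v27 := scale ⟨4398046511104, 0, 0, 0⟩ v1; ok v27 && (
  let v28 := neg v27; ok v28 && (
  let v29 := exp v28; ok v29 && (
  let v30 := scale ⟨1515795578880, 0, 0, 0⟩ x1; ok v30 && (
  let v31 := scale ⟨0, 380250554368, 0, 0⟩ v22; ok v31 && (
  let v32 := add v30 v31; ok v32 && (
  let v33 := scale ⟨0, 7044112449536, 0, 0⟩ v23; ok v33 && (
  let v34 := add v32 v33; ok v34 && (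
  let v35 := scale ⟨0, 352536100864, 0, 0⟩ v21; ok v35 && (
  let v36 := add v34 v35; ok v36 && (
  let v37 := scale ⟨85960894578688, 0, 0, 0⟩ v24; ok v37 && (
  let v38 := add v36 v37; ok v38 && (
  let v39 := cst ⟨1679998844928, 0, 0, 0⟩; ok v39 && (
  let v40 := add v38 v39; ok v40 && (
  let v41 := mul x0 v18; ok v41 && (
  let v42 := mul v41 v40; ok v42 && (
  let v43 := add v42 v0; ok v43 && (
  let v44 := mul v29 v43; ok v44 && (
  let v45 := scale ⟨2199023255552, 0, 0, 0⟩ v25; ok v45 && (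
  let v46 := mul v40 v29; ok v46 && (
  let v47 := sub v45 v46; ok v47 && (
  let v48 := cst ⟨8293581848576, 0, 0, 0⟩; ok v48 && (
  let v49 := add v19 v48; ok v49 && (
  let v50 := scale ⟨0, 0, 0, 1099511627776⟩ x2; ok v50 && (
  let v51 := exp v50; ok v51 && (
  let v52 := mul v49 v51; ok v52 && (
  let v53 := sub v52 v19; ok v53 && (
  let v54 := log v53; ok v54 && (
  let v55 := scale ⟨549755813888, 0, 0, 0⟩ v54; ok v55 && (
  let v56 := exp v55; ok v56 && (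
  let v57 := scale ⟨0, 0, 1099511627776, 0⟩ v56; ok v57 && (
  let v58 := scale ⟨0, 0, 1099511627776, 0⟩ x2; ok v58 && (
  let v59 := exp v58; ok v59 && (
  let v60 := mul v49 v59; ok v60 && (
  let v61 := sub v60 v19; ok v61 && (
  let v62 := log v61; ok v62 && (
  let v63 := scale ⟨549755813888, 0, 0, 0⟩ v62; ok v63 && (
  let v64 := exp v63; ok v64 && (
  let v65 := scale ⟨0, 0, 0, 1099511627776⟩ v64; ok v65 && (
  let v66 := mul x0 v47; ok v66 && (
  let v67 := add v44 v0; ok v67 && (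
  let v68 := mul v66 v67; ok v68 && (
  let v69 := mul v57 v65; ok v69 && (
  let v70 := add v19 v69; ok v70 && (
  let v71 := mul v68 v70; ok v71 && (
  let v72 := mul v44 v44; ok v72 && (
  let v73 := add v72 v0; ok v73 && (
  let v74 := add v57 v65; ok v74 && (
  let v75 := mul v73 v74; ok v75 && (
  let v76 := sub v71 v75; ok v76 && (
  isPos 3 v76 && (
  true)))))))))))))))))))))))))))))))))))))))))))))))))))))))))))))))))))))))))))))))
  | _ => false

set_option maxRecDepth 1000000 in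
theorem c_E1_1_eq (X : XOps) (m : List X.O.α)
    (h : c_E1_1 X.O.cst X.O.add X.O.sub X.O.mul X.O.scale X.O.neg X.O.inv X.O.exp X.O.log X.O.ok
      X.O.isPos X.O.isLt X.ball X.rball m = true) :
    runX X 3 p_E1_1 m = true := by
  match m, h with
  | [x0, x1, x2, x3], h => exact h

abbrev gE1 : List (List Op) := [(p1_E1 ++ reloc [30, 31, 0, 33] 34 0 p2_1), p_E1_1]

noncomputable abbrev kE1 : List (List xE.O.α → Bool) := [c_E1_0 xE.O.cst xE.O.add xE.O.sub xE.O.mul xE.O.scale xE.O.neg xE.O.inv xE.O.exp xE.O.log xE.O.ok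
      xE.O.isPos xE.O.isLt xE.ball xE.rball, c_E1_1 xE.O.cst xE.O.add xE.O.sub xE.O.mul xE.O.scale xE.O.neg xE.O.inv xE.O.exp xE.O.log xE.O.ok
      xE.O.isPos xE.O.isLt xE.ball xE.rball]

theorem kE1_eq : List.Forall₂ (fun (ops : List Op) (chk : List xE.O.α → Bool) =>
    ∀ m, chk m = true → runX xE 3 ops m = true) gE1 kE1 :=
  List.Forall₂.cons (c_E1_0_eq xE) (List.Forall₂.cons (c_E1_1_eq xE) List.Forall₂.nil)

theorem gE1_eq : gE1 = [circ (cE tab 1) (PSm tab 1), comp (oE tab 1) ρ4 4] := by decide +kernel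

end Pool.Agent.helper14.NS.Q100a
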