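import Pool.Agent.helper14.NS.Q100a.Tab
import Pool.Agent.helper14.NR.Share

/-!
Generated: programs and compiled forms.
-/

namespace Pool.Agent.helper14.NS.Q100a

open Pool.Agent.helper31.IA (Z)
open Pool.Agent.helper31.IX (Op XOps runX Cov CovD cov_split covD_split)
open Pool.Agent.helper31.IC (TD)
open Pool.Agent.helper63.RG (reloc)
open Pool.Agent.helper63.NF hiding TD
open Pool.Agent.helper4.NS
open Pool.Agent.helper14.CF (xE covD_E)
open Pool.Agent.helper14.NR (share)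

def p_Z_0 : List Op := [
  .const ⟨1099511627776, 0, 0, 0⟩,
  .mul 1 2,
  .scale ⟨2199023255552, 0, 0, 0⟩ 0,
  .exp 1,
  .neg 2,
  .exp 0,
  .mul 2 2,
  .mul 1 1,
  .mul 0 0,
  .add 2 1,
  .scale ⟨549755813888, 0, 0, 0⟩ 0,
  .scale ⟨2199023255552, 0, 0, 0⟩ 12,
  .mul 10 10,
  .lt 0 68719476736,
  .scale ⟨9162596898, 0, 0, 0⟩ 0,
  .const ⟨183251937962, 0, 0, 0⟩,
  .add 1 0,
  .mul 0 3,
  .const ⟨1099511627776, 0, 0, 0⟩,
  .add 1 0,
  .const ⟨65536, 0, 0, 0⟩,
  .rball 1 0,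
  .mul 9 0,
  .add 18 16,
  .scale ⟨549755813888, 0, 0, 0⟩ 0,
  .mul 2 0,
  .mul 3 3,
  .mul 26 0,
  .mul 2 2,
  .mul 28 0,
  .neg 17,
  .exp 0,
  .add 0 30,
  .pos 0,
  .log 0,
  .const ⟨9999220736, 0, 0, 0⟩,
  .sub 34 0,
  .mul 36 36,
  .mul 0 37,
  .mul 2 38,
  .mul 3 3,
  .scale ⟨0, 5453288960, 0, 0⟩ 40,
  .scale ⟨23746943488, 0, 0, 0⟩ 4,
  .add 1 0,
  .scale ⟨0, 35097650240, 0, 0⟩ 5,
  .add 1 0,
  .scale ⟨0, 1104418333888, 0, 0⟩ 9,
  .add 1 0,
  .scale ⟨0, 153407063616, 0, 0⟩ 8,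
  .add 1 0,
  .scale ⟨51486161619328, 0, 0, 0⟩ 9,
  .add 1 0,
  .const ⟨546885323392, 0, 0, 0⟩,
  .add 1 0,
  .scale ⟨243981568, 0, 0, 0⟩ 53,
  .scale ⟨0, 476635072, 0, 0⟩ 17,
  .add 1 0,
  .scale ⟨0, 143339214080, 0, 0⟩ 20,
  .add 1 0,
  .scale ⟨0, 359866960256, 0, 0⟩ 19,
  .add 1 0,
  .const ⟨0, 261787584, 0, 0⟩,
  .add 1 0,
  .scale ⟨0, 354055424, 0, 0⟩ 62,
  .scale ⟨780366016, 0, 0, 0⟩ 26,
  .add 1 0,
  .scale ⟨40707091648, 0, 0, 0⟩ 29,
  .add 1 0,
  .const ⟨0, 135675328, 0, 0⟩,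
  .add 1 0,
  .scale ⟨20811456, 0, 0, 0⟩ 69,
  .scale ⟨0, 9857520448, 0, 0⟩ 34,
  .add 1 0,
  .const ⟨67049280, 0, 0, 0⟩,
  .add 1 0,
  .scale ⟨0, 8563904, 0, 0⟩ 74,
  .const ⟨0, 7790016, 0, 0⟩,
  .add 1 0,
  .scale ⟨0, 0, 1099511627776, 0⟩ 78,
  .scale ⟨549755813888, 0, 0, 0⟩ 0,
  .add 0 77,
  .inv 0,
  .mul 3 0,
  .scale ⟨0, 715694437440, 0, 0⟩ 0,
  .const ⟨0, 19719990812224, 0, 0⟩,
  .add 1 0,
  .mul 3 0,
  .const ⟨40981172371904, 0, 0, 0⟩,
  .add 1 0,
  .mul 6 0,
  .const ⟨0, 62003602173312, 0, 0⟩,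
  .add 1 0,
  .mul 9 0,
  .const ⟨55815942989120, 0, 0, 0⟩,
  .add 1 0,
  .mul 12 0,
  .const ⟨0, 40914425804288, 0, 0⟩,
  .add 1 0,
  .mul 15 0,
  .scale ⟨0, 42830096320, 0, 0⟩ 98,
  .scale ⟨0, 187380545015936, 0, 0⟩ 63,
  .add 1 0,
  .const ⟨21111630828096, 0, 0, 0⟩,
  .add 1 0,
  .add 5 0,
  .mul 22 0,
  .scale ⟨63572741952, 0, 0, 0⟩ 105,
  .scale ⟨258695722428992, 0, 0, 0⟩ 70,
  .add 1 0,
  .const ⟨0, 8783661547840, 0, 0⟩,
  .add 1 0,
  .add 5 0,
  .mul 29 0,
  .scale ⟨0, 54563815488, 0, 0⟩ 112,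
  .scale ⟨0, 247959990427584, 0, 0⟩ 77,
  .add 1 0,
  .const ⟨2889960314624, 0, 0, 0⟩,
  .add 1 0,
  .add 5 0,
  .mul 36 0,
  .scale ⟨23414513024, 0, 0, 0⟩ 119,
  .scale ⟨89605643974144, 0, 0, 0⟩ 84,
  .add 1 0,
  .const ⟨105215852352, 0, 0, 0⟩,
  .add 1 0,
  .add 5 0,
  .mul 43 0,
  .scale ⟨0, 8834563456, 0, 0⟩ 126,
  .scale ⟨0, 42154594529344, 0, 0⟩ 91,
  .add 1 0,
  .const ⟨1708891246784, 0, 0, 0⟩,
  .add 1 0,
  .add 5 0,
  .mul 50 0,
  .scale ⟨3110648640, 0, 0, 0⟩ 133,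
  .scale ⟨3026482546496, 0, 0, 0⟩ 98,
  .add 1 0,
  .const ⟨3446755678400, 0, 0, 0⟩,
  .add 1 0,
  .add 5 0,
  .mul 57 0,
  .scale ⟨0, 37349739072, 0, 0⟩ 140,
  .scale ⟨264314271232, 0, 0, 0⟩ 104,
  .add 1 0,
  .scale ⟨0, 70935489792, 0, 0⟩ 107,
  .add 1 0,
  .scale ⟨5596366766208, 0, 0, 0⟩ 106,
  .add 1 0,
  .scale ⟨290739276008704, 0, 0, 0⟩ 107,
  .add 1 0,
  .const ⟨2956144768, 0, 0, 0⟩,
  .add 1 0,
  .mul 0 151,
  .add 12 0,
  .mul 152 152,
  .scale ⟨5703716569088, 0, 0, 0⟩ 0,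
  .const ⟨1726576852992, 0, 0, 0⟩,
  .add 1 0,
  .scale ⟨4398046511104, 0, 0, 0⟩ 157,
  .mul 76 1,
  .scale ⟨4398046511104, 0, 0, 0⟩ 0,
  .add 2 0,
  .scale ⟨494678900736, 0, 0, 0⟩ 161,
  .scale ⟨0, 1640736227328, 0, 0⟩ 125,
  .add 1 0,
  .scale ⟨8416782909440, 0, 0, 0⟩ 126,
  .add 1 0,
  .scale ⟨18550725541888, 0, 0, 0⟩ 130,
  .add 1 0,
  .scale ⟨0, 59334519095296, 0, 0⟩ 129,
  .add 1 0,
  .const ⟨189352378368, 0, 0, 0⟩,
  .add 1 0,
  .mul 0 11,
  .scale ⟨879662989312, 0, 0, 0⟩ 12,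
  .add 0 172,
  .pos 0,
  .inv 0,
  .mul 3 0,
  .neg 24,
  .exp 0,
  .add 0 177,
  .pos 0,
  .log 0,
  .mul 4 183,
  .sub 180 0,
  .pos 0,
  .log 0,
  .mul 5 2,
  .add 0 183,
  .pos 0,
  .log 0,
  .sub 6 0,
  .add 188 154,
  .sub 1 0,
  .mul 0 189,
  .exp 0,
  .sub 5 8,
  .add 0 40,
  .mul 0 193,
  .exp 0,
  .mul 173 173,
  .scale ⟨274877906944, 0, 0, 0⟩ 0,
  .mul 44 0,
  .scale ⟨1649267441664, 0, 0, 0⟩ 0,
  .add 0 198,
  .mul 44 0,
  .mul 203 0,
  .scale ⟨0, 0, 1099511627776, 0⟩ 0,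
  .mul 0 0,
  .sub 7 0,
  .mul 14 14,
  .mul 0 1,
  .mul 54 0,
  .scale ⟨4398046511104, 0, 0, 0⟩ 0,
  .sub 208 0,
  .pos 0,
  .log 0,
  .scale ⟨549755813888, 0, 0, 0⟩ 0,
  .exp 0,
  .mul 213 7,
  .mul 17 19,
  .scale ⟨2199023255552, 0, 0, 0⟩ 10,
  .add 1 0,
  .mul 3 0,
  .mul 15 5,
  .mul 28 0,
  .add 2 0,
  .mul 26 0,
  .scale ⟨4398046511104, 0, 0, 0⟩ 0,
  .mul 223 0,
  .add 0 223,
  .pos 0,
  .log 0,
  .scale ⟨549755813888, 0, 0, 0⟩ 0,
  .exp 0,
  .add 0 227,
  .pos 0,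
  .inv 0,
  .mul 7 0,
  .scale ⟨549755813888, 0, 0, 0⟩ 204,
  .sub 1 0,
  .const ⟨8293581848576, 0, 0, 0⟩,
  .add 206 0,
  .pos 0,
  .mul 2 2,
  .sub 0 208,
  .inv 2,
  .mul 1 0,
  .lt 0 1099510579200,
  .mul 239 48,
  .mul 0 37,
  .scale ⟨2199023255552, 0, 0, 0⟩ 0,
  .sub 29 0,
  .pos 0,
  .add 239 237,
  .mul 41 0,
  .mul 245 0,
  .add 0 235,
  .pos 0,
  .inv 0,
  .mul 237 3,
  .add 0 220,
  .mul 2 0,
  .pos 251,
  .inv 251,
  .sub 19 1,
  .mul 0 1,
  .add 9 229,
  .mul 247 8,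
  .inv 1,
  .mul 1 0,
  .mul 0 4,
  .mul 259 0,
  .add 0 259,
  .scale ⟨1515795578880, 0, 0, 0⟩ 262,
  .scale ⟨0, 380250554368, 0, 0⟩ 226,
  .add 1 0,
  .scale ⟨0, 7044112449536, 0, 0⟩ 227,
  .add 1 0,
  .scale ⟨0, 352536100864, 0, 0⟩ 231,
  .add 1 0,
  .scale ⟨85960894578688, 0, 0, 0⟩ 230,
  .add 1 0,
  .const ⟨1679998844928, 0, 0, 0⟩,
  .add 1 0,
  .scale ⟨2199023255552, 0, 0, 0⟩ 13,
  .inv 12,
  .mul 16 0,
  .mul 2 0,
  .mul 269 269,
  .inv 5,
  .mul 1 0,
  .mul 3 0,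
  .lt 0 1099510579200,
  .mul 280 47,
  .add 0 270,
  .pos 0,
  .inv 0,
  .mul 275 0,
  .sub 51 259,
  .add 277 2,
  .mul 1 0,
  .mul 3 0,
  .mul 280 263,
  .scale ⟨2199023255552, 0, 0, 0⟩ 0,
  .add 2 0,
  .scale ⟨0, 40973988003840, 0, 0⟩ 256,
  .const ⟨0, 745445261312, 0, 0⟩,
  .add 1 0,
  .sub 3 0,
  .pos 0,
  .inv 0,
  .scale ⟨31362867265536, 0, 0, 0⟩ 0,
  .add 2 0,
  .pos 0,
  .inv 0,
  .scale ⟨0, 16252709120, 0, 0⟩ 300,
  .scale ⟨7120625037824, 0, 0, 0⟩ 265,
  .add 1 0,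
  .const ⟨47951400192, 0, 0, 0⟩,
  .add 1 0,
  .scale ⟨157377140352, 0, 0, 0⟩ 305,
  .scale ⟨26838333179776, 0, 0, 0⟩ 270,
  .add 1 0,
  .const ⟨56195246528, 0, 0, 0⟩,
  .add 1 0,
  .mul 13 0,
  .add 6 0,
  .mul 0 12,
  .scale ⟨0, 7040, 0, 0⟩ 21,
  .const ⟨858624, 0, 0, 0⟩,
  .add 1 0,
  .mul 24 0,
  .add 0 240,
  .mul 26 0,
  .add 0 245,
  .mul 28 0,
  .add 0 252,
  .mul 30 0,
  .add 0 261,
  .mul 32 0,
  .add 12 272,
  .add 1 0,
  .mul 38 0,
  .add 0 315,
  .neg 0,
  .exp 0,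
  .add 0 329,
  .pos 0,
  .log 0,
  .add 180 152,
  .sub 0 1,
  .scale ⟨549755813888, 0, 0, 0⟩ 108,
  .mul 0 83,
  .sub 2 0,
  .exp 0,
  .scale ⟨91821899776, 0, 0, 0⟩ 257,
  .const ⟨0, 325480284160, 0, 0⟩,
  .add 1 0,
  .mul 260 0,
  .const ⟨271796404224, 0, 0, 0⟩,
  .add 1 0,
  .mul 263 0,
  .scale ⟨2393112576, 0, 0, 0⟩ 346,
  .scale ⟨8348485156864, 0, 0, 0⟩ 311,
  .add 1 0,
  .const ⟨0, 105875636224, 0, 0⟩,
  .add 1 0,
  .add 5 0,
  .mul 270 0,
  .scale ⟨3862036480, 0, 0, 0⟩ 353,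
  .scale ⟨1865054879744, 0, 0, 0⟩ 318,
  .add 1 0,
  .const ⟨47006089216, 0, 0, 0⟩,
  .add 1 0,
  .add 5 0,
  .mul 277 0,
  .scale ⟨273350656, 0, 0, 0⟩ 360,
  .scale ⟨13848674304, 0, 0, 0⟩ 324,
  .add 1 0,
  .scale ⟨790328573952, 0, 0, 0⟩ 327,
  .add 1 0,
  .scale ⟨2924011388928, 0, 0, 0⟩ 326,
  .add 1 0,
  .scale ⟨564286898503680, 0, 0, 0⟩ 327,
  .add 1 0,
  .const ⟨1093869371392, 0, 0, 0⟩,
  .add 1 0,
  .add 11 0,
  .inv 199,
  .mul 0 198,
  .scale ⟨1099511627776, 0, 0, 0⟩ 140,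
  .add 0 373,
  .pos 0,
  .scale ⟨145726570496, 0, 0, 0⟩ 376,
  .scale ⟨98520203264, 0, 0, 0⟩ 340,
  .add 1 0,
  .scale ⟨412677636096, 0, 0, 0⟩ 341,
  .add 1 0,
  .scale ⟨10650790330368, 0, 0, 0⟩ 345,
  .add 1 0,
  .scale ⟨0, 49230900232192, 0, 0⟩ 344,
  .add 1 0,
  .const ⟨115257966592, 0, 0, 0⟩,
  .add 1 0,
  .scale ⟨2199023255552, 0, 0, 0⟩ 0,
  .add 154 362,
  .mul 1 0,
  .inv 14,
  .mul 1 0,
  .const ⟨0, 0, 0, 0⟩,
  .mul 21 54,
  .mul 0 63,
  .mul 3 21,
  .mul 1 0,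
  .rball 4 0,
  .sub 396 26,
  .mul 401 0,
  .sub 398 61,
  .mul 0 27,
  .mul 30 0,
  .add 3 0,
  .add 0 6,
  .lt 0 1099510579200]

set_option maxRecDepth 1000000 in
noncomputable def c_Z_0 {α : Type} (cst : Z → α) (add sub mul : α → α → α) (scale : Z → α → α)
    (neg inv exp log : α → α) (ok : α → Bool) (isPos : Nat → α → Bool) (isLt : α → Nat → Bool)
    (ball : Nat → α → α) (rball : α → α → α) : List α → Bool
  | [x0, x1, x2, x3] =>
  let v0 := cst ⟨1099511627776, 0, 0, 0⟩; ok v0 && (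
  let v1 := mul x0 x1; ok v1 && (
  let v2 := scale ⟨2199023255552, 0, 0, 0⟩ v1; ok v2 && (
  let v3 := exp v1; ok v3 && (
  let v4 := neg v1; ok v4 && (
  let v5 := exp v4; ok v5 && (
  let v6 := mul v3 v3; ok v6 && (
  let v7 := mul v5 v5; ok v7 && (
  let v8 := mul v7 v7; ok v8 && (
  let v9 := add v6 v7; ok v9 && (
  let v10 := scale ⟨549755813888, 0, 0, 0⟩ v9; ok v10 && (
  let v11 := scale ⟨2199023255552, 0, 0, 0⟩ x1; ok v11 && (
  let v12 := mul v1 v1; ok v12 && (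
  isLt v12 68719476736 && (
  let v13 := scale ⟨9162596898, 0, 0, 0⟩ v12; ok v13 && (
  let v14 := cst ⟨183251937962, 0, 0, 0⟩; ok v14 && (
  let v15 := add v13 v14; ok v15 && (
  let v16 := mul v15 v12; ok v16 && (
  let v17 := cst ⟨1099511627776, 0, 0, 0⟩; ok v17 && (
  let v18 := add v16 v17; ok v18 && (
  let v19 := cst ⟨65536, 0, 0, 0⟩; ok v19 && (
  let v20 := rball v18 v19; ok v20 && (
  let v21 := mul v11 v20; ok v21 && (
  let v22 := add v3 v5; ok v22 && (
  let v23 := scale ⟨549755813888, 0, 0, 0⟩ v22; ok v23 && (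
  let v24 := mul v21 v23; ok v24 && (
  let v25 := mul v21 v21; ok v25 && (
  let v26 := mul x0 v25; ok v26 && (
  let v27 := mul v24 v24; ok v27 && (
  let v28 := mul x0 v27; ok v28 && (
  let v29 := neg v11; ok v29 && (
  let v30 := exp v29; ok v30 && (
  let v31 := add v30 v0; ok v31 && (
  isPos 3 v31 && (
  let v32 := log v31; ok v32 && (
  let v33 := cst ⟨9999220736, 0, 0, 0⟩; ok v33 && (
  let v34 := sub x0 v33; ok v34 && (
  let v35 := mul x1 x1; ok v35 && (
  let v36 := mul v35 x1; ok v36 && (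
  let v37 := mul v34 x1; ok v37 && (
  let v38 := mul v34 v34; ok v38 && (
  let v39 := scale ⟨0, 5453288960, 0, 0⟩ x1; ok v39 && (
  let v40 := scale ⟨23746943488, 0, 0, 0⟩ v35; ok v40 && (
  let v41 := add v39 v40; ok v41 && (
  let v42 := scale ⟨0, 35097650240, 0, 0⟩ v36; ok v42 && (
  let v43 := add v41 v42; ok v43 && (
  let v44 := scale ⟨0, 1104418333888, 0, 0⟩ v34; ok v44 && (
  let v45 := add v43 v44; ok v45 && (
  let v46 := scale ⟨0, 153407063616, 0, 0⟩ v37; ok v46 && (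
  let v47 := add v45 v46; ok v47 && (
  let v48 := scale ⟨51486161619328, 0, 0, 0⟩ v38; ok v48 && (
  let v49 := add v47 v48; ok v49 && (
  let v50 := cst ⟨546885323392, 0, 0, 0⟩; ok v50 && (
  let v51 := add v49 v50; ok v51 && (
  let v52 := scale ⟨243981568, 0, 0, 0⟩ x1; ok v52 && (
  let v53 := scale ⟨0, 476635072, 0, 0⟩ v35; ok v53 && (
  let v54 := add v52 v53; ok v54 && (
  let v55 := scale ⟨0, 143339214080, 0, 0⟩ v34; ok v55 && (
  let v56 := add v54 v55; ok v56 && (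
  let v57 := scale ⟨0, 359866960256, 0, 0⟩ v37; ok v57 && (
  let v58 := add v56 v57; ok v58 && (
  let v59 := cst ⟨0, 261787584, 0, 0⟩; ok v59 && (
  let v60 := add v58 v59; ok v60 && (
  let v61 := scale ⟨0, 354055424, 0, 0⟩ x1; ok v61 && (
  let v62 := scale ⟨780366016, 0, 0, 0⟩ v35; ok v62 && (
  let v63 := add v61 v62; ok v63 && (
  let v64 := scale ⟨40707091648, 0, 0, 0⟩ v34; ok v64 && (
  let v65 := add v63 v64; ok v65 && (
  let v66 := cst ⟨0, 135675328, 0, 0⟩; ok v66 && (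
  let v67 := add v65 v66; ok v67 && (
  let v68 := scale ⟨20811456, 0, 0, 0⟩ x1; ok v68 && (
  let v69 := scale ⟨0, 9857520448, 0, 0⟩ v34; ok v69 && (
  let v70 := add v68 v69; ok v70 && (
  let v71 := cst ⟨67049280, 0, 0, 0⟩; ok v71 && (
  let v72 := add v70 v71; ok v72 && (
  let v73 := scale ⟨0, 8563904, 0, 0⟩ x1; ok v73 && (
  let v74 := cst ⟨0, 7790016, 0, 0⟩; ok v74 && (
  let v75 := add v73 v74; ok v75 && (
  let v76 := scale ⟨0, 0, 1099511627776, 0⟩ x2; ok v76 && (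
  let v77 := scale ⟨549755813888, 0, 0, 0⟩ v76; ok v77 && (
  let v78 := add v77 v0; ok v78 && (
  let v79 := inv v78; ok v79 && (
  let v80 := mul v76 v79; ok v80 && (
  let v81 := scale ⟨0, 715694437440, 0, 0⟩ v80; ok v81 && (
  let v82 := cst ⟨0, 19719990812224, 0, 0⟩; ok v82 && (
  let v83 := add v81 v82; ok v83 && (
  let v84 := mul v80 v83; ok v84 && (
  let v85 := cst ⟨40981172371904, 0, 0, 0⟩; ok v85 && (
  let v86 := add v84 v85; ok v86 && (
  let v87 := mul v80 v86; ok v87 && (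
  let v88 := cst ⟨0, 62003602173312, 0, 0⟩; ok v88 && (
  let v89 := add v87 v88; ok v89 && (
  let v90 := mul v80 v89; ok v90 && (
  let v91 := cst ⟨55815942989120, 0, 0, 0⟩; ok v91 && (
  let v92 := add v90 v91; ok v92 && (
  let v93 := mul v80 v92; ok v93 && (
  let v94 := cst ⟨0, 40914425804288, 0, 0⟩; ok v94 && (
  let v95 := add v93 v94; ok v95 && (
  let v96 := mul v80 v95; ok v96 && (
  let v97 := scale ⟨0, 42830096320, 0, 0⟩ x1; ok v97 && (
  let v98 := scale ⟨0, 187380545015936, 0, 0⟩ v34; ok v98 && (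
  let v99 := add v97 v98; ok v99 && (
  let v100 := cst ⟨21111630828096, 0, 0, 0⟩; ok v100 && (
  let v101 := add v99 v100; ok v101 && (
  let v102 := add v96 v101; ok v102 && (
  let v103 := mul v80 v102; ok v103 && (
  let v104 := scale ⟨63572741952, 0, 0, 0⟩ x1; ok v104 && (
  let v105 := scale ⟨258695722428992, 0, 0, 0⟩ v34; ok v105 && (
  let v106 := add v104 v105; ok v106 && (
  let v107 := cst ⟨0, 8783661547840, 0, 0⟩; ok v107 && (
  let v108 := add v106 v107; ok v108 && (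
  let v109 := add v103 v108; ok v109 && (
  let v110 := mul v80 v109; ok v110 && (
  let v111 := scale ⟨0, 54563815488, 0, 0⟩ x1; ok v111 && (
  let v112 := scale ⟨0, 247959990427584, 0, 0⟩ v34; ok v112 && (
  let v113 := add v111 v112; ok v113 && (
  let v114 := cst ⟨2889960314624, 0, 0, 0⟩; ok v114 && (
  let v115 := add v113 v114; ok v115 && (
  let v116 := add v110 v115; ok v116 && (
  let v117 := mul v80 v116; ok v117 && (
  let v118 := scale ⟨23414513024, 0, 0, 0⟩ x1; ok v118 && (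
  let v119 := scale ⟨89605643974144, 0, 0, 0⟩ v34; ok v119 && (
  let v120 := add v118 v119; ok v120 && (
  let v121 := cst ⟨105215852352, 0, 0, 0⟩; ok v121 && (
  let v122 := add v120 v121; ok v122 && (
  let v123 := add v117 v122; ok v123 && (
  let v124 := mul v80 v123; ok v124 && (
  let v125 := scale ⟨0, 8834563456, 0, 0⟩ x1; ok v125 && (
  let v126 := scale ⟨0, 42154594529344, 0, 0⟩ v34; ok v126 && (
  let v127 := add v125 v126; ok v127 && (
  let v128 := cst ⟨1708891246784, 0, 0, 0⟩; ok v128 && (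
  let v129 := add v127 v128; ok v129 && (
  let v130 := add v124 v129; ok v130 && (
  let v131 := mul v80 v130; ok v131 && (
  let v132 := scale ⟨3110648640, 0, 0, 0⟩ x1; ok v132 && (
  let v133 := scale ⟨3026482546496, 0, 0, 0⟩ v34; ok v133 && (
  let v134 := add v132 v133; ok v134 && (
  let v135 := cst ⟨3446755678400, 0, 0, 0⟩; ok v135 && (
  let v136 := add v134 v135; ok v136 && (
  let v137 := add v131 v136; ok v137 && (
  let v138 := mul v80 v137; ok v138 && (
  let v139 := scale ⟨0, 37349739072, 0, 0⟩ x1; ok v139 && (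
  let v140 := scale ⟨264314271232, 0, 0, 0⟩ v35; ok v140 && (
  let v141 := add v139 v140; ok v141 && (
  let v142 := scale ⟨0, 70935489792, 0, 0⟩ v34; ok v142 && (
  let v143 := add v141 v142; ok v143 && (
  let v144 := scale ⟨5596366766208, 0, 0, 0⟩ v37; ok v144 && (
  let v145 := add v143 v144; ok v145 && (
  let v146 := scale ⟨290739276008704, 0, 0, 0⟩ v38; ok v146 && (
  let v147 := add v145 v146; ok v147 && (
  let v148 := cst ⟨2956144768, 0, 0, 0⟩; ok v148 && (
  let v149 := add v147 v148; ok v149 && (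
  let v150 := mul v149 x1; ok v150 && (
  let v151 := add v138 v150; ok v151 && (
  let v152 := mul x0 x0; ok v152 && (
  let v153 := scale ⟨5703716569088, 0, 0, 0⟩ v152; ok v153 && (
  let v154 := cst ⟨1726576852992, 0, 0, 0⟩; ok v154 && (
  let v155 := add v153 v154; ok v155 && (
  let v156 := scale ⟨4398046511104, 0, 0, 0⟩ x1; ok v156 && (
  let v157 := mul v80 v155; ok v157 && (
  let v158 := scale ⟨4398046511104, 0, 0, 0⟩ v157; ok v158 && (
  let v159 := add v156 v158; ok v159 && (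
  let v160 := scale ⟨494678900736, 0, 0, 0⟩ x1; ok v160 && (
  let v161 := scale ⟨0, 1640736227328, 0, 0⟩ v35; ok v161 && (
  let v162 := add v160 v161; ok v162 && (
  let v163 := scale ⟨8416782909440, 0, 0, 0⟩ v36; ok v163 && (
  let v164 := add v162 v163; ok v164 && (
  let v165 := scale ⟨18550725541888, 0, 0, 0⟩ v34; ok v165 && (
  let v166 := add v164 v165; ok v166 && (
  let v167 := scale ⟨0, 59334519095296, 0, 0⟩ v37; ok v167 && (
  let v168 := add v166 v167; ok v168 && (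
  let v169 := cst ⟨189352378368, 0, 0, 0⟩; ok v169 && (
  let v170 := add v168 v169; ok v170 && (
  let v171 := mul v170 v159; ok v171 && (
  let v172 := scale ⟨879662989312, 0, 0, 0⟩ v159; ok v172 && (
  let v173 := add v172 v0; ok v173 && (
  isPos 3 v173 && (
  let v174 := inv v173; ok v174 && (
  let v175 := mul v171 v174; ok v175 && (
  let v176 := neg v151; ok v176 && (
  let v177 := exp v176; ok v177 && (
  let v178 := add v177 v0; ok v178 && (
  isPos 3 v178 && (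
  let v179 := log v178; ok v179 && (
  let v180 := mul v175 x3; ok v180 && (
  let v181 := sub v0 v180; ok v181 && (
  isPos 3 v181 && (
  let v182 := log v181; ok v182 && (
  let v183 := mul v177 v180; ok v183 && (
  let v184 := add v183 v0; ok v184 && (
  isPos 3 v184 && (
  let v185 := log v184; ok v185 && (
  let v186 := sub v179 v185; ok v186 && (
  let v187 := add x1 v32; ok v187 && (
  let v188 := sub v186 v187; ok v188 && (
  let v189 := mul v188 x0; ok v189 && (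
  let v190 := exp v189; ok v190 && (
  let v191 := sub v185 v182; ok v191 && (
  let v192 := add v191 v151; ok v192 && (
  let v193 := mul v192 x0; ok v193 && (
  let v194 := exp v193; ok v194 && (
  let v195 := mul v21 v21; ok v195 && (
  let v196 := scale ⟨274877906944, 0, 0, 0⟩ v195; ok v196 && (
  let v197 := mul v152 v196; ok v197 && (
  let v198 := scale ⟨1649267441664, 0, 0, 0⟩ v197; ok v198 && (
  let v199 := add v198 v0; ok v199 && (
  let v200 := mul v155 v199; ok v200 && (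
  let v201 := mul x2 v200; ok v201 && (
  let v202 := scale ⟨0, 0, 1099511627776, 0⟩ v201; ok v202 && (
  let v203 := mul v202 v202; ok v203 && (
  let v204 := sub v196 v203; ok v204 && (
  let v205 := mul v190 v190; ok v205 && (
  let v206 := mul v205 v204; ok v206 && (
  let v207 := mul v152 v206; ok v207 && (
  let v208 := scale ⟨4398046511104, 0, 0, 0⟩ v207; ok v208 && (
  let v209 := sub v0 v208; ok v209 && (
  isPos 3 v209 && (
  let v210 := log v209; ok v210 && (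
  let v211 := scale ⟨549755813888, 0, 0, 0⟩ v210; ok v211 && (
  let v212 := exp v211; ok v212 && (
  let v213 := mul x0 v205; ok v213 && (
  let v214 := mul v196 v194; ok v214 && (
  let v215 := scale ⟨2199023255552, 0, 0, 0⟩ v204; ok v215 && (
  let v216 := add v214 v215; ok v216 && (
  let v217 := mul v213 v216; ok v217 && (
  let v218 := mul v202 v212; ok v218 && (
  let v219 := mul v190 v218; ok v219 && (
  let v220 := add v217 v219; ok v220 && (
  let v221 := mul v194 v220; ok v221 && (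
  let v222 := scale ⟨4398046511104, 0, 0, 0⟩ v221; ok v222 && (
  let v223 := mul x0 v222; ok v223 && (
  let v224 := add v223 v0; ok v224 && (
  isPos 3 v224 && (
  let v225 := log v224; ok v225 && (
  let v226 := scale ⟨549755813888, 0, 0, 0⟩ v225; ok v226 && (
  let v227 := exp v226; ok v227 && (
  let v228 := add v227 v0; ok v228 && (
  isPos 3 v228 && (
  let v229 := inv v228; ok v229 && (
  let v230 := mul v222 v229; ok v230 && (
  let v231 := scale ⟨549755813888, 0, 0, 0⟩ v26; ok v231 && (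
  let v232 := sub v230 v231; ok v232 && (
  let v233 := cst ⟨8293581848576, 0, 0, 0⟩; ok v233 && (
  let v234 := add v27 v233; ok v234 && (
  isPos 3 v234 && (
  let v235 := mul v232 v232; ok v235 && (
  let v236 := sub v235 v27; ok v236 && (
  let v237 := inv v234; ok v237 && (
  let v238 := mul v236 v237; ok v238 && (
  isLt v238 1099510579200 && (
  let v239 := mul x0 v190; ok v239 && (
  let v240 := mul v239 v202; ok v240 && (
  let v241 := scale ⟨2199023255552, 0, 0, 0⟩ v240; ok v241 && (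
  let v242 := sub v212 v241; ok v242 && (
  isPos 3 v242 && (
  let v243 := add v3 v5; ok v243 && (
  let v244 := mul v202 v243; ok v244 && (
  let v245 := mul x0 v244; ok v245 && (
  let v246 := add v245 v10; ok v246 && (
  isPos 3 v246 && (
  let v247 := inv v246; ok v247 && (
  let v248 := mul v10 v244; ok v248 && (
  let v249 := add v248 v28; ok v249 && (
  let v250 := mul v247 v249; ok v250 && (
  isPos 3 x0 && (
  let v251 := inv x0; ok v251 && (
  let v252 := sub v232 v250; ok v252 && (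
  let v253 := mul v252 v251; ok v253 && (
  let v254 := add v244 v24; ok v254 && (
  let v255 := mul v7 v246; ok v255 && (
  let v256 := inv v254; ok v256 && (
  let v257 := mul v255 v256; ok v257 && (
  let v258 := mul v257 v253; ok v258 && (
  let v259 := mul x0 v258; ok v259 && (
  let v260 := add v259 v0; ok v260 && (
  let v261 := scale ⟨1515795578880, 0, 0, 0⟩ x1; ok v261 && (
  let v262 := scale ⟨0, 380250554368, 0, 0⟩ v35; ok v262 && (
  let v263 := add v261 v262; ok v263 && (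
  let v264 := scale ⟨0, 7044112449536, 0, 0⟩ v36; ok v264 && (
  let v265 := add v263 v264; ok v265 && (
  let v266 := scale ⟨0, 352536100864, 0, 0⟩ v34; ok v266 && (
  let v267 := add v265 v266; ok v267 && (
  let v268 := scale ⟨85960894578688, 0, 0, 0⟩ v37; ok v268 && (
  let v269 := add v267 v268; ok v269 && (
  let v270 := cst ⟨1679998844928, 0, 0, 0⟩; ok v270 && (
  let v271 := add v269 v270; ok v271 && (
  let v272 := scale ⟨2199023255552, 0, 0, 0⟩ v258; ok v272 && (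
  let v273 := inv v260; ok v273 && (
  let v274 := mul v257 v273; ok v274 && (
  let v275 := mul v272 v274; ok v275 && (
  let v276 := mul v6 v6; ok v276 && (
  let v277 := inv v271; ok v277 && (
  let v278 := mul v276 v277; ok v278 && (
  let v279 := mul v275 v278; ok v279 && (
  isLt v279 1099510579200 && (
  let v280 := mul x0 v232; ok v280 && (
  let v281 := add v280 v10; ok v281 && (
  isPos 3 v281 && (
  let v282 := inv v281; ok v282 && (
  let v283 := mul v7 v282; ok v283 && (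
  let v284 := sub v232 v24; ok v284 && (
  let v285 := add v7 v282; ok v285 && (
  let v286 := mul v284 v285; ok v286 && (
  let v287 := mul v283 v286; ok v287 && (
  let v288 := mul v7 v24; ok v288 && (
  let v289 := scale ⟨2199023255552, 0, 0, 0⟩ v288; ok v289 && (
  let v290 := add v287 v289; ok v290 && (
  let v291 := scale ⟨0, 40973988003840, 0, 0⟩ v34; ok v291 && (
  let v292 := cst ⟨0, 745445261312, 0, 0⟩; ok v292 && (
  let v293 := add v291 v292; ok v293 && (
  let v294 := sub v290 v293; ok v294 && (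
  isPos 3 v294 && (
  let v295 := inv v294; ok v295 && (
  let v296 := scale ⟨31362867265536, 0, 0, 0⟩ v295; ok v296 && (
  let v297 := add v294 v296; ok v297 && (
  isPos 3 v297 && (
  let v298 := inv v297; ok v298 && (
  let v299 := scale ⟨0, 16252709120, 0, 0⟩ x1; ok v299 && (
  let v300 := scale ⟨7120625037824, 0, 0, 0⟩ v34; ok v300 && (
  let v301 := add v299 v300; ok v301 && (
  let v302 := cst ⟨47951400192, 0, 0, 0⟩; ok v302 && (
  let v303 := add v301 v302; ok v303 && (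
  let v304 := scale ⟨157377140352, 0, 0, 0⟩ x1; ok v304 && (
  let v305 := scale ⟨26838333179776, 0, 0, 0⟩ v34; ok v305 && (
  let v306 := add v304 v305; ok v306 && (
  let v307 := cst ⟨56195246528, 0, 0, 0⟩; ok v307 && (
  let v308 := add v306 v307; ok v308 && (
  let v309 := mul v295 v308; ok v309 && (
  let v310 := add v303 v309; ok v310 && (
  let v311 := mul v310 v298; ok v311 && (
  let v312 := scale ⟨0, 7040, 0, 0⟩ v290; ok v312 && (
  let v313 := cst ⟨858624, 0, 0, 0⟩; ok v313 && (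
  let v314 := add v312 v313; ok v314 && (
  let v315 := mul v290 v314; ok v315 && (
  let v316 := add v315 v75; ok v316 && (
  let v317 := mul v290 v316; ok v317 && (
  let v318 := add v317 v72; ok v318 && (
  let v319 := mul v290 v318; ok v319 && (
  let v320 := add v319 v67; ok v320 && (
  let v321 := mul v290 v320; ok v321 && (
  let v322 := add v321 v60; ok v322 && (
  let v323 := mul v290 v322; ok v323 && (
  let v324 := add v311 v51; ok v324 && (
  let v325 := add v323 v324; ok v325 && (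
  let v326 := mul v287 v325; ok v326 && (
  let v327 := add v326 v11; ok v327 && (
  let v328 := neg v327; ok v328 && (
  let v329 := exp v328; ok v329 && (
  let v330 := add v329 v0; ok v330 && (
  isPos 3 v330 && (
  let v331 := log v330; ok v331 && (
  let v332 := add v151 v179; ok v332 && (
  let v333 := sub v332 v331; ok v333 && (
  let v334 := scale ⟨549755813888, 0, 0, 0⟩ v225; ok v334 && (
  let v335 := mul v334 v251; ok v335 && (
  let v336 := sub v333 v335; ok v336 && (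
  let v337 := exp v336; ok v337 && (
  let v338 := scale ⟨91821899776, 0, 0, 0⟩ v80; ok v338 && (
  let v339 := cst ⟨0, 325480284160, 0, 0⟩; ok v339 && (
  let v340 := add v338 v339; ok v340 && (
  let v341 := mul v80 v340; ok v341 && (
  let v342 := cst ⟨271796404224, 0, 0, 0⟩; ok v342 && (
  let v343 := add v341 v342; ok v343 && (
  let v344 := mul v80 v343; ok v344 && (
  let v345 := scale ⟨2393112576, 0, 0, 0⟩ x1; ok v345 && (
  let v346 := scale ⟨8348485156864, 0, 0, 0⟩ v34; ok v346 && (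
  let v347 := add v345 v346; ok v347 && (
  let v348 := cst ⟨0, 105875636224, 0, 0⟩; ok v348 && (
  let v349 := add v347 v348; ok v349 && (
  let v350 := add v344 v349; ok v350 && (
  let v351 := mul v80 v350; ok v351 && (
  let v352 := scale ⟨3862036480, 0, 0, 0⟩ x1; ok v352 && (
  let v353 := scale ⟨1865054879744, 0, 0, 0⟩ v34; ok v353 && (
  let v354 := add v352 v353; ok v354 && (
  let v355 := cst ⟨47006089216, 0, 0, 0⟩; ok v355 && (
  let v356 := add v354 v355; ok v356 && (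
  let v357 := add v351 v356; ok v357 && (
  let v358 := mul v80 v357; ok v358 && (
  let v359 := scale ⟨273350656, 0, 0, 0⟩ x1; ok v359 && (
  let v360 := scale ⟨13848674304, 0, 0, 0⟩ v35; ok v360 && (
  let v361 := add v359 v360; ok v361 && (
  let v362 := scale ⟨790328573952, 0, 0, 0⟩ v34; ok v362 && (
  let v363 := add v361 v362; ok v363 && (
  let v364 := scale ⟨2924011388928, 0, 0, 0⟩ v37; ok v364 && (
  let v365 := add v363 v364; ok v365 && (
  let v366 := scale ⟨564286898503680, 0, 0, 0⟩ v38; ok v366 && (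
  let v367 := add v365 v366; ok v367 && (
  let v368 := cst ⟨1093869371392, 0, 0, 0⟩; ok v368 && (
  let v369 := add v367 v368; ok v369 && (
  let v370 := add v358 v369; ok v370 && (
  let v371 := inv v171; ok v371 && (
  let v372 := mul v371 v173; ok v372 && (
  let v373 := scale ⟨1099511627776, 0, 0, 0⟩ v232; ok v373 && (
  let v374 := add v373 v0; ok v374 && (
  isPos 3 v374 && (
  let v375 := scale ⟨145726570496, 0, 0, 0⟩ x1; ok v375 && (
  let v376 := scale ⟨98520203264, 0, 0, 0⟩ v35; ok v376 && (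
  let v377 := add v375 v376; ok v377 && (
  let v378 := scale ⟨412677636096, 0, 0, 0⟩ v36; ok v378 && (
  let v379 := add v377 v378; ok v379 && (
  let v380 := scale ⟨10650790330368, 0, 0, 0⟩ v34; ok v380 && (
  let v381 := add v379 v380; ok v381 && (
  let v382 := scale ⟨0, 49230900232192, 0, 0⟩ v37; ok v382 && (
  let v383 := add v381 v382; ok v383 && (
  let v384 := cst ⟨115257966592, 0, 0, 0⟩; ok v384 && (
  let v385 := add v383 v384; ok v385 && (
  let v386 := scale ⟨2199023255552, 0, 0, 0⟩ v385; ok v386 && (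
  let v387 := add v232 v24; ok v387 && (
  let v388 := mul v386 v387; ok v388 && (
  let v389 := inv v374; ok v389 && (
  let v390 := mul v388 v389; ok v390 && (
  let v391 := cst ⟨0, 0, 0, 0⟩; ok v391 && (
  let v392 := mul v370 v337; ok v392 && (
  let v393 := mul v392 v329; ok v393 && (
  let v394 := mul v390 v372; ok v394 && (
  let v395 := mul v393 v394; ok v395 && (
  let v396 := rball v391 v395; ok v396 && (
  let v397 := sub v0 v370; ok v397 && (
  let v398 := mul x3 v397; ok v398 && (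
  let v399 := sub v0 v337; ok v399 && (
  let v400 := mul v399 v372; ok v400 && (
  let v401 := mul v370 v400; ok v401 && (
  let v402 := add v398 v401; ok v402 && (
  let v403 := add v402 v396; ok v403 && (
  isLt v403 1099510579200 && (
  true)))))))))))))))))))))))))))))))))))))))))))))))))))))))))))))))))))))))))))))))))))))))))))))))))))))))))))))))))))))))))))))))))))))))))))))))))))))))))))))))))))))))))))))))))))))))))))))))))))))))))))))))))))))))))))))))))))))))))))))))))))))))))))))))))))))))))))))))))))))))))))))))))))))))))))))))))))))))))))))))))))))))))))))))))))))))))))))))))))))))))))))))))))))))))))))))))))))))))))))))))))))))))))))))))))))))))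
  | _ => false

set_option maxRecDepth 1000000 in
theorem c_Z_0_eq (X : XOps) (m : List X.O.α)
    (h : c_Z_0 X.O.cst X.O.add X.O.sub X.O.mul X.O.scale X.O.neg X.O.inv X.O.exp X.O.log X.O.ok
      X.O.isPos X.O.isLt X.ball X.rball m = true) :
    runX X 3 p_Z_0 m = true := by
  match m, h with
  | [x0, x1, x2, x3], h => exact h

abbrev gZ : List (List Op) := [p_Z_0]

noncomputable abbrev kZ : List (List xE.O.α → Bool) := [c_Z_0 xE.O.cst xE.O.add xE.O.sub xE.O.mul xE.O.scale xE.O.neg xE.O.inv xE.O.exp xE.O.log xE.O.ok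
      xE.O.isPos xE.O.isLt xE.ball xE.rball]

theorem kZ_eq : List.Forall₂ (fun (ops : List Op) (chk : List xE.O.α → Bool) =>
    ∀ m, chk m = true → runX xE 3 ops m = true) gZ kZ :=
  List.Forall₂.cons (c_Z_0_eq xE) List.Forall₂.nil

theorem gZ_eq : gZ = [comp (PS0 tab) ρ4 4] := by decide +kernel

def p_T_0 : List Op := [
  .const ⟨1099511627776, 0, 0, 0⟩,
  .mul 1 2,
  .scale ⟨2199023255552, 0, 0, 0⟩ 0,
  .exp 1,
  .neg 2,
  .exp 0,
  .mul 2 2,
  .mul 1 1,
  .mul 0 0,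
  .add 2 1,
  .scale ⟨549755813888, 0, 0, 0⟩ 0,
  .scale ⟨2199023255552, 0, 0, 0⟩ 12,
  .mul 10 10,
  .lt 0 68719476736,
  .scale ⟨9162596898, 0, 0, 0⟩ 0,
  .const ⟨183251937962, 0, 0, 0⟩,
  .add 1 0,
  .mul 0 3,
  .const ⟨1099511627776, 0, 0, 0⟩,
  .add 1 0,
  .const ⟨65536, 0, 0, 0⟩,
  .rball 1 0,
  .mul 9 0,
  .add 18 16,
  .scale ⟨549755813888, 0, 0, 0⟩ 0,
  .mul 2 0,
  .mul 3 3,
  .mul 26 0,
  .mul 2 2,
  .mul 28 0,
  .neg 17,
  .exp 0,
  .add 0 30,
  .pos 0,
  .log 0,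
  .const ⟨9999220736, 0, 0, 0⟩,
  .sub 34 0,
  .mul 36 36,
  .mul 0 37,
  .mul 2 38,
  .mul 3 3,
  .const ⟨962072674304, 0, 0, 0⟩,
  .scale ⟨0, 0, 1099511627776, 0⟩ 0,
  .scale ⟨549755813888, 0, 0, 0⟩ 0,
  .add 0 41,
  .inv 0,
  .mul 3 0,
  .scale ⟨0, 715694437440, 0, 0⟩ 0,
  .const ⟨0, 19719990812224, 0, 0⟩,
  .add 1 0,
  .mul 3 0,
  .const ⟨40981172371904, 0, 0, 0⟩,
  .add 1 0,
  .mul 6 0,
  .const ⟨0, 62003602173312, 0, 0⟩,
  .add 1 0,
  .mul 9 0,
  .const ⟨55815942989120, 0, 0, 0⟩,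
  .add 1 0,
  .mul 12 0,
  .const ⟨0, 40914425804288, 0, 0⟩,
  .add 1 0,
  .mul 15 0,
  .scale ⟨0, 42830096320, 0, 0⟩ 62,
  .scale ⟨0, 187380545015936, 0, 0⟩ 27,
  .add 1 0,
  .const ⟨21111630828096, 0, 0, 0⟩,
  .add 1 0,
  .add 5 0,
  .mul 22 0,
  .scale ⟨63572741952, 0, 0, 0⟩ 69,
  .scale ⟨258695722428992, 0, 0, 0⟩ 34,
  .add 1 0,
  .const ⟨0, 8783661547840, 0, 0⟩,
  .add 1 0,
  .add 5 0,
  .mul 29 0,
  .scale ⟨0, 54563815488, 0, 0⟩ 76,
  .scale ⟨0, 247959990427584, 0, 0⟩ 41,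
  .add 1 0,
  .const ⟨2889960314624, 0, 0, 0⟩,
  .add 1 0,
  .add 5 0,
  .mul 36 0,
  .scale ⟨23414513024, 0, 0, 0⟩ 83,
  .scale ⟨89605643974144, 0, 0, 0⟩ 48,
  .add 1 0,
  .const ⟨105215852352, 0, 0, 0⟩,
  .add 1 0,
  .add 5 0,
  .mul 43 0,
  .scale ⟨0, 8834563456, 0, 0⟩ 90,
  .scale ⟨0, 42154594529344, 0, 0⟩ 55,
  .add 1 0,
  .const ⟨1708891246784, 0, 0, 0⟩,
  .add 1 0,
  .add 5 0,
  .mul 50 0,
  .scale ⟨3110648640, 0, 0, 0⟩ 97,
  .scale ⟨3026482546496, 0, 0, 0⟩ 62,
  .add 1 0,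
  .const ⟨3446755678400, 0, 0, 0⟩,
  .add 1 0,
  .add 5 0,
  .mul 57 0,
  .scale ⟨0, 37349739072, 0, 0⟩ 104,
  .scale ⟨264314271232, 0, 0, 0⟩ 68,
  .add 1 0,
  .scale ⟨0, 70935489792, 0, 0⟩ 71,
  .add 1 0,
  .scale ⟨5596366766208, 0, 0, 0⟩ 70,
  .add 1 0,
  .scale ⟨290739276008704, 0, 0, 0⟩ 71,
  .add 1 0,
  .const ⟨2956144768, 0, 0, 0⟩,
  .add 1 0,
  .mul 0 115,
  .add 12 0,
  .mul 116 116,
  .scale ⟨5703716569088, 0, 0, 0⟩ 0,
  .const ⟨1726576852992, 0, 0, 0⟩,
  .add 1 0,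
  .scale ⟨4398046511104, 0, 0, 0⟩ 121,
  .mul 76 1,
  .scale ⟨4398046511104, 0, 0, 0⟩ 0,
  .add 2 0,
  .scale ⟨494678900736, 0, 0, 0⟩ 125,
  .scale ⟨0, 1640736227328, 0, 0⟩ 89,
  .add 1 0,
  .scale ⟨8416782909440, 0, 0, 0⟩ 90,
  .add 1 0,
  .scale ⟨18550725541888, 0, 0, 0⟩ 94,
  .add 1 0,
  .scale ⟨0, 59334519095296, 0, 0⟩ 93,
  .add 1 0,
  .const ⟨189352378368, 0, 0, 0⟩,
  .add 1 0,
  .mul 0 11,
  .scale ⟨879662989312, 0, 0, 0⟩ 12,
  .add 0 136,
  .pos 0,
  .inv 0,
  .mul 3 0,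
  .neg 24,
  .exp 0,
  .add 0 141,
  .pos 0,
  .log 0,
  .mul 4 146,
  .sub 144 0,
  .pos 0,
  .log 0,
  .mul 5 2,
  .add 0 147,
  .pos 0,
  .log 0,
  .sub 6 0,
  .add 152 118,
  .sub 1 0,
  .mul 0 153,
  .exp 0,
  .sub 5 8,
  .add 0 40,
  .mul 0 157,
  .exp 0,
  .mul 137 137,
  .scale ⟨274877906944, 0, 0, 0⟩ 0,
  .mul 44 0,
  .scale ⟨1649267441664, 0, 0, 0⟩ 0,
  .add 0 162,
  .mul 44 0,
  .mul 125 0,
  .scale ⟨0, 0, 1099511627776, 0⟩ 0,
  .mul 0 0,
  .sub 7 0,
  .mul 14 14,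
  .mul 0 1,
  .mul 54 0,
  .scale ⟨4398046511104, 0, 0, 0⟩ 0,
  .sub 172 0,
  .pos 0,
  .log 0,
  .scale ⟨549755813888, 0, 0, 0⟩ 0,
  .exp 0,
  .mul 177 22,
  .mul 0 11,
  .scale ⟨2199023255552, 0, 0, 0⟩ 0,
  .sub 3 0,
  .pos 0,
  .pos 181,
  .inv 181,
  .const ⟨549755813888, 0, 0, 0⟩,
  .sub 33 39,
  .log 3,
  .mul 0 3,
  .add 2 0,
  .exp 0,
  .sub 5 0,
  .pos 0]

set_option maxRecDepth 1000000 in
noncomputable def c_T_0 {α : Type} (cst : Z → α) (add sub mul : α → α → α) (scale : Z → α → α)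
    (neg inv exp log : α → α) (ok : α → Bool) (isPos : Nat → α → Bool) (isLt : α → Nat → Bool)
    (ball : Nat → α → α) (rball : α → α → α) : List α → Bool
  | [x0, x1, x2] =>
  let v0 := cst ⟨1099511627776, 0, 0, 0⟩; ok v0 && (
  let v1 := mul x0 x1; ok v1 && (
  let v2 := scale ⟨2199023255552, 0, 0, 0⟩ v1; ok v2 && (
  let v3 := exp v1; ok v3 && (
  let v4 := neg v1; ok v4 && (
  let v5 := exp v4; ok v5 && (
  let v6 := mul v3 v3; ok v6 && (
  let v7 := mul v5 v5; ok v7 && (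
  let v8 := mul v7 v7; ok v8 && (
  let v9 := add v6 v7; ok v9 && (
  let v10 := scale ⟨549755813888, 0, 0, 0⟩ v9; ok v10 && (
  let v11 := scale ⟨2199023255552, 0, 0, 0⟩ x1; ok v11 && (
  let v12 := mul v1 v1; ok v12 && (
  isLt v12 68719476736 && (
  let v13 := scale ⟨9162596898, 0, 0, 0⟩ v12; ok v13 && (
  let v14 := cst ⟨183251937962, 0, 0, 0⟩; ok v14 && (
  let v15 := add v13 v14; ok v15 && (
  let v16 := mul v15 v12; ok v16 && (
  let v17 := cst ⟨1099511627776, 0, 0, 0⟩; ok v17 && (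
  let v18 := add v16 v17; ok v18 && (
  let v19 := cst ⟨65536, 0, 0, 0⟩; ok v19 && (
  let v20 := rball v18 v19; ok v20 && (
  let v21 := mul v11 v20; ok v21 && (
  let v22 := add v3 v5; ok v22 && (
  let v23 := scale ⟨549755813888, 0, 0, 0⟩ v22; ok v23 && (
  let v24 := mul v21 v23; ok v24 && (
  let v25 := mul v21 v21; ok v25 && (
  let v26 := mul x0 v25; ok v26 && (
  let v27 := mul v24 v24; ok v27 && (
  let v28 := mul x0 v27; ok v28 && (
  let v29 := neg v11; ok v29 && (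
  let v30 := exp v29; ok v30 && (
  let v31 := add v30 v0; ok v31 && (
  isPos 2 v31 && (
  let v32 := log v31; ok v32 && (
  let v33 := cst ⟨9999220736, 0, 0, 0⟩; ok v33 && (
  let v34 := sub x0 v33; ok v34 && (
  let v35 := mul x1 x1; ok v35 && (
  let v36 := mul v35 x1; ok v36 && (
  let v37 := mul v34 x1; ok v37 && (
  let v38 := mul v34 v34; ok v38 && (
  let v39 := cst ⟨962072674304, 0, 0, 0⟩; ok v39 && (
  let v40 := scale ⟨0, 0, 1099511627776, 0⟩ v39; ok v40 && (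
  let v41 := scale ⟨549755813888, 0, 0, 0⟩ v40; ok v41 && (
  let v42 := add v41 v0; ok v42 && (
  let v43 := inv v42; ok v43 && (
  let v44 := mul v40 v43; ok v44 && (
  let v45 := scale ⟨0, 715694437440, 0, 0⟩ v44; ok v45 && (
  let v46 := cst ⟨0, 19719990812224, 0, 0⟩; ok v46 && (
  let v47 := add v45 v46; ok v47 && (
  let v48 := mul v44 v47; ok v48 && (
  let v49 := cst ⟨40981172371904, 0, 0, 0⟩; ok v49 && (
  let v50 := add v48 v49; ok v50 && (
  let v51 := mul v44 v50; ok v51 && (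
  let v52 := cst ⟨0, 62003602173312, 0, 0⟩; ok v52 && (
  let v53 := add v51 v52; ok v53 && (
  let v54 := mul v44 v53; ok v54 && (
  let v55 := cst ⟨55815942989120, 0, 0, 0⟩; ok v55 && (
  let v56 := add v54 v55; ok v56 && (
  let v57 := mul v44 v56; ok v57 && (
  let v58 := cst ⟨0, 40914425804288, 0, 0⟩; ok v58 && (
  let v59 := add v57 v58; ok v59 && (
  let v60 := mul v44 v59; ok v60 && (
  let v61 := scale ⟨0, 42830096320, 0, 0⟩ x1; ok v61 && (
  let v62 := scale ⟨0, 187380545015936, 0, 0⟩ v34; ok v62 && (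
  let v63 := add v61 v62; ok v63 && (
  let v64 := cst ⟨21111630828096, 0, 0, 0⟩; ok v64 && (
  let v65 := add v63 v64; ok v65 && (
  let v66 := add v60 v65; ok v66 && (
  let v67 := mul v44 v66; ok v67 && (
  let v68 := scale ⟨63572741952, 0, 0, 0⟩ x1; ok v68 && (
  let v69 := scale ⟨258695722428992, 0, 0, 0⟩ v34; ok v69 && (
  let v70 := add v68 v69; ok v70 && (
  let v71 := cst ⟨0, 8783661547840, 0, 0⟩; ok v71 && (
  let v72 := add v70 v71; ok v72 && (
  let v73 := add v67 v72; ok v73 && (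
  let v74 := mul v44 v73; ok v74 && (
  let v75 := scale ⟨0, 54563815488, 0, 0⟩ x1; ok v75 && (
  let v76 := scale ⟨0, 247959990427584, 0, 0⟩ v34; ok v76 && (
  let v77 := add v75 v76; ok v77 && (
  let v78 := cst ⟨2889960314624, 0, 0, 0⟩; ok v78 && (
  let v79 := add v77 v78; ok v79 && (
  let v80 := add v74 v79; ok v80 && (
  let v81 := mul v44 v80; ok v81 && (
  let v82 := scale ⟨23414513024, 0, 0, 0⟩ x1; ok v82 && (
  let v83 := scale ⟨89605643974144, 0, 0, 0⟩ v34; ok v83 && (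
  let v84 := add v82 v83; ok v84 && (
  let v85 := cst ⟨105215852352, 0, 0, 0⟩; ok v85 && (
  let v86 := add v84 v85; ok v86 && (
  let v87 := add v81 v86; ok v87 && (
  let v88 := mul v44 v87; ok v88 && (
  let v89 := scale ⟨0, 8834563456, 0, 0⟩ x1; ok v89 && (
  let v90 := scale ⟨0, 42154594529344, 0, 0⟩ v34; ok v90 && (
  let v91 := add v89 v90; ok v91 && (
  let v92 := cst ⟨1708891246784, 0, 0, 0⟩; ok v92 && (
  let v93 := add v91 v92; ok v93 && (
  let v94 := add v88 v93; ok v94 && (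
  let v95 := mul v44 v94; ok v95 && (
  let v96 := scale ⟨3110648640, 0, 0, 0⟩ x1; ok v96 && (
  let v97 := scale ⟨3026482546496, 0, 0, 0⟩ v34; ok v97 && (
  let v98 := add v96 v97; ok v98 && (
  let v99 := cst ⟨3446755678400, 0, 0, 0⟩; ok v99 && (
  let v100 := add v98 v99; ok v100 && (
  let v101 := add v95 v100; ok v101 && (
  let v102 := mul v44 v101; ok v102 && (
  let v103 := scale ⟨0, 37349739072, 0, 0⟩ x1; ok v103 && (
  let v104 := scale ⟨264314271232, 0, 0, 0⟩ v35; ok v104 && (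
  let v105 := add v103 v104; ok v105 && (
  let v106 := scale ⟨0, 70935489792, 0, 0⟩ v34; ok v106 && (
  let v107 := add v105 v106; ok v107 && (
  let v108 := scale ⟨5596366766208, 0, 0, 0⟩ v37; ok v108 && (
  let v109 := add v107 v108; ok v109 && (
  let v110 := scale ⟨290739276008704, 0, 0, 0⟩ v38; ok v110 && (
  let v111 := add v109 v110; ok v111 && (
  let v112 := cst ⟨2956144768, 0, 0, 0⟩; ok v112 && (
  let v113 := add v111 v112; ok v113 && (
  let v114 := mul v113 x1; ok v114 && (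
  let v115 := add v102 v114; ok v115 && (
  let v116 := mul x0 x0; ok v116 && (
  let v117 := scale ⟨5703716569088, 0, 0, 0⟩ v116; ok v117 && (
  let v118 := cst ⟨1726576852992, 0, 0, 0⟩; ok v118 && (
  let v119 := add v117 v118; ok v119 && (
  let v120 := scale ⟨4398046511104, 0, 0, 0⟩ x1; ok v120 && (
  let v121 := mul v44 v119; ok v121 && (
  let v122 := scale ⟨4398046511104, 0, 0, 0⟩ v121; ok v122 && (
  let v123 := add v120 v122; ok v123 && (
  let v124 := scale ⟨494678900736, 0, 0, 0⟩ x1; ok v124 && (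
  let v125 := scale ⟨0, 1640736227328, 0, 0⟩ v35; ok v125 && (
  let v126 := add v124 v125; ok v126 && (
  let v127 := scale ⟨8416782909440, 0, 0, 0⟩ v36; ok v127 && (
  let v128 := add v126 v127; ok v128 && (
  let v129 := scale ⟨18550725541888, 0, 0, 0⟩ v34; ok v129 && (
  let v130 := add v128 v129; ok v130 && (
  let v131 := scale ⟨0, 59334519095296, 0, 0⟩ v37; ok v131 && (
  let v132 := add v130 v131; ok v132 && (
  let v133 := cst ⟨189352378368, 0, 0, 0⟩; ok v133 && (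
  let v134 := add v132 v133; ok v134 && (
  let v135 := mul v134 v123; ok v135 && (
  let v136 := scale ⟨879662989312, 0, 0, 0⟩ v123; ok v136 && (
  let v137 := add v136 v0; ok v137 && (
  isPos 2 v137 && (
  let v138 := inv v137; ok v138 && (
  let v139 := mul v135 v138; ok v139 && (
  let v140 := neg v115; ok v140 && (
  let v141 := exp v140; ok v141 && (
  let v142 := add v141 v0; ok v142 && (
  isPos 2 v142 && (
  let v143 := log v142; ok v143 && (
  let v144 := mul v139 x2; ok v144 && (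
  let v145 := sub v0 v144; ok v145 && (
  isPos 2 v145 && (
  let v146 := log v145; ok v146 && (
  let v147 := mul v141 v144; ok v147 && (
  let v148 := add v147 v0; ok v148 && (
  isPos 2 v148 && (
  let v149 := log v148; ok v149 && (
  let v150 := sub v143 v149; ok v150 && (
  let v151 := add x1 v32; ok v151 && (
  let v152 := sub v150 v151; ok v152 && (
  let v153 := mul v152 x0; ok v153 && (
  let v154 := exp v153; ok v154 && (
  let v155 := sub v149 v146; ok v155 && (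
  let v156 := add v155 v115; ok v156 && (
  let v157 := mul v156 x0; ok v157 && (
  let v158 := exp v157; ok v158 && (
  let v159 := mul v21 v21; ok v159 && (
  let v160 := scale ⟨274877906944, 0, 0, 0⟩ v159; ok v160 && (
  let v161 := mul v116 v160; ok v161 && (
  let v162 := scale ⟨1649267441664, 0, 0, 0⟩ v161; ok v162 && (
  let v163 := add v162 v0; ok v163 && (
  let v164 := mul v119 v163; ok v164 && (
  let v165 := mul v39 v164; ok v165 && (
  let v166 := scale ⟨0, 0, 1099511627776, 0⟩ v165; ok v166 && (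
  let v167 := mul v166 v166; ok v167 && (
  let v168 := sub v160 v167; ok v168 && (
  let v169 := mul v154 v154; ok v169 && (
  let v170 := mul v169 v168; ok v170 && (
  let v171 := mul v116 v170; ok v171 && (
  let v172 := scale ⟨4398046511104, 0, 0, 0⟩ v171; ok v172 && (
  let v173 := sub v0 v172; ok v173 && (
  isPos 2 v173 && (
  let v174 := log v173; ok v174 && (
  let v175 := scale ⟨549755813888, 0, 0, 0⟩ v174; ok v175 && (
  let v176 := exp v175; ok v176 && (
  let v177 := mul x0 v154; ok v177 && (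
  let v178 := mul v177 v166; ok v178 && (
  let v179 := scale ⟨2199023255552, 0, 0, 0⟩ v178; ok v179 && (
  let v180 := sub v176 v179; ok v180 && (
  isPos 2 v180 && (
  isPos 2 x0 && (
  let v181 := inv x0; ok v181 && (
  let v182 := cst ⟨549755813888, 0, 0, 0⟩; ok v182 && (
  let v183 := sub v149 v143; ok v183 && (
  let v184 := log v180; ok v184 && (
  let v185 := mul v184 v181; ok v185 && (
  let v186 := add v183 v185; ok v186 && (
  let v187 := exp v186; ok v187 && (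
  let v188 := sub v182 v187; ok v188 && (
  isPos 2 v188 && (
  true)))))))))))))))))))))))))))))))))))))))))))))))))))))))))))))))))))))))))))))))))))))))))))))))))))))))))))))))))))))))))))))))))))))))))))))))))))))))))))))))))))))))))))))))))))))))))))))))))))))))
  | _ => false

set_option maxRecDepth 1000000 in
theorem c_T_0_eq (X : XOps) (m : List X.O.α)
    (h : c_T_0 X.O.cst X.O.add X.O.sub X.O.mul X.O.scale X.O.neg X.O.inv X.O.exp X.O.log X.O.ok
      X.O.isPos X.O.isLt X.ball X.rball m = true) :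
    runX X 2 p_T_0 m = true := by
  match m, h with
  | [x0, x1, x2], h => exact h

abbrev gT : List (List Op) := [p_T_0]

noncomputable abbrev kT : List (List xE.O.α → Bool) := [c_T_0 xE.O.cst xE.O.add xE.O.sub xE.O.mul xE.O.scale xE.O.neg xE.O.inv xE.O.exp xE.O.log xE.O.ok
      xE.O.isPos xE.O.isLt xE.ball xE.rball]

theorem kT_eq : List.Forall₂ (fun (ops : List Op) (chk : List xE.O.α → Bool) =>
    ∀ m, chk m = true → runX xE 2 ops m = true) gT kT :=
  List.Forall₂.cons (c_T_0_eq xE) List.Forall₂.nil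

theorem gT_eq : gT = [comp (PST tab 962072674304) ρ3 3] := by decide +kernel

def p_S_0 : List Op := [
  .const ⟨1099511627776, 0, 0, 0⟩,
  .mul 1 2,
  .exp 0,
  .neg 1,
  .exp 0,
  .mul 3 3,
  .lt 0 68719476736,
  .scale ⟨9162596898, 0, 0, 0⟩ 0,
  .const ⟨183251937962, 0, 0, 0⟩,
  .add 1 0,
  .mul 0 3,
  .const ⟨1099511627776, 0, 0, 0⟩,
  .add 1 0,
  .const ⟨65536, 0, 0, 0⟩,
  .rball 1 0,
  .scale ⟨2199023255552, 0, 0, 0⟩ 15,
  .mul 0 1,
  .add 13 11,
  .scale ⟨549755813888, 0, 0, 0⟩ 0,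
  .mul 2 0,
  .mul 0 0,
  .const ⟨9999220736, 0, 0, 0⟩,
  .sub 21 0,
  .mul 23 23,
  .mul 0 24,
  .mul 2 25,
  .scale ⟨1515795578880, 0, 0, 0⟩ 26,
  .scale ⟨0, 380250554368, 0, 0⟩ 3,
  .add 1 0,
  .scale ⟨0, 7044112449536, 0, 0⟩ 4,
  .add 1 0,
  .scale ⟨0, 352536100864, 0, 0⟩ 8,
  .add 1 0,
  .scale ⟨85960894578688, 0, 0, 0⟩ 7,
  .add 1 0,
  .const ⟨1679998844928, 0, 0, 0⟩,
  .add 1 0,
  .pos 0,
  .const ⟨8293581848576, 0, 0, 0⟩,
  .add 17 0,
  .pos 0,
  .const ⟨9999220736, 0, 0, 0⟩,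
  .sub 39 0,
  .mul 41 41,
  .mul 0 42,
  .mul 2 43,
  .mul 38 38,
  .mul 0 0,
  .scale ⟨4398046511104, 0, 0, 0⟩ 43,
  .neg 0,
  .exp 0,
  .scale ⟨1515795578880, 0, 0, 0⟩ 49,
  .scale ⟨0, 380250554368, 0, 0⟩ 8,
  .add 1 0,
  .scale ⟨0, 7044112449536, 0, 0⟩ 9,
  .add 1 0,
  .scale ⟨0, 352536100864, 0, 0⟩ 13,
  .add 1 0,
  .scale ⟨85960894578688, 0, 0, 0⟩ 12,
  .add 1 0,
  .const ⟨1679998844928, 0, 0, 0⟩,
  .add 1 0,
  .mul 59 40,
  .mul 0 1,
  .add 0 60,
  .mul 14 0,
  .scale ⟨2199023255552, 0, 0, 0⟩ 19,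
  .mul 5 16,
  .sub 1 0,
  .pos 0,
  .scale ⟨0, 192759398400, 0, 0⟩ 67,
  .scale ⟨4094299930624, 0, 0, 0⟩ 26,
  .add 1 0,
  .scale ⟨0, 11110171475968, 0, 0⟩ 27,
  .add 1 0,
  .scale ⟨111283404537856, 0, 0, 0⟩ 31,
  .add 1 0,
  .scale ⟨0, 430796890439680, 0, 0⟩ 30,
  .add 1 0,
  .const ⟨1297573478400, 0, 0, 0⟩,
  .add 1 0,
  .pos 0,
  .const ⟨8494371569664, 0, 0, 0⟩,
  .add 58 0,
  .pos 0,
  .const ⟨9999220736, 0, 0, 0⟩,
  .sub 80 0,
  .mul 82 82,
  .mul 0 83,
  .mul 2 84,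
  .mul 79 79,
  .mul 0 0,
  .scale ⟨8796093022208, 0, 0, 0⟩ 84,
  .neg 0,
  .exp 0,
  .scale ⟨1323036180480, 0, 0, 0⟩ 90,
  .scale ⟨3714049376256, 0, 0, 0⟩ 8,
  .add 1 0,
  .scale ⟨0, 18154283925504, 0, 0⟩ 9,
  .add 1 0,
  .scale ⟨110930868436992, 0, 0, 0⟩ 13,
  .add 1 0,
  .scale ⟨0, 344835995860992, 0, 0⟩ 12,
  .add 1 0,
  .const ⟨2977572323328, 0, 0, 0⟩,
  .add 1 0,
  .mul 100 81,
  .mul 0 1,
  .add 0 101,
  .mul 14 0,
  .scale ⟨1099511627776, 0, 0, 0⟩ 18,
  .add 0 104,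
  .mul 21 0,
  .scale ⟨2199023255552, 0, 0, 0⟩ 0,
  .mul 8 19,
  .sub 1 0,
  .pos 0,
  .scale ⟨0, 62371135488, 0, 0⟩ 111,
  .scale ⟨3444578975744, 0, 0, 0⟩ 29,
  .add 1 0,
  .scale ⟨0, 11323244937216, 0, 0⟩ 30,
  .add 1 0,
  .scale ⟨74539127472128, 0, 0, 0⟩ 34,
  .add 1 0,
  .scale ⟨0, 324759742251008, 0, 0⟩ 33,
  .add 1 0,
  .const ⟨1077487861760, 0, 0, 0⟩,
  .add 1 0,
  .pos 0,
  .const ⟨8691940065280, 0, 0, 0⟩,
  .add 102 0,
  .pos 0,
  .const ⟨9999220736, 0, 0, 0⟩,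
  .sub 124 0,
  .mul 126 126,
  .mul 0 127,
  .mul 2 128,
  .mul 123 123,
  .mul 0 0,
  .scale ⟨13194139533312, 0, 0, 0⟩ 128,
  .neg 0,
  .exp 0,
  .scale ⟨1260665044992, 0, 0, 0⟩ 134,
  .scale ⟨7158628352000, 0, 0, 0⟩ 8,
  .add 1 0,
  .scale ⟨0, 29477528862720, 0, 0⟩ 9,
  .add 1 0,
  .scale ⟨185469995909120, 0, 0, 0⟩ 13,
  .add 1 0,
  .scale ⟨0, 669595738112000, 0, 0⟩ 12,
  .add 1 0,
  .const ⟨4055060185088, 0, 0, 0⟩,
  .add 1 0,
  .mul 144 125,
  .mul 0 1,
  .add 0 145,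
  .mul 14 0,
  .scale ⟨1099511627776, 0, 0, 0⟩ 18,
  .add 0 148,
  .mul 20 0,
  .add 0 150,
  .mul 23 0,
  .scale ⟨2199023255552, 0, 0, 0⟩ 0,
  .mul 10 21,
  .sub 1 0,
  .pos 0,
  .scale ⟨0, 287362777088, 0, 0⟩ 157,
  .scale ⟨4946899828736, 0, 0, 0⟩ 31,
  .add 1 0,
  .scale ⟨0, 15849820258304, 0, 0⟩ 32,
  .add 1 0,
  .scale ⟨46951048347648, 0, 0, 0⟩ 36,
  .add 1 0,
  .scale ⟨0, 244470844489728, 0, 0⟩ 35,
  .add 1 0,
  .const ⟨964627202048, 0, 0, 0⟩,
  .add 1 0,
  .pos 0,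
  .const ⟨8884139851776, 0, 0, 0⟩,
  .add 148 0,
  .pos 0,
  .const ⟨9999220736, 0, 0, 0⟩,
  .sub 170 0,
  .mul 172 172,
  .mul 0 173,
  .mul 2 174,
  .mul 169 169,
  .mul 0 0,
  .scale ⟨17592186044416, 0, 0, 0⟩ 174,
  .neg 0,
  .exp 0,
  .scale ⟨973302267904, 0, 0, 0⟩ 180,
  .scale ⟨12105528180736, 0, 0, 0⟩ 8,
  .add 1 0,
  .scale ⟨0, 45327349121024, 0, 0⟩ 9,
  .add 1 0,
  .scale ⟨232421044256768, 0, 0, 0⟩ 13,
  .add 1 0,
  .scale ⟨0, 914066582601728, 0, 0⟩ 12,
  .add 1 0,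
  .const ⟨5019687387136, 0, 0, 0⟩,
  .add 1 0,
  .mul 190 171,
  .mul 0 1,
  .add 0 191,
  .mul 14 0,
  .scale ⟨1099511627776, 0, 0, 0⟩ 18,
  .add 0 194,
  .mul 20 0,
  .add 0 196,
  .mul 22 0,
  .add 0 198,
  .mul 25 0,
  .scale ⟨2199023255552, 0, 0, 0⟩ 0,
  .mul 12 23,
  .sub 1 0,
  .pos 0,
  .scale ⟨0, 332035325952, 0, 0⟩ 205,
  .scale ⟨5095224508416, 0, 0, 0⟩ 33,
  .add 1 0,
  .scale ⟨0, 17253261901824, 0, 0⟩ 34,
  .add 1 0,
  .scale ⟨24619110629376, 0, 0, 0⟩ 38,
  .add 1 0,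
  .scale ⟨0, 173274686160896, 0, 0⟩ 37,
  .add 1 0,
  .const ⟨869116149760, 0, 0, 0⟩,
  .add 1 0,
  .pos 0,
  .const ⟨9068823445504, 0, 0, 0⟩,
  .add 196 0,
  .pos 0,
  .const ⟨9999220736, 0, 0, 0⟩,
  .sub 218 0,
  .mul 220 220,
  .mul 0 221,
  .mul 2 222,
  .mul 217 217,
  .mul 0 0,
  .scale ⟨21990232555520, 0, 0, 0⟩ 222,
  .neg 0,
  .exp 0,
  .scale ⟨641266941952, 0, 0, 0⟩ 228,
  .scale ⟨17200752689152, 0, 0, 0⟩ 8,
  .add 1 0,
  .scale ⟨0, 62580611022848, 0, 0⟩ 9,
  .add 1 0,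
  .scale ⟨257040154886144, 0, 0, 0⟩ 13,
  .add 1 0,
  .scale ⟨0, 1087341268762624, 0, 0⟩ 12,
  .add 1 0,
  .const ⟨5888803536896, 0, 0, 0⟩,
  .add 1 0,
  .mul 238 219,
  .mul 0 1,
  .add 0 239,
  .mul 14 0,
  .scale ⟨1099511627776, 0, 0, 0⟩ 18,
  .add 0 242,
  .mul 20 0,
  .add 0 244,
  .mul 22 0,
  .add 0 246,
  .mul 24 0,
  .add 0 248,
  .mul 27 0,
  .scale ⟨2199023255552, 0, 0, 0⟩ 0,
  .mul 14 25,
  .sub 1 0,
  .pos 0,
  .scale ⟨0, 311397842944, 0, 0⟩ 255,
  .scale ⟨4429783302144, 0, 0, 0⟩ 35,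
  .add 1 0,
  .scale ⟨0, 15839646449664, 0, 0⟩ 36,
  .add 1 0,
  .scale ⟨7596378423296, 0, 0, 0⟩ 40,
  .add 1 0,
  .scale ⟨0, 124021423144960, 0, 0⟩ 39,
  .add 1 0,
  .const ⟨788538327040, 0, 0, 0⟩,
  .add 1 0,
  .pos 0,
  .const ⟨9249212071936, 0, 0, 0⟩,
  .add 246 0,
  .pos 0,
  .const ⟨9999220736, 0, 0, 0⟩,
  .sub 268 0,
  .mul 270 270,
  .mul 0 271,
  .mul 2 272,
  .mul 267 267,
  .mul 0 0,
  .scale ⟨26388279066624, 0, 0, 0⟩ 272,
  .neg 0,
  .exp 0,
  .scale ⟨329869099008, 0, 0, 0⟩ 278,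
  .scale ⟨21630535991296, 0, 0, 0⟩ 8,
  .add 1 0,
  .scale ⟨0, 78420257472512, 0, 0⟩ 9,
  .add 1 0,
  .scale ⟨264636533309440, 0, 0, 0⟩ 13,
  .add 1 0,
  .scale ⟨0, 1211362691907584, 0, 0⟩ 12,
  .add 1 0,
  .const ⟨6677341863936, 0, 0, 0⟩,
  .add 1 0,
  .mul 288 269,
  .mul 0 1,
  .add 0 289,
  .mul 14 0,
  .scale ⟨1099511627776, 0, 0, 0⟩ 18,
  .add 0 292,
  .mul 20 0,
  .add 0 294,
  .mul 22 0,
  .add 0 296,
  .mul 24 0,
  .add 0 298,
  .mul 26 0,
  .add 0 300,
  .mul 29 0,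
  .scale ⟨2199023255552, 0, 0, 0⟩ 0,
  .mul 16 27,
  .sub 1 0,
  .pos 0,
  .scale ⟨0, 204525010944, 0, 0⟩ 307,
  .scale ⟨2840049352704, 0, 0, 0⟩ 37,
  .add 1 0,
  .scale ⟨0, 11743768018944, 0, 0⟩ 38,
  .add 1 0,
  .scale ⟨0, 5644330139648, 0, 0⟩ 42,
  .add 1 0,
  .scale ⟨0, 90439908065280, 0, 0⟩ 41,
  .add 1 0,
  .const ⟨718924021760, 0, 0, 0⟩,
  .add 1 0,
  .pos 0,
  .const ⟨9425305731072, 0, 0, 0⟩,
  .add 298 0,
  .pos 0,
  .const ⟨9999220736, 0, 0, 0⟩,
  .sub 320 0,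
  .mul 322 322,
  .mul 0 323,
  .mul 2 324,
  .mul 319 319,
  .mul 0 0,
  .scale ⟨30786325577728, 0, 0, 0⟩ 324,
  .neg 0,
  .exp 0,
  .scale ⟨125344088064, 0, 0, 0⟩ 330,
  .scale ⟨24470585344000, 0, 0, 0⟩ 8,
  .add 1 0,
  .scale ⟨0, 90164025491456, 0, 0⟩ 9,
  .add 1 0,
  .scale ⟨258992203169792, 0, 0, 0⟩ 13,
  .add 1 0,
  .scale ⟨0, 1301802599972864, 0, 0⟩ 12,
  .add 1 0,
  .const ⟨7396265885696, 0, 0, 0⟩,
  .add 1 0,
  .mul 340 321,
  .mul 0 1,
  .add 0 341,
  .mul 14 0,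
  .scale ⟨1099511627776, 0, 0, 0⟩ 18,
  .add 0 344,
  .mul 20 0,
  .add 0 346,
  .mul 22 0,
  .add 0 348,
  .mul 24 0,
  .add 0 350,
  .mul 26 0,
  .add 0 352,
  .mul 28 0,
  .add 0 354,
  .mul 31 0,
  .scale ⟨2199023255552, 0, 0, 0⟩ 0,
  .mul 18 29,
  .sub 1 0,
  .pos 0,
  .scale ⟨0, 218235273216, 0, 0⟩ 361,
  .scale ⟨2258507726848, 0, 0, 0⟩ 39,
  .add 1 0,
  .scale ⟨0, 10023123222528, 0, 0⟩ 40,
  .add 1 0,
  .scale ⟨0, 16208740286464, 0, 0⟩ 44,
  .add 1 0,
  .scale ⟨0, 74359592321024, 0, 0⟩ 43,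
  .add 1 0,
  .const ⟨656257712128, 0, 0, 0⟩,
  .add 1 0,
  .pos 0,
  .const ⟨9594956939264, 0, 0, 0⟩,
  .add 352 0,
  .pos 0,
  .const ⟨9999220736, 0, 0, 0⟩,
  .sub 374 0,
  .mul 376 376,
  .mul 0 377,
  .mul 2 378,
  .mul 373 373,
  .mul 0 0,
  .scale ⟨35184372088832, 0, 0, 0⟩ 378,
  .neg 0,
  .exp 0,
  .scale ⟨0, 92891185152, 0, 0⟩ 384,
  .scale ⟨26729093070848, 0, 0, 0⟩ 8,
  .add 1 0,
  .scale ⟨0, 100187148713984, 0, 0⟩ 9,
  .add 1 0,
  .scale ⟨242783462883328, 0, 0, 0⟩ 13,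
  .add 1 0,
  .scale ⟨0, 1376162192293888, 0, 0⟩ 12,
  .add 1 0,
  .const ⟨8052523597824, 0, 0, 0⟩,
  .add 1 0,
  .mul 394 375,
  .mul 0 1,
  .add 0 395,
  .mul 14 0,
  .scale ⟨1099511627776, 0, 0, 0⟩ 18,
  .add 0 398,
  .mul 20 0,
  .add 0 400,
  .mul 22 0,
  .add 0 402,
  .mul 24 0,
  .add 0 404,
  .mul 26 0,
  .add 0 406,
  .mul 28 0,
  .add 0 408,
  .mul 30 0,
  .add 0 410,
  .mul 33 0,
  .scale ⟨2199023255552, 0, 0, 0⟩ 0,
  .mul 20 31,
  .sub 1 0,
  .pos 0,
  .scale ⟨0, 236787269632, 0, 0⟩ 417,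
  .scale ⟨1843048546304, 0, 0, 0⟩ 41,
  .add 1 0,
  .scale ⟨0, 8643064692736, 0, 0⟩ 42,
  .add 1 0,
  .scale ⟨0, 24666148110336, 0, 0⟩ 46,
  .add 1 0,
  .scale ⟨0, 59973159878656, 0, 0⟩ 45,
  .add 1 0,
  .const ⟨598969745408, 0, 0, 0⟩,
  .add 1 0,
  .pos 0,
  .const ⟨9756018212864, 0, 0, 0⟩,
  .add 408 0,
  .pos 0,
  .const ⟨9999220736, 0, 0, 0⟩,
  .sub 430 0,
  .mul 432 432,
  .mul 0 433,
  .mul 2 434,
  .mul 429 429,
  .mul 0 0,
  .scale ⟨39582418599936, 0, 0, 0⟩ 434,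
  .neg 0,
  .exp 0,
  .scale ⟨0, 329678454784, 0, 0⟩ 440,
  .scale ⟨28572141617152, 0, 0, 0⟩ 8,
  .add 1 0,
  .scale ⟨0, 108830213406720, 0, 0⟩ 9,
  .add 1 0,
  .scale ⟨218117314772992, 0, 0, 0⟩ 13,
  .add 1 0,
  .scale ⟨0, 1436135352172544, 0, 0⟩ 12,
  .add 1 0,
  .const ⟨8651493343232, 0, 0, 0⟩,
  .add 1 0,
  .mul 450 431,
  .mul 0 1,
  .add 0 451,
  .mul 14 0,
  .scale ⟨1099511627776, 0, 0, 0⟩ 18,
  .add 0 454,
  .mul 20 0,
  .add 0 456,
  .mul 22 0,
  .add 0 458,
  .mul 24 0,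
  .add 0 460,
  .mul 26 0,
  .add 0 462,
  .mul 28 0,
  .add 0 464,
  .mul 30 0,
  .add 0 466,
  .mul 32 0,
  .add 0 468,
  .mul 35 0,
  .scale ⟨2199023255552, 0, 0, 0⟩ 0,
  .mul 22 33,
  .sub 1 0,
  .pos 0,
  .scale ⟨0, 238092353536, 0, 0⟩ 475,
  .scale ⟨1347253043200, 0, 0, 0⟩ 43,
  .add 1 0,
  .scale ⟨0, 7011576053760, 0, 0⟩ 44,
  .add 1 0,
  .scale ⟨0, 31582902157312, 0, 0⟩ 48,
  .add 1 0,
  .scale ⟨0, 45973147287552, 0, 0⟩ 47,
  .add 1 0,
  .const ⟨546436743168, 0, 0, 0⟩,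
  .add 1 0,
  .pos 0,
  .const ⟨9908489551872, 0, 0, 0⟩,
  .add 466 0,
  .pos 0,
  .const ⟨9999220736, 0, 0, 0⟩,
  .sub 488 0,
  .mul 490 490,
  .mul 0 491,
  .mul 2 492,
  .mul 487 487,
  .mul 0 0,
  .scale ⟨43980465111040, 0, 0, 0⟩ 492,
  .neg 0,
  .exp 0,
  .scale ⟨0, 567770808320, 0, 0⟩ 498,
  .scale ⟨29919394660352, 0, 0, 0⟩ 8,
  .add 1 0,
  .scale ⟨0, 115841789460480, 0, 0⟩ 9,
  .add 1 0,
  .scale ⟨186534412615680, 0, 0, 0⟩ 13,
  .add 1 0,
  .scale ⟨0, 1482108499460096, 0, 0⟩ 12,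
  .add 1 0,
  .const ⟨9197930086400, 0, 0, 0⟩,
  .add 1 0,
  .mul 508 489,
  .mul 0 1,
  .add 0 509,
  .mul 14 0,
  .scale ⟨1099511627776, 0, 0, 0⟩ 18,
  .add 0 512,
  .mul 20 0,
  .add 0 514,
  .mul 22 0,
  .add 0 516,
  .mul 24 0,
  .add 0 518,
  .mul 26 0,
  .add 0 520,
  .mul 28 0,
  .add 0 522,
  .mul 30 0,
  .add 0 524,
  .mul 32 0,
  .add 0 526,
  .mul 34 0,
  .add 0 528,
  .mul 37 0,
  .scale ⟨2199023255552, 0, 0, 0⟩ 0,
  .mul 24 35,
  .sub 1 0,
  .pos 0,
  .scale ⟨0, 227065069568, 0, 0⟩ 535,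
  .scale ⟨547135094784, 0, 0, 0⟩ 45,
  .add 1 0,
  .scale ⟨0, 4485427888128, 0, 0⟩ 46,
  .add 1 0,
  .scale ⟨0, 37538859450368, 0, 0⟩ 50,
  .add 1 0,
  .scale ⟨0, 27774553161728, 0, 0⟩ 49,
  .add 1 0,
  .const ⟨498599591936, 0, 0, 0⟩,
  .add 1 0,
  .pos 0,
  .const ⟨10050223472640, 0, 0, 0⟩,
  .add 526 0,
  .pos 0,
  .const ⟨9999220736, 0, 0, 0⟩,
  .sub 548 0,
  .mul 550 550,
  .mul 0 551,
  .mul 2 552,
  .mul 547 547,
  .mul 0 0,
  .scale ⟨48378511622144, 0, 0, 0⟩ 552,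
  .neg 0,
  .exp 0,
  .scale ⟨0, 794835877888, 0, 0⟩ 558,
  .scale ⟨30466529755136, 0, 0, 0⟩ 8,
  .add 1 0,
  .scale ⟨0, 120327217348608, 0, 0⟩ 9,
  .add 1 0,
  .scale ⟨148995553165312, 0, 0, 0⟩ 13,
  .add 1 0,
  .scale ⟨0, 1509883052621824, 0, 0⟩ 12,
  .add 1 0,
  .const ⟨9696529678336, 0, 0, 0⟩,
  .add 1 0,
  .mul 568 549,
  .mul 0 1,
  .add 0 569,
  .mul 14 0,
  .scale ⟨1099511627776, 0, 0, 0⟩ 18,
  .add 0 572,
  .mul 20 0,
  .add 0 574,
  .mul 22 0,
  .add 0 576,
  .mul 24 0,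
  .add 0 578,
  .mul 26 0,
  .add 0 580,
  .mul 28 0,
  .add 0 582,
  .mul 30 0,
  .add 0 584,
  .mul 32 0,
  .add 0 586,
  .mul 34 0,
  .add 0 588,
  .mul 36 0,
  .add 0 590,
  .mul 39 0,
  .scale ⟨2199023255552, 0, 0, 0⟩ 0,
  .mul 26 37,
  .sub 1 0,
  .pos 0,
  .scale ⟨0, 223685640192, 0, 0⟩ 597,
  .scale ⟨2827943936, 0, 0, 0⟩ 47,
  .add 1 0,
  .scale ⟨0, 2761131491328, 0, 0⟩ 48,
  .add 1 0,
  .scale ⟨0, 42874068205568, 0, 0⟩ 52,
  .add 1 0,
  .scale ⟨0, 8093636493312, 0, 0⟩ 51,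
  .add 1 0,
  .const ⟨455255130112, 0, 0, 0⟩,
  .add 1 0,
  .pos 0,
  .const ⟨10180146233344, 0, 0, 0⟩,
  .add 588 0,
  .pos 0,
  .const ⟨9999220736, 0, 0, 0⟩,
  .sub 610 0,
  .mul 612 612,
  .mul 0 613,
  .mul 2 614,
  .mul 609 609,
  .mul 0 0,
  .scale ⟨52776558133248, 0, 0, 0⟩ 614,
  .neg 0,
  .exp 0,
  .scale ⟨0, 1018521518080, 0, 0⟩ 620,
  .scale ⟨30469357699072, 0, 0, 0⟩ 8,
  .add 1 0,
  .scale ⟨0, 123088348839936, 0, 0⟩ 9,
  .add 1 0,
  .scale ⟨106121484959744, 0, 0, 0⟩ 13,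
  .add 1 0,
  .scale ⟨0, 1517976689115136, 0, 0⟩ 12,
  .add 1 0,
  .const ⟨10151784808448, 0, 0, 0⟩,
  .add 1 0,
  .mul 630 611,
  .mul 0 1,
  .add 0 631,
  .mul 14 0,
  .scale ⟨1099511627776, 0, 0, 0⟩ 18,
  .add 0 634,
  .mul 20 0,
  .add 0 636,
  .mul 22 0,
  .add 0 638,
  .mul 24 0,
  .add 0 640,
  .mul 26 0,
  .add 0 642,
  .mul 28 0,
  .add 0 644,
  .mul 30 0,
  .add 0 646,
  .mul 32 0,
  .add 0 648,
  .mul 34 0,
  .add 0 650,
  .mul 36 0,
  .add 0 652,
  .mul 38 0,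
  .add 0 654,
  .mul 41 0,
  .scale ⟨2199023255552, 0, 0, 0⟩ 0,
  .mul 28 39,
  .sub 1 0,
  .pos 0,
  .scale ⟨10555310997504, 0, 0, 0⟩ 658,
  .exp 0,
  .mul 1 1,
  .scale ⟨183251937962, 0, 0, 0⟩ 0,
  .add 0 663,
  .mul 3 0,
  .scale ⟨10555310997504, 0, 0, 0⟩ 0,
  .scale ⟨737405800448, 0, 0, 0⟩ 661,
  .add 0 667,
  .mul 39 0,
  .sub 3 0,
  .pos 0]

set_option maxRecDepth 1000000 in
noncomputable def c_S_0 {α : Type} (cst : Z → α) (add sub mul : α → α → α) (scale : Z → α → α)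
    (neg inv exp log : α → α) (ok : α → Bool) (isPos : Nat → α → Bool) (isLt : α → Nat → Bool)
    (ball : Nat → α → α) (rball : α → α → α) : List α → Bool
  | [x0, x1] =>
  let v0 := cst ⟨1099511627776, 0, 0, 0⟩; ok v0 && (
  let v1 := mul x0 x1; ok v1 && (
  let v2 := exp v1; ok v2 && (
  let v3 := neg v1; ok v3 && (
  let v4 := exp v3; ok v4 && (
  let v5 := mul v1 v1; ok v5 && (
  isLt v5 68719476736 && (
  let v6 := scale ⟨9162596898, 0, 0, 0⟩ v5; ok v6 && (
  let v7 := cst ⟨183251937962, 0, 0, 0⟩; ok v7 && (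
  let v8 := add v6 v7; ok v8 && (
  let v9 := mul v8 v5; ok v9 && (
  let v10 := cst ⟨1099511627776, 0, 0, 0⟩; ok v10 && (
  let v11 := add v9 v10; ok v11 && (
  let v12 := cst ⟨65536, 0, 0, 0⟩; ok v12 && (
  let v13 := rball v11 v12; ok v13 && (
  let v14 := scale ⟨2199023255552, 0, 0, 0⟩ x1; ok v14 && (
  let v15 := mul v14 v13; ok v15 && (
  let v16 := add v2 v4; ok v16 && (
  let v17 := scale ⟨549755813888, 0, 0, 0⟩ v16; ok v17 && (
  let v18 := mul v15 v17; ok v18 && (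
  let v19 := mul v18 v18; ok v19 && (
  let v20 := cst ⟨9999220736, 0, 0, 0⟩; ok v20 && (
  let v21 := sub x0 v20; ok v21 && (
  let v22 := mul x1 x1; ok v22 && (
  let v23 := mul v22 x1; ok v23 && (
  let v24 := mul v21 x1; ok v24 && (
  let v25 := scale ⟨1515795578880, 0, 0, 0⟩ x1; ok v25 && (
  let v26 := scale ⟨0, 380250554368, 0, 0⟩ v22; ok v26 && (
  let v27 := add v25 v26; ok v27 && (
  let v28 := scale ⟨0, 7044112449536, 0, 0⟩ v23; ok v28 && (
  let v29 := add v27 v28; ok v29 && (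
  let v30 := scale ⟨0, 352536100864, 0, 0⟩ v21; ok v30 && (
  let v31 := add v29 v30; ok v31 && (
  let v32 := scale ⟨85960894578688, 0, 0, 0⟩ v24; ok v32 && (
  let v33 := add v31 v32; ok v33 && (
  let v34 := cst ⟨1679998844928, 0, 0, 0⟩; ok v34 && (
  let v35 := add v33 v34; ok v35 && (
  isPos 2 v35 && (
  let v36 := cst ⟨8293581848576, 0, 0, 0⟩; ok v36 && (
  let v37 := add v19 v36; ok v37 && (
  isPos 2 v37 && (
  let v38 := cst ⟨9999220736, 0, 0, 0⟩; ok v38 && (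
  let v39 := sub x0 v38; ok v39 && (
  let v40 := mul x1 x1; ok v40 && (
  let v41 := mul v40 x1; ok v41 && (
  let v42 := mul v39 x1; ok v42 && (
  let v43 := mul v4 v4; ok v43 && (
  let v44 := mul v43 v43; ok v44 && (
  let v45 := scale ⟨4398046511104, 0, 0, 0⟩ v1; ok v45 && (
  let v46 := neg v45; ok v46 && (
  let v47 := exp v46; ok v47 && (
  let v48 := scale ⟨1515795578880, 0, 0, 0⟩ x1; ok v48 && (
  let v49 := scale ⟨0, 380250554368, 0, 0⟩ v40; ok v49 && (
  let v50 := add v48 v49; ok v50 && (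
  let v51 := scale ⟨0, 7044112449536, 0, 0⟩ v41; ok v51 && (
  let v52 := add v50 v51; ok v52 && (
  let v53 := scale ⟨0, 352536100864, 0, 0⟩ v39; ok v53 && (
  let v54 := add v52 v53; ok v54 && (
  let v55 := scale ⟨85960894578688, 0, 0, 0⟩ v42; ok v55 && (
  let v56 := add v54 v55; ok v56 && (
  let v57 := cst ⟨1679998844928, 0, 0, 0⟩; ok v57 && (
  let v58 := add v56 v57; ok v58 && (
  let v59 := mul x0 v18; ok v59 && (
  let v60 := mul v59 v58; ok v60 && (
  let v61 := add v60 v0; ok v61 && (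
  let v62 := mul v47 v61; ok v62 && (
  let v63 := scale ⟨2199023255552, 0, 0, 0⟩ v43; ok v63 && (
  let v64 := mul v58 v47; ok v64 && (
  let v65 := sub v63 v64; ok v65 && (
  isPos 2 v65 && (
  let v66 := scale ⟨0, 192759398400, 0, 0⟩ x1; ok v66 && (
  let v67 := scale ⟨4094299930624, 0, 0, 0⟩ v40; ok v67 && (
  let v68 := add v66 v67; ok v68 && (
  let v69 := scale ⟨0, 11110171475968, 0, 0⟩ v41; ok v69 && (
  let v70 := add v68 v69; ok v70 && (
  let v71 := scale ⟨111283404537856, 0, 0, 0⟩ v39; ok v71 && (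
  let v72 := add v70 v71; ok v72 && (
  let v73 := scale ⟨0, 430796890439680, 0, 0⟩ v42; ok v73 && (
  let v74 := add v72 v73; ok v74 && (
  let v75 := cst ⟨1297573478400, 0, 0, 0⟩; ok v75 && (
  let v76 := add v74 v75; ok v76 && (
  isPos 2 v76 && (
  let v77 := cst ⟨8494371569664, 0, 0, 0⟩; ok v77 && (
  let v78 := add v19 v77; ok v78 && (
  isPos 2 v78 && (
  let v79 := cst ⟨9999220736, 0, 0, 0⟩; ok v79 && (
  let v80 := sub x0 v79; ok v80 && (
  let v81 := mul x1 x1; ok v81 && (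
  let v82 := mul v81 x1; ok v82 && (
  let v83 := mul v80 x1; ok v83 && (
  let v84 := mul v4 v4; ok v84 && (
  let v85 := mul v84 v84; ok v85 && (
  let v86 := scale ⟨8796093022208, 0, 0, 0⟩ v1; ok v86 && (
  let v87 := neg v86; ok v87 && (
  let v88 := exp v87; ok v88 && (
  let v89 := scale ⟨1323036180480, 0, 0, 0⟩ x1; ok v89 && (
  let v90 := scale ⟨3714049376256, 0, 0, 0⟩ v81; ok v90 && (
  let v91 := add v89 v90; ok v91 && (
  let v92 := scale ⟨0, 18154283925504, 0, 0⟩ v82; ok v92 && (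
  let v93 := add v91 v92; ok v93 && (
  let v94 := scale ⟨110930868436992, 0, 0, 0⟩ v80; ok v94 && (
  let v95 := add v93 v94; ok v95 && (
  let v96 := scale ⟨0, 344835995860992, 0, 0⟩ v83; ok v96 && (
  let v97 := add v95 v96; ok v97 && (
  let v98 := cst ⟨2977572323328, 0, 0, 0⟩; ok v98 && (
  let v99 := add v97 v98; ok v99 && (
  let v100 := mul x0 v18; ok v100 && (
  let v101 := mul v100 v99; ok v101 && (
  let v102 := add v101 v0; ok v102 && (
  let v103 := mul v88 v102; ok v103 && (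
  let v104 := scale ⟨1099511627776, 0, 0, 0⟩ v85; ok v104 && (
  let v105 := add v104 v0; ok v105 && (
  let v106 := mul v84 v105; ok v106 && (
  let v107 := scale ⟨2199023255552, 0, 0, 0⟩ v106; ok v107 && (
  let v108 := mul v99 v88; ok v108 && (
  let v109 := sub v107 v108; ok v109 && (
  isPos 2 v109 && (
  let v110 := scale ⟨0, 62371135488, 0, 0⟩ x1; ok v110 && (
  let v111 := scale ⟨3444578975744, 0, 0, 0⟩ v81; ok v111 && (
  let v112 := add v110 v111; ok v112 && (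
  let v113 := scale ⟨0, 11323244937216, 0, 0⟩ v82; ok v113 && (
  let v114 := add v112 v113; ok v114 && (
  let v115 := scale ⟨74539127472128, 0, 0, 0⟩ v80; ok v115 && (
  let v116 := add v114 v115; ok v116 && (
  let v117 := scale ⟨0, 324759742251008, 0, 0⟩ v83; ok v117 && (
  let v118 := add v116 v117; ok v118 && (
  let v119 := cst ⟨1077487861760, 0, 0, 0⟩; ok v119 && (
  let v120 := add v118 v119; ok v120 && (
  isPos 2 v120 && (
  let v121 := cst ⟨8691940065280, 0, 0, 0⟩; ok v121 && (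
  let v122 := add v19 v121; ok v122 && (
  isPos 2 v122 && (
  let v123 := cst ⟨9999220736, 0, 0, 0⟩; ok v123 && (
  let v124 := sub x0 v123; ok v124 && (
  let v125 := mul x1 x1; ok v125 && (
  let v126 := mul v125 x1; ok v126 && (
  let v127 := mul v124 x1; ok v127 && (
  let v128 := mul v4 v4; ok v128 && (
  let v129 := mul v128 v128; ok v129 && (
  let v130 := scale ⟨13194139533312, 0, 0, 0⟩ v1; ok v130 && (
  let v131 := neg v130; ok v131 && (
  let v132 := exp v131; ok v132 && (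
  let v133 := scale ⟨1260665044992, 0, 0, 0⟩ x1; ok v133 && (
  let v134 := scale ⟨7158628352000, 0, 0, 0⟩ v125; ok v134 && (
  let v135 := add v133 v134; ok v135 && (
  let v136 := scale ⟨0, 29477528862720, 0, 0⟩ v126; ok v136 && (
  let v137 := add v135 v136; ok v137 && (
  let v138 := scale ⟨185469995909120, 0, 0, 0⟩ v124; ok v138 && (
  let v139 := add v137 v138; ok v139 && (
  let v140 := scale ⟨0, 669595738112000, 0, 0⟩ v127; ok v140 && (
  let v141 := add v139 v140; ok v141 && (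
  let v142 := cst ⟨4055060185088, 0, 0, 0⟩; ok v142 && (
  let v143 := add v141 v142; ok v143 && (
  let v144 := mul x0 v18; ok v144 && (
  let v145 := mul v144 v143; ok v145 && (
  let v146 := add v145 v0; ok v146 && (
  let v147 := mul v132 v146; ok v147 && (
  let v148 := scale ⟨1099511627776, 0, 0, 0⟩ v129; ok v148 && (
  let v149 := add v148 v0; ok v149 && (
  let v150 := mul v129 v149; ok v150 && (
  let v151 := add v150 v0; ok v151 && (
  let v152 := mul v128 v151; ok v152 && (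
  let v153 := scale ⟨2199023255552, 0, 0, 0⟩ v152; ok v153 && (
  let v154 := mul v143 v132; ok v154 && (
  let v155 := sub v153 v154; ok v155 && (
  isPos 2 v155 && (
  let v156 := scale ⟨0, 287362777088, 0, 0⟩ x1; ok v156 && (
  let v157 := scale ⟨4946899828736, 0, 0, 0⟩ v125; ok v157 && (
  let v158 := add v156 v157; ok v158 && (
  let v159 := scale ⟨0, 15849820258304, 0, 0⟩ v126; ok v159 && (
  let v160 := add v158 v159; ok v160 && (
  let v161 := scale ⟨46951048347648, 0, 0, 0⟩ v124; ok v161 && (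
  let v162 := add v160 v161; ok v162 && (
  let v163 := scale ⟨0, 244470844489728, 0, 0⟩ v127; ok v163 && (
  let v164 := add v162 v163; ok v164 && (
  let v165 := cst ⟨964627202048, 0, 0, 0⟩; ok v165 && (
  let v166 := add v164 v165; ok v166 && (
  isPos 2 v166 && (
  let v167 := cst ⟨8884139851776, 0, 0, 0⟩; ok v167 && (
  let v168 := add v19 v167; ok v168 && (
  isPos 2 v168 && (
  let v169 := cst ⟨9999220736, 0, 0, 0⟩; ok v169 && (
  let v170 := sub x0 v169; ok v170 && (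
  let v171 := mul x1 x1; ok v171 && (
  let v172 := mul v171 x1; ok v172 && (
  let v173 := mul v170 x1; ok v173 && (
  let v174 := mul v4 v4; ok v174 && (
  let v175 := mul v174 v174; ok v175 && (
  let v176 := scale ⟨17592186044416, 0, 0, 0⟩ v1; ok v176 && (
  let v177 := neg v176; ok v177 && (
  let v178 := exp v177; ok v178 && (
  let v179 := scale ⟨973302267904, 0, 0, 0⟩ x1; ok v179 && (
  let v180 := scale ⟨12105528180736, 0, 0, 0⟩ v171; ok v180 && (
  let v181 := add v179 v180; ok v181 && (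
  let v182 := scale ⟨0, 45327349121024, 0, 0⟩ v172; ok v182 && (
  let v183 := add v181 v182; ok v183 && (
  let v184 := scale ⟨232421044256768, 0, 0, 0⟩ v170; ok v184 && (
  let v185 := add v183 v184; ok v185 && (
  let v186 := scale ⟨0, 914066582601728, 0, 0⟩ v173; ok v186 && (
  let v187 := add v185 v186; ok v187 && (
  let v188 := cst ⟨5019687387136, 0, 0, 0⟩; ok v188 && (
  let v189 := add v187 v188; ok v189 && (
  let v190 := mul x0 v18; ok v190 && (
  let v191 := mul v190 v189; ok v191 && (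
  let v192 := add v191 v0; ok v192 && (
  let v193 := mul v178 v192; ok v193 && (
  let v194 := scale ⟨1099511627776, 0, 0, 0⟩ v175; ok v194 && (
  let v195 := add v194 v0; ok v195 && (
  let v196 := mul v175 v195; ok v196 && (
  let v197 := add v196 v0; ok v197 && (
  let v198 := mul v175 v197; ok v198 && (
  let v199 := add v198 v0; ok v199 && (
  let v200 := mul v174 v199; ok v200 && (
  let v201 := scale ⟨2199023255552, 0, 0, 0⟩ v200; ok v201 && (
  let v202 := mul v189 v178; ok v202 && (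
  let v203 := sub v201 v202; ok v203 && (
  isPos 2 v203 && (
  let v204 := scale ⟨0, 332035325952, 0, 0⟩ x1; ok v204 && (
  let v205 := scale ⟨5095224508416, 0, 0, 0⟩ v171; ok v205 && (
  let v206 := add v204 v205; ok v206 && (
  let v207 := scale ⟨0, 17253261901824, 0, 0⟩ v172; ok v207 && (
  let v208 := add v206 v207; ok v208 && (
  let v209 := scale ⟨24619110629376, 0, 0, 0⟩ v170; ok v209 && (
  let v210 := add v208 v209; ok v210 && (
  let v211 := scale ⟨0, 173274686160896, 0, 0⟩ v173; ok v211 && (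
  let v212 := add v210 v211; ok v212 && (
  let v213 := cst ⟨869116149760, 0, 0, 0⟩; ok v213 && (
  let v214 := add v212 v213; ok v214 && (
  isPos 2 v214 && (
  let v215 := cst ⟨9068823445504, 0, 0, 0⟩; ok v215 && (
  let v216 := add v19 v215; ok v216 && (
  isPos 2 v216 && (
  let v217 := cst ⟨9999220736, 0, 0, 0⟩; ok v217 && (
  let v218 := sub x0 v217; ok v218 && (
  let v219 := mul x1 x1; ok v219 && (
  let v220 := mul v219 x1; ok v220 && (
  let v221 := mul v218 x1; ok v221 && (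
  let v222 := mul v4 v4; ok v222 && (
  let v223 := mul v222 v222; ok v223 && (
  let v224 := scale ⟨21990232555520, 0, 0, 0⟩ v1; ok v224 && (
  let v225 := neg v224; ok v225 && (
  let v226 := exp v225; ok v226 && (
  let v227 := scale ⟨641266941952, 0, 0, 0⟩ x1; ok v227 && (
  let v228 := scale ⟨17200752689152, 0, 0, 0⟩ v219; ok v228 && (
  let v229 := add v227 v228; ok v229 && (
  let v230 := scale ⟨0, 62580611022848, 0, 0⟩ v220; ok v230 && (
  let v231 := add v229 v230; ok v231 && (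
  let v232 := scale ⟨257040154886144, 0, 0, 0⟩ v218; ok v232 && (
  let v233 := add v231 v232; ok v233 && (
  let v234 := scale ⟨0, 1087341268762624, 0, 0⟩ v221; ok v234 && (
  let v235 := add v233 v234; ok v235 && (
  let v236 := cst ⟨5888803536896, 0, 0, 0⟩; ok v236 && (
  let v237 := add v235 v236; ok v237 && (
  let v238 := mul x0 v18; ok v238 && (
  let v239 := mul v238 v237; ok v239 && (
  let v240 := add v239 v0; ok v240 && (
  let v241 := mul v226 v240; ok v241 && (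
  let v242 := scale ⟨1099511627776, 0, 0, 0⟩ v223; ok v242 && (
  let v243 := add v242 v0; ok v243 && (
  let v244 := mul v223 v243; ok v244 && (
  let v245 := add v244 v0; ok v245 && (
  let v246 := mul v223 v245; ok v246 && (
  let v247 := add v246 v0; ok v247 && (
  let v248 := mul v223 v247; ok v248 && (
  let v249 := add v248 v0; ok v249 && (
  let v250 := mul v222 v249; ok v250 && (
  let v251 := scale ⟨2199023255552, 0, 0, 0⟩ v250; ok v251 && (
  let v252 := mul v237 v226; ok v252 && (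
  let v253 := sub v251 v252; ok v253 && (
  isPos 2 v253 && (
  let v254 := scale ⟨0, 311397842944, 0, 0⟩ x1; ok v254 && (
  let v255 := scale ⟨4429783302144, 0, 0, 0⟩ v219; ok v255 && (
  let v256 := add v254 v255; ok v256 && (
  let v257 := scale ⟨0, 15839646449664, 0, 0⟩ v220; ok v257 && (
  let v258 := add v256 v257; ok v258 && (
  let v259 := scale ⟨7596378423296, 0, 0, 0⟩ v218; ok v259 && (
  let v260 := add v258 v259; ok v260 && (
  let v261 := scale ⟨0, 124021423144960, 0, 0⟩ v221; ok v261 && (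
  let v262 := add v260 v261; ok v262 && (
  let v263 := cst ⟨788538327040, 0, 0, 0⟩; ok v263 && (
  let v264 := add v262 v263; ok v264 && (
  isPos 2 v264 && (
  let v265 := cst ⟨9249212071936, 0, 0, 0⟩; ok v265 && (
  let v266 := add v19 v265; ok v266 && (
  isPos 2 v266 && (
  let v267 := cst ⟨9999220736, 0, 0, 0⟩; ok v267 && (
  let v268 := sub x0 v267; ok v268 && (
  let v269 := mul x1 x1; ok v269 && (
  let v270 := mul v269 x1; ok v270 && (
  let v271 := mul v268 x1; ok v271 && (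
  let v272 := mul v4 v4; ok v272 && (
  let v273 := mul v272 v272; ok v273 && (
  let v274 := scale ⟨26388279066624, 0, 0, 0⟩ v1; ok v274 && (
  let v275 := neg v274; ok v275 && (
  let v276 := exp v275; ok v276 && (
  let v277 := scale ⟨329869099008, 0, 0, 0⟩ x1; ok v277 && (
  let v278 := scale ⟨21630535991296, 0, 0, 0⟩ v269; ok v278 && (
  let v279 := add v277 v278; ok v279 && (
  let v280 := scale ⟨0, 78420257472512, 0, 0⟩ v270; ok v280 && (
  let v281 := add v279 v280; ok v281 && (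
  let v282 := scale ⟨264636533309440, 0, 0, 0⟩ v268; ok v282 && (
  let v283 := add v281 v282; ok v283 && (
  let v284 := scale ⟨0, 1211362691907584, 0, 0⟩ v271; ok v284 && (
  let v285 := add v283 v284; ok v285 && (
  let v286 := cst ⟨6677341863936, 0, 0, 0⟩; ok v286 && (
  let v287 := add v285 v286; ok v287 && (
  let v288 := mul x0 v18; ok v288 && (
  let v289 := mul v288 v287; ok v289 && (
  let v290 := add v289 v0; ok v290 && (
  let v291 := mul v276 v290; ok v291 && (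
  let v292 := scale ⟨1099511627776, 0, 0, 0⟩ v273; ok v292 && (
  let v293 := add v292 v0; ok v293 && (
  let v294 := mul v273 v293; ok v294 && (
  let v295 := add v294 v0; ok v295 && (
  let v296 := mul v273 v295; ok v296 && (
  let v297 := add v296 v0; ok v297 && (
  let v298 := mul v273 v297; ok v298 && (
  let v299 := add v298 v0; ok v299 && (
  let v300 := mul v273 v299; ok v300 && (
  let v301 := add v300 v0; ok v301 && (
  let v302 := mul v272 v301; ok v302 && (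
  let v303 := scale ⟨2199023255552, 0, 0, 0⟩ v302; ok v303 && (
  let v304 := mul v287 v276; ok v304 && (
  let v305 := sub v303 v304; ok v305 && (
  isPos 2 v305 && (
  let v306 := scale ⟨0, 204525010944, 0, 0⟩ x1; ok v306 && (
  let v307 := scale ⟨2840049352704, 0, 0, 0⟩ v269; ok v307 && (
  let v308 := add v306 v307; ok v308 && (
  let v309 := scale ⟨0, 11743768018944, 0, 0⟩ v270; ok v309 && (
  let v310 := add v308 v309; ok v310 && (
  let v311 := scale ⟨0, 5644330139648, 0, 0⟩ v268; ok v311 && (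
  let v312 := add v310 v311; ok v312 && (
  let v313 := scale ⟨0, 90439908065280, 0, 0⟩ v271; ok v313 && (
  let v314 := add v312 v313; ok v314 && (
  let v315 := cst ⟨718924021760, 0, 0, 0⟩; ok v315 && (
  let v316 := add v314 v315; ok v316 && (
  isPos 2 v316 && (
  let v317 := cst ⟨9425305731072, 0, 0, 0⟩; ok v317 && (
  let v318 := add v19 v317; ok v318 && (
  isPos 2 v318 && (
  let v319 := cst ⟨9999220736, 0, 0, 0⟩; ok v319 && (
  let v320 := sub x0 v319; ok v320 && (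
  let v321 := mul x1 x1; ok v321 && (
  let v322 := mul v321 x1; ok v322 && (
  let v323 := mul v320 x1; ok v323 && (
  let v324 := mul v4 v4; ok v324 && (
  let v325 := mul v324 v324; ok v325 && (
  let v326 := scale ⟨30786325577728, 0, 0, 0⟩ v1; ok v326 && (
  let v327 := neg v326; ok v327 && (
  let v328 := exp v327; ok v328 && (
  let v329 := scale ⟨125344088064, 0, 0, 0⟩ x1; ok v329 && (
  let v330 := scale ⟨24470585344000, 0, 0, 0⟩ v321; ok v330 && (
  let v331 := add v329 v330; ok v331 && (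
  let v332 := scale ⟨0, 90164025491456, 0, 0⟩ v322; ok v332 && (
  let v333 := add v331 v332; ok v333 && (
  let v334 := scale ⟨258992203169792, 0, 0, 0⟩ v320; ok v334 && (
  let v335 := add v333 v334; ok v335 && (
  let v336 := scale ⟨0, 1301802599972864, 0, 0⟩ v323; ok v336 && (
  let v337 := add v335 v336; ok v337 && (
  let v338 := cst ⟨7396265885696, 0, 0, 0⟩; ok v338 && (
  let v339 := add v337 v338; ok v339 && (
  let v340 := mul x0 v18; ok v340 && (
  let v341 := mul v340 v339; ok v341 && (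
  let v342 := add v341 v0; ok v342 && (
  let v343 := mul v328 v342; ok v343 && (
  let v344 := scale ⟨1099511627776, 0, 0, 0⟩ v325; ok v344 && (
  let v345 := add v344 v0; ok v345 && (
  let v346 := mul v325 v345; ok v346 && (
  let v347 := add v346 v0; ok v347 && (
  let v348 := mul v325 v347; ok v348 && (
  let v349 := add v348 v0; ok v349 && (
  let v350 := mul v325 v349; ok v350 && (
  let v351 := add v350 v0; ok v351 && (
  let v352 := mul v325 v351; ok v352 && (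
  let v353 := add v352 v0; ok v353 && (
  let v354 := mul v325 v353; ok v354 && (
  let v355 := add v354 v0; ok v355 && (
  let v356 := mul v324 v355; ok v356 && (
  let v357 := scale ⟨2199023255552, 0, 0, 0⟩ v356; ok v357 && (
  let v358 := mul v339 v328; ok v358 && (
  let v359 := sub v357 v358; ok v359 && (
  isPos 2 v359 && (
  let v360 := scale ⟨0, 218235273216, 0, 0⟩ x1; ok v360 && (
  let v361 := scale ⟨2258507726848, 0, 0, 0⟩ v321; ok v361 && (
  let v362 := add v360 v361; ok v362 && (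
  let v363 := scale ⟨0, 10023123222528, 0, 0⟩ v322; ok v363 && (
  let v364 := add v362 v363; ok v364 && (
  let v365 := scale ⟨0, 16208740286464, 0, 0⟩ v320; ok v365 && (
  let v366 := add v364 v365; ok v366 && (
  let v367 := scale ⟨0, 74359592321024, 0, 0⟩ v323; ok v367 && (
  let v368 := add v366 v367; ok v368 && (
  let v369 := cst ⟨656257712128, 0, 0, 0⟩; ok v369 && (
  let v370 := add v368 v369; ok v370 && (
  isPos 2 v370 && (
  let v371 := cst ⟨9594956939264, 0, 0, 0⟩; ok v371 && (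
  let v372 := add v19 v371; ok v372 && (
  isPos 2 v372 && (
  let v373 := cst ⟨9999220736, 0, 0, 0⟩; ok v373 && (
  let v374 := sub x0 v373; ok v374 && (
  let v375 := mul x1 x1; ok v375 && (
  let v376 := mul v375 x1; ok v376 && (
  let v377 := mul v374 x1; ok v377 && (
  let v378 := mul v4 v4; ok v378 && (
  let v379 := mul v378 v378; ok v379 && (
  let v380 := scale ⟨35184372088832, 0, 0, 0⟩ v1; ok v380 && (
  let v381 := neg v380; ok v381 && (
  let v382 := exp v381; ok v382 && (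
  let v383 := scale ⟨0, 92891185152, 0, 0⟩ x1; ok v383 && (
  let v384 := scale ⟨26729093070848, 0, 0, 0⟩ v375; ok v384 && (
  let v385 := add v383 v384; ok v385 && (
  let v386 := scale ⟨0, 100187148713984, 0, 0⟩ v376; ok v386 && (
  let v387 := add v385 v386; ok v387 && (
  let v388 := scale ⟨242783462883328, 0, 0, 0⟩ v374; ok v388 && (
  let v389 := add v387 v388; ok v389 && (
  let v390 := scale ⟨0, 1376162192293888, 0, 0⟩ v377; ok v390 && (
  let v391 := add v389 v390; ok v391 && (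
  let v392 := cst ⟨8052523597824, 0, 0, 0⟩; ok v392 && (
  let v393 := add v391 v392; ok v393 && (
  let v394 := mul x0 v18; ok v394 && (
  let v395 := mul v394 v393; ok v395 && (
  let v396 := add v395 v0; ok v396 && (
  let v397 := mul v382 v396; ok v397 && (
  let v398 := scale ⟨1099511627776, 0, 0, 0⟩ v379; ok v398 && (
  let v399 := add v398 v0; ok v399 && (
  let v400 := mul v379 v399; ok v400 && (
  let v401 := add v400 v0; ok v401 && (
  let v402 := mul v379 v401; ok v402 && (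
  let v403 := add v402 v0; ok v403 && (
  let v404 := mul v379 v403; ok v404 && (
  let v405 := add v404 v0; ok v405 && (
  let v406 := mul v379 v405; ok v406 && (
  let v407 := add v406 v0; ok v407 && (
  let v408 := mul v379 v407; ok v408 && (
  let v409 := add v408 v0; ok v409 && (
  let v410 := mul v379 v409; ok v410 && (
  let v411 := add v410 v0; ok v411 && (
  let v412 := mul v378 v411; ok v412 && (
  let v413 := scale ⟨2199023255552, 0, 0, 0⟩ v412; ok v413 && (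
  let v414 := mul v393 v382; ok v414 && (
  let v415 := sub v413 v414; ok v415 && (
  isPos 2 v415 && (
  let v416 := scale ⟨0, 236787269632, 0, 0⟩ x1; ok v416 && (
  let v417 := scale ⟨1843048546304, 0, 0, 0⟩ v375; ok v417 && (
  let v418 := add v416 v417; ok v418 && (
  let v419 := scale ⟨0, 8643064692736, 0, 0⟩ v376; ok v419 && (
  let v420 := add v418 v419; ok v420 && (
  let v421 := scale ⟨0, 24666148110336, 0, 0⟩ v374; ok v421 && (
  let v422 := add v420 v421; ok v422 && (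
  let v423 := scale ⟨0, 59973159878656, 0, 0⟩ v377; ok v423 && (
  let v424 := add v422 v423; ok v424 && (
  let v425 := cst ⟨598969745408, 0, 0, 0⟩; ok v425 && (
  let v426 := add v424 v425; ok v426 && (
  isPos 2 v426 && (
  let v427 := cst ⟨9756018212864, 0, 0, 0⟩; ok v427 && (
  let v428 := add v19 v427; ok v428 && (
  isPos 2 v428 && (
  let v429 := cst ⟨9999220736, 0, 0, 0⟩; ok v429 && (
  let v430 := sub x0 v429; ok v430 && (
  let v431 := mul x1 x1; ok v431 && (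
  let v432 := mul v431 x1; ok v432 && (
  let v433 := mul v430 x1; ok v433 && (
  let v434 := mul v4 v4; ok v434 && (
  let v435 := mul v434 v434; ok v435 && (
  let v436 := scale ⟨39582418599936, 0, 0, 0⟩ v1; ok v436 && (
  let v437 := neg v436; ok v437 && (
  let v438 := exp v437; ok v438 && (
  let v439 := scale ⟨0, 329678454784, 0, 0⟩ x1; ok v439 && (
  let v440 := scale ⟨28572141617152, 0, 0, 0⟩ v431; ok v440 && (
  let v441 := add v439 v440; ok v441 && (
  let v442 := scale ⟨0, 108830213406720, 0, 0⟩ v432; ok v442 && (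
  let v443 := add v441 v442; ok v443 && (
  let v444 := scale ⟨218117314772992, 0, 0, 0⟩ v430; ok v444 && (
  let v445 := add v443 v444; ok v445 && (
  let v446 := scale ⟨0, 1436135352172544, 0, 0⟩ v433; ok v446 && (
  let v447 := add v445 v446; ok v447 && (
  let v448 := cst ⟨8651493343232, 0, 0, 0⟩; ok v448 && (
  let v449 := add v447 v448; ok v449 && (
  let v450 := mul x0 v18; ok v450 && (
  let v451 := mul v450 v449; ok v451 && (
  let v452 := add v451 v0; ok v452 && (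
  let v453 := mul v438 v452; ok v453 && (
  let v454 := scale ⟨1099511627776, 0, 0, 0⟩ v435; ok v454 && (
  let v455 := add v454 v0; ok v455 && (
  let v456 := mul v435 v455; ok v456 && (
  let v457 := add v456 v0; ok v457 && (
  let v458 := mul v435 v457; ok v458 && (
  let v459 := add v458 v0; ok v459 && (
  let v460 := mul v435 v459; ok v460 && (
  let v461 := add v460 v0; ok v461 && (
  let v462 := mul v435 v461; ok v462 && (
  let v463 := add v462 v0; ok v463 && (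
  let v464 := mul v435 v463; ok v464 && (
  let v465 := add v464 v0; ok v465 && (
  let v466 := mul v435 v465; ok v466 && (
  let v467 := add v466 v0; ok v467 && (
  let v468 := mul v435 v467; ok v468 && (
  let v469 := add v468 v0; ok v469 && (
  let v470 := mul v434 v469; ok v470 && (
  let v471 := scale ⟨2199023255552, 0, 0, 0⟩ v470; ok v471 && (
  let v472 := mul v449 v438; ok v472 && (
  let v473 := sub v471 v472; ok v473 && (
  isPos 2 v473 && (
  let v474 := scale ⟨0, 238092353536, 0, 0⟩ x1; ok v474 && (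
  let v475 := scale ⟨1347253043200, 0, 0, 0⟩ v431; ok v475 && (
  let v476 := add v474 v475; ok v476 && (
  let v477 := scale ⟨0, 7011576053760, 0, 0⟩ v432; ok v477 && (
  let v478 := add v476 v477; ok v478 && (
  let v479 := scale ⟨0, 31582902157312, 0, 0⟩ v430; ok v479 && (
  let v480 := add v478 v479; ok v480 && (
  let v481 := scale ⟨0, 45973147287552, 0, 0⟩ v433; ok v481 && (
  let v482 := add v480 v481; ok v482 && (
  let v483 := cst ⟨546436743168, 0, 0, 0⟩; ok v483 && (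
  let v484 := add v482 v483; ok v484 && (
  isPos 2 v484 && (
  let v485 := cst ⟨9908489551872, 0, 0, 0⟩; ok v485 && (
  let v486 := add v19 v485; ok v486 && (
  isPos 2 v486 && (
  let v487 := cst ⟨9999220736, 0, 0, 0⟩; ok v487 && (
  let v488 := sub x0 v487; ok v488 && (
  let v489 := mul x1 x1; ok v489 && (
  let v490 := mul v489 x1; ok v490 && (
  let v491 := mul v488 x1; ok v491 && (
  let v492 := mul v4 v4; ok v492 && (
  let v493 := mul v492 v492; ok v493 && (
  let v494 := scale ⟨43980465111040, 0, 0, 0⟩ v1; ok v494 && (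
  let v495 := neg v494; ok v495 && (
  let v496 := exp v495; ok v496 && (
  let v497 := scale ⟨0, 567770808320, 0, 0⟩ x1; ok v497 && (
  let v498 := scale ⟨29919394660352, 0, 0, 0⟩ v489; ok v498 && (
  let v499 := add v497 v498; ok v499 && (
  let v500 := scale ⟨0, 115841789460480, 0, 0⟩ v490; ok v500 && (
  let v501 := add v499 v500; ok v501 && (
  let v502 := scale ⟨186534412615680, 0, 0, 0⟩ v488; ok v502 && (
  let v503 := add v501 v502; ok v503 && (
  let v504 := scale ⟨0, 1482108499460096, 0, 0⟩ v491; ok v504 && (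
  let v505 := add v503 v504; ok v505 && (
  let v506 := cst ⟨9197930086400, 0, 0, 0⟩; ok v506 && (
  let v507 := add v505 v506; ok v507 && (
  let v508 := mul x0 v18; ok v508 && (
  let v509 := mul v508 v507; ok v509 && (
  let v510 := add v509 v0; ok v510 && (
  let v511 := mul v496 v510; ok v511 && (
  let v512 := scale ⟨1099511627776, 0, 0, 0⟩ v493; ok v512 && (
  let v513 := add v512 v0; ok v513 && (
  let v514 := mul v493 v513; ok v514 && (
  let v515 := add v514 v0; ok v515 && (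
  let v516 := mul v493 v515; ok v516 && (
  let v517 := add v516 v0; ok v517 && (
  let v518 := mul v493 v517; ok v518 && (
  let v519 := add v518 v0; ok v519 && (
  let v520 := mul v493 v519; ok v520 && (
  let v521 := add v520 v0; ok v521 && (
  let v522 := mul v493 v521; ok v522 && (
  let v523 := add v522 v0; ok v523 && (
  let v524 := mul v493 v523; ok v524 && (
  let v525 := add v524 v0; ok v525 && (
  let v526 := mul v493 v525; ok v526 && (
  let v527 := add v526 v0; ok v527 && (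
  let v528 := mul v493 v527; ok v528 && (
  let v529 := add v528 v0; ok v529 && (
  let v530 := mul v492 v529; ok v530 && (
  let v531 := scale ⟨2199023255552, 0, 0, 0⟩ v530; ok v531 && (
  let v532 := mul v507 v496; ok v532 && (
  let v533 := sub v531 v532; ok v533 && (
  isPos 2 v533 && (
  let v534 := scale ⟨0, 227065069568, 0, 0⟩ x1; ok v534 && (
  let v535 := scale ⟨547135094784, 0, 0, 0⟩ v489; ok v535 && (
  let v536 := add v534 v535; ok v536 && (
  let v537 := scale ⟨0, 4485427888128, 0, 0⟩ v490; ok v537 && (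
  let v538 := add v536 v537; ok v538 && (
  let v539 := scale ⟨0, 37538859450368, 0, 0⟩ v488; ok v539 && (
  let v540 := add v538 v539; ok v540 && (
  let v541 := scale ⟨0, 27774553161728, 0, 0⟩ v491; ok v541 && (
  let v542 := add v540 v541; ok v542 && (
  let v543 := cst ⟨498599591936, 0, 0, 0⟩; ok v543 && (
  let v544 := add v542 v543; ok v544 && (
  isPos 2 v544 && (
  let v545 := cst ⟨10050223472640, 0, 0, 0⟩; ok v545 && (
  let v546 := add v19 v545; ok v546 && (
  isPos 2 v546 && (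
  let v547 := cst ⟨9999220736, 0, 0, 0⟩; ok v547 && (
  let v548 := sub x0 v547; ok v548 && (
  let v549 := mul x1 x1; ok v549 && (
  let v550 := mul v549 x1; ok v550 && (
  let v551 := mul v548 x1; ok v551 && (
  let v552 := mul v4 v4; ok v552 && (
  let v553 := mul v552 v552; ok v553 && (
  let v554 := scale ⟨48378511622144, 0, 0, 0⟩ v1; ok v554 && (
  let v555 := neg v554; ok v555 && (
  let v556 := exp v555; ok v556 && (
  let v557 := scale ⟨0, 794835877888, 0, 0⟩ x1; ok v557 && (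
  let v558 := scale ⟨30466529755136, 0, 0, 0⟩ v549; ok v558 && (
  let v559 := add v557 v558; ok v559 && (
  let v560 := scale ⟨0, 120327217348608, 0, 0⟩ v550; ok v560 && (
  let v561 := add v559 v560; ok v561 && (
  let v562 := scale ⟨148995553165312, 0, 0, 0⟩ v548; ok v562 && (
  let v563 := add v561 v562; ok v563 && (
  let v564 := scale ⟨0, 1509883052621824, 0, 0⟩ v551; ok v564 && (
  let v565 := add v563 v564; ok v565 && (
  let v566 := cst ⟨9696529678336, 0, 0, 0⟩; ok v566 && (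
  let v567 := add v565 v566; ok v567 && (
  let v568 := mul x0 v18; ok v568 && (
  let v569 := mul v568 v567; ok v569 && (
  let v570 := add v569 v0; ok v570 && (
  let v571 := mul v556 v570; ok v571 && (
  let v572 := scale ⟨1099511627776, 0, 0, 0⟩ v553; ok v572 && (
  let v573 := add v572 v0; ok v573 && (
  let v574 := mul v553 v573; ok v574 && (
  let v575 := add v574 v0; ok v575 && (
  let v576 := mul v553 v575; ok v576 && (
  let v577 := add v576 v0; ok v577 && (
  let v578 := mul v553 v577; ok v578 && (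
  let v579 := add v578 v0; ok v579 && (
  let v580 := mul v553 v579; ok v580 && (
  let v581 := add v580 v0; ok v581 && (
  let v582 := mul v553 v581; ok v582 && (
  let v583 := add v582 v0; ok v583 && (
  let v584 := mul v553 v583; ok v584 && (
  let v585 := add v584 v0; ok v585 && (
  let v586 := mul v553 v585; ok v586 && (
  let v587 := add v586 v0; ok v587 && (
  let v588 := mul v553 v587; ok v588 && (
  let v589 := add v588 v0; ok v589 && (
  let v590 := mul v553 v589; ok v590 && (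
  let v591 := add v590 v0; ok v591 && (
  let v592 := mul v552 v591; ok v592 && (
  let v593 := scale ⟨2199023255552, 0, 0, 0⟩ v592; ok v593 && (
  let v594 := mul v567 v556; ok v594 && (
  let v595 := sub v593 v594; ok v595 && (
  isPos 2 v595 && (
  let v596 := scale ⟨0, 223685640192, 0, 0⟩ x1; ok v596 && (
  let v597 := scale ⟨2827943936, 0, 0, 0⟩ v549; ok v597 && (
  let v598 := add v596 v597; ok v598 && (
  let v599 := scale ⟨0, 2761131491328, 0, 0⟩ v550; ok v599 && (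
  let v600 := add v598 v599; ok v600 && (
  let v601 := scale ⟨0, 42874068205568, 0, 0⟩ v548; ok v601 && (
  let v602 := add v600 v601; ok v602 && (
  let v603 := scale ⟨0, 8093636493312, 0, 0⟩ v551; ok v603 && (
  let v604 := add v602 v603; ok v604 && (
  let v605 := cst ⟨455255130112, 0, 0, 0⟩; ok v605 && (
  let v606 := add v604 v605; ok v606 && (
  isPos 2 v606 && (
  let v607 := cst ⟨10180146233344, 0, 0, 0⟩; ok v607 && (
  let v608 := add v19 v607; ok v608 && (
  isPos 2 v608 && (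
  let v609 := cst ⟨9999220736, 0, 0, 0⟩; ok v609 && (
  let v610 := sub x0 v609; ok v610 && (
  let v611 := mul x1 x1; ok v611 && (
  let v612 := mul v611 x1; ok v612 && (
  let v613 := mul v610 x1; ok v613 && (
  let v614 := mul v4 v4; ok v614 && (
  let v615 := mul v614 v614; ok v615 && (
  let v616 := scale ⟨52776558133248, 0, 0, 0⟩ v1; ok v616 && (
  let v617 := neg v616; ok v617 && (
  let v618 := exp v617; ok v618 && (
  let v619 := scale ⟨0, 1018521518080, 0, 0⟩ x1; ok v619 && (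
  let v620 := scale ⟨30469357699072, 0, 0, 0⟩ v611; ok v620 && (
  let v621 := add v619 v620; ok v621 && (
  let v622 := scale ⟨0, 123088348839936, 0, 0⟩ v612; ok v622 && (
  let v623 := add v621 v622; ok v623 && (
  let v624 := scale ⟨106121484959744, 0, 0, 0⟩ v610; ok v624 && (
  let v625 := add v623 v624; ok v625 && (
  let v626 := scale ⟨0, 1517976689115136, 0, 0⟩ v613; ok v626 && (
  let v627 := add v625 v626; ok v627 && (
  let v628 := cst ⟨10151784808448, 0, 0, 0⟩; ok v628 && (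
  let v629 := add v627 v628; ok v629 && (
  let v630 := mul x0 v18; ok v630 && (
  let v631 := mul v630 v629; ok v631 && (
  let v632 := add v631 v0; ok v632 && (
  let v633 := mul v618 v632; ok v633 && (
  let v634 := scale ⟨1099511627776, 0, 0, 0⟩ v615; ok v634 && (
  let v635 := add v634 v0; ok v635 && (
  let v636 := mul v615 v635; ok v636 && (
  let v637 := add v636 v0; ok v637 && (
  let v638 := mul v615 v637; ok v638 && (
  let v639 := add v638 v0; ok v639 && (
  let v640 := mul v615 v639; ok v640 && (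
  let v641 := add v640 v0; ok v641 && (
  let v642 := mul v615 v641; ok v642 && (
  let v643 := add v642 v0; ok v643 && (
  let v644 := mul v615 v643; ok v644 && (
  let v645 := add v644 v0; ok v645 && (
  let v646 := mul v615 v645; ok v646 && (
  let v647 := add v646 v0; ok v647 && (
  let v648 := mul v615 v647; ok v648 && (
  let v649 := add v648 v0; ok v649 && (
  let v650 := mul v615 v649; ok v650 && (
  let v651 := add v650 v0; ok v651 && (
  let v652 := mul v615 v651; ok v652 && (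
  let v653 := add v652 v0; ok v653 && (
  let v654 := mul v615 v653; ok v654 && (
  let v655 := add v654 v0; ok v655 && (
  let v656 := mul v614 v655; ok v656 && (
  let v657 := scale ⟨2199023255552, 0, 0, 0⟩ v656; ok v657 && (
  let v658 := mul v629 v618; ok v658 && (
  let v659 := sub v657 v658; ok v659 && (
  isPos 2 v659 && (
  let v660 := scale ⟨10555310997504, 0, 0, 0⟩ v1; ok v660 && (
  let v661 := exp v660; ok v661 && (
  let v662 := mul v660 v660; ok v662 && (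
  let v663 := scale ⟨183251937962, 0, 0, 0⟩ v662; ok v663 && (
  let v664 := add v663 v0; ok v664 && (
  let v665 := mul v661 v664; ok v665 && (
  let v666 := scale ⟨10555310997504, 0, 0, 0⟩ v665; ok v666 && (
  let v667 := scale ⟨737405800448, 0, 0, 0⟩ v5; ok v667 && (
  let v668 := add v667 v0; ok v668 && (
  let v669 := mul v629 v668; ok v669 && (
  let v670 := sub v666 v669; ok v670 && (
  isPos 2 v670 && (
  true)))))))))))))))))))))))))))))))))))))))))))))))))))))))))))))))))))))))))))))))))))))))))))))))))))))))))))))))))))))))))))))))))))))))))))))))))))))))))))))))))))))))))))))))))))))))))))))))))))))))))))))))))))))))))))))))))))))))))))))))))))))))))))))))))))))))))))))))))))))))))))))))))))))))))))))))))))))))))))))))))))))))))))))))))))))))))))))))))))))))))))))))))))))))))))))))))))))))))))))))))))))))))))))))))))))))))))))))))))))))))))))))))))))))))))))))))))))))))))))))))))))))))))))))))))))))))))))))))))))))))))))))))))))))))))))))))))))))))))))))))))))))))))))))))))))))))))))))))))))))))))))))))))))))))))))))))))))))))))))))))))))))))))))))))))))))))))))))))))))))))))))))))))))))))))))))))))))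
  | _ => false

set_option maxRecDepth 1000000 in
theorem c_S_0_eq (X : XOps) (m : List X.O.α)
    (h : c_S_0 X.O.cst X.O.add X.O.sub X.O.mul X.O.scale X.O.neg X.O.inv X.O.exp X.O.log X.O.ok
      X.O.isPos X.O.isLt X.ball X.rball m = true) :
    runX X 2 p_S_0 m = true := by
  match m, h with
  | [x0, x1], h => exact h

abbrev gS : List (List Op) := [p_S_0]

noncomputable abbrev kS : List (List xE.O.α → Bool) := [c_S_0 xE.O.cst xE.O.add xE.O.sub xE.O.mul xE.O.scale xE.O.neg xE.O.inv xE.O.exp xE.O.log xE.O.ok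
      xE.O.isPos xE.O.isLt xE.ball xE.rball]

theorem kS_eq : List.Forall₂ (fun (ops : List Op) (chk : List xE.O.α → Bool) =>
    ∀ m, chk m = true → runX xE 2 ops m = true) gS kS :=
  List.Forall₂.cons (c_S_0_eq xE) List.Forall₂.nil

theorem gS_eq : gS = [PSS tab 12] := by decide +kernel

end Pool.Agent.helper14.NS.Q100a
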